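import Pool.Agent.TH630.Tor.FiveData

/-!
Surjectivity of the homomorphism to `Heis × ℤ`.
-/

noncomputable section

namespace Pool.Agent.TH630.Tor

open Pool.Agent.Helper993.HeisDet

theorem heis_hom_zpow (f : ℤ → Heis ℤ) (h0 : f 0 = 1) (h : ∀ a, f (a + 1) = f a * f 1) (a : ℤ) :
    f 1 ^ a = f a := by
  induction a using Int.induction_on with
  | zero => rw [zpow_zero, h0]
  | succ n ih => rw [zpow_add_one, ih, ← h]
  | pred n ih =>
    rw [zpow_sub_one, ih]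
    have := h (-(n : ℤ) - 1)
    rw [sub_add_cancel] at this
    rw [this, mul_inv_cancel_right]

theorem tt_zpow (a : ℤ) : tt ^ a = (⟨a, 0, 0⟩ : Heis ℤ) :=
  heis_hom_zpow (fun a => ⟨a, 0, 0⟩) rfl (fun a => by ext <;> simp) a

theorem uu_zpow (a : ℤ) : uu ^ a = (⟨0, a, 0⟩ : Heis ℤ) :=
  heis_hom_zpow (fun a => ⟨0, a, 0⟩) rfl (fun a => by ext <;> simp) a

theorem zz_zpow (a : ℤ) : (⟨0, 0, 1⟩ : Heis ℤ) ^ a = (⟨0, 0, a⟩ : Heis ℤ) :=
  heis_hom_zpow (fun a => ⟨0, 0, a⟩) rfl (fun a => by ext <;> simp) a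

theorem heis_gen (g : Heis ℤ) :
    g = uu ^ g.b * tt ^ g.a * (tt * uu * (uu * tt)⁻¹) ^ g.c := by
  have h : tt * uu * (uu * tt)⁻¹ = (⟨0, 0, 1⟩ : Heis ℤ) := by
    ext <;> simp [tt, uu]
  rw [h, zz_zpow, tt_zpow, uu_zpow]
  ext <;> simp

/-- A subgroup of `Heis × ℤ` which contains the generators is everything. -/
theorem hz_top (H : Subgroup HZ) (hu : (uu, 1) ∈ H) (ht : (tt, 1) ∈ H)
    (hs : ((1, Multiplicative.ofAdd 1) : HZ) ∈ H) : H = ⊤ := by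
  rw [eq_top_iff]
  intro g _
  have e : g = ((uu, 1) : HZ) ^ g.1.b * ((tt, 1) : HZ) ^ g.1.a
      * (((tt, 1) : HZ) * (uu, 1) * (((uu, 1) : HZ) * (tt, 1))⁻¹) ^ g.1.c
      * ((1, Multiplicative.ofAdd 1) : HZ) ^ (Multiplicative.toAdd g.2) := by
    refine Prod.ext ?_ ?_
    · have := heis_gen g.1
      simpa using this
    · simp only [Prod.snd_mul, Prod.pow_snd, Prod.snd_inv, one_zpow, mul_one, inv_one, one_mul]
      rw [← ofAdd_zsmul, smul_eq_mul, mul_one]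
      rfl
  rw [e]
  refine H.mul_mem (H.mul_mem (H.mul_mem (H.zpow_mem hu _) (H.zpow_mem ht _)) (H.zpow_mem ?_ _))
    (H.zpow_mem hs _)
  exact H.mul_mem (H.mul_mem ht hu) (H.inv_mem (H.mul_mem hu ht))

theorem φ4_surjective : Function.Surjective φ4 := by
  rw [← MonoidHom.range_eq_top]
  exact hz_top _ ⟨_, φ4_0⟩ ⟨_, φ4_1⟩ ⟨_, φ4_3⟩

end Pool.Agent.TH630.Tor
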