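import Mathlib

/-!
Explicit automorphisms of the free group on `x_0, …, x_7` which fix
`[x_0, x_1] [x_2, x_3] [x_4, x_5] [x_6, x_7]`.
-/

noncomputable section

namespace Pool.Agent.TH630.Tor

abbrev F8 := FreeGroup (Fin 8)

/-- the generators -/
abbrev x8 (i : Fin 8) : F8 := FreeGroup.of i

/-- the commutator of the generators `x_4`, `x_5` -/
def cC : F8 := x8 4 * x8 5 * (x8 4)⁻¹ * (x8 5)⁻¹

/-- the commutator of the generators `x_6`, `x_7` -/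
def cE : F8 := x8 6 * x8 7 * (x8 6)⁻¹ * (x8 7)⁻¹

/-- homomorphism given by the images of the generators -/
def mk8 (v : Fin 8 → F8) : F8 →* F8 := FreeGroup.lift v

theorem mk8_of (v : Fin 8 → F8) (i : Fin 8) : mk8 v (x8 i) = v i := FreeGroup.lift_apply_of

theorem hom_ext8 {M : Type} [Monoid M] {f g : F8 →* M} (h : ∀ i, f (x8 i) = g (x8 i)) : f = g :=
  FreeGroup.ext_hom _ _ h

/-- sliding the third handle over the fourth handle -/
def tauF : F8 →* F8 := mk8 ![x8 0, x8 1, x8 2, x8 3, x8 4 * x8 6, (x8 6)⁻¹ * x8 5 * x8 6,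
  (x8 6)⁻¹ * x8 5 * x8 6 * (x8 5)⁻¹ * x8 6, x8 7 * (x8 6)⁻¹ * (x8 5)⁻¹ * x8 6]

/-- its inverse -/
def tauG : F8 →* F8 := mk8 ![x8 0, x8 1, x8 2, x8 3, x8 4 * (x8 5)⁻¹ * (x8 6)⁻¹ * x8 5,
  (x8 5)⁻¹ * x8 6 * x8 5 * (x8 6)⁻¹ * x8 5, (x8 5)⁻¹ * x8 6 * x8 5, x8 7 * x8 5]

theorem tau_inv1 : tauG.comp tauF = MonoidHom.id _ := by
  apply hom_ext8
  intro i
  fin_cases i <;> simp [tauF, tauG, mk8, mul_assoc]

theorem tau_inv2 : tauF.comp tauG = MonoidHom.id _ := by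
  apply hom_ext8
  intro i
  fin_cases i <;> simp [tauF, tauG, mk8, mul_assoc]

def tau : F8 ≃* F8 := MonoidHom.toMulEquiv tauF tauG tau_inv1 tau_inv2

/-- exchanging the third and the fourth handle -/
def sigF : F8 →* F8 := mk8 ![x8 0, x8 1, x8 2, x8 3, cC * x8 6 * cC⁻¹, cC * x8 7 * cC⁻¹, x8 4, x8 5]

/-- its inverse -/
def sigG : F8 →* F8 := mk8 ![x8 0, x8 1, x8 2, x8 3, x8 6, x8 7, cE⁻¹ * x8 4 * cE, cE⁻¹ * x8 5 * cE]

theorem sig_inv1 : sigG.comp sigF = MonoidHom.id _ := by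
  apply hom_ext8
  intro i
  fin_cases i <;> simp [sigF, sigG, mk8, cC, cE, mul_assoc]

theorem sig_inv2 : sigF.comp sigG = MonoidHom.id _ := by
  apply hom_ext8
  intro i
  fin_cases i <;> simp [sigF, sigG, mk8, cC, cE, mul_assoc]

def sig : F8 ≃* F8 := MonoidHom.toMulEquiv sigF sigG sig_inv1 sig_inv2

/-- `x_3 x_2⁻¹ x_3⁻¹` -/
def gU : F8 := x8 3 * (x8 2)⁻¹ * (x8 3)⁻¹

/-- `x_1 x_0⁻¹ x_1⁻¹` -/
def gT : F8 := x8 1 * (x8 0)⁻¹ * (x8 1)⁻¹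

def gU' : F8 := cC⁻¹ * gU * cC
def gT' : F8 := cC⁻¹ * gT * cC
def kT : F8 := gT * cC * gT⁻¹ * cC⁻¹
def kT' : F8 := cC * gT'⁻¹ * cC⁻¹ * gT'

/-- dragging the third handle around the second one -/
def pUF : F8 →* F8 := mk8 ![x8 0, x8 1, x8 2, gU * cC * gU⁻¹ * x8 3, gU * x8 4 * gU⁻¹,
  gU * x8 5 * gU⁻¹, x8 6, x8 7]

def pUG : F8 →* F8 := mk8 ![x8 0, x8 1, x8 2, cC⁻¹ * x8 3, gU'⁻¹ * x8 4 * gU', gU'⁻¹ * x8 5 * gU',
  x8 6, x8 7]

theorem pU_inv1 : pUG.comp pUF = MonoidHom.id _ := by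
  apply hom_ext8
  intro i
  fin_cases i <;> simp [pUF, pUG, mk8, gU, gU', cC, mul_assoc]

theorem pU_inv2 : pUF.comp pUG = MonoidHom.id _ := by
  apply hom_ext8
  intro i
  fin_cases i <;> simp [pUF, pUG, mk8, gU, gU', cC, mul_assoc]

def pU : F8 ≃* F8 := MonoidHom.toMulEquiv pUF pUG pU_inv1 pU_inv2

/-- dragging the third handle around the first one -/
def pTF : F8 →* F8 := mk8 ![x8 0, gT * cC * gT⁻¹ * x8 1, kT * x8 2 * kT⁻¹, kT * x8 3 * kT⁻¹,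
  gT * x8 4 * gT⁻¹, gT * x8 5 * gT⁻¹, x8 6, x8 7]

def pTG : F8 →* F8 := mk8 ![x8 0, cC⁻¹ * x8 1, kT'⁻¹ * x8 2 * kT', kT'⁻¹ * x8 3 * kT',
  gT'⁻¹ * x8 4 * gT', gT'⁻¹ * x8 5 * gT', x8 6, x8 7]

theorem pTF_0 : pTF (x8 0) = x8 0 := mk8_of _ 0
theorem pTF_1 : pTF (x8 1) = gT * cC * gT⁻¹ * x8 1 := mk8_of _ 1
theorem pTF_2 : pTF (x8 2) = kT * x8 2 * kT⁻¹ := mk8_of _ 2
theorem pTF_3 : pTF (x8 3) = kT * x8 3 * kT⁻¹ := mk8_of _ 3
theorem pTF_4 : pTF (x8 4) = gT * x8 4 * gT⁻¹ := mk8_of _ 4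
theorem pTF_5 : pTF (x8 5) = gT * x8 5 * gT⁻¹ := mk8_of _ 5
theorem pTF_6 : pTF (x8 6) = x8 6 := mk8_of _ 6
theorem pTF_7 : pTF (x8 7) = x8 7 := mk8_of _ 7
theorem pTG_0 : pTG (x8 0) = x8 0 := mk8_of _ 0
theorem pTG_1 : pTG (x8 1) = cC⁻¹ * x8 1 := mk8_of _ 1
theorem pTG_2 : pTG (x8 2) = kT'⁻¹ * x8 2 * kT' := mk8_of _ 2
theorem pTG_3 : pTG (x8 3) = kT'⁻¹ * x8 3 * kT' := mk8_of _ 3
theorem pTG_4 : pTG (x8 4) = gT'⁻¹ * x8 4 * gT' := mk8_of _ 4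
theorem pTG_5 : pTG (x8 5) = gT'⁻¹ * x8 5 * gT' := mk8_of _ 5
theorem pTG_6 : pTG (x8 6) = x8 6 := mk8_of _ 6
theorem pTG_7 : pTG (x8 7) = x8 7 := mk8_of _ 7

theorem pTG_cC : pTG cC = gT'⁻¹ * cC * gT' := by
  simp only [cC, map_mul, map_inv, pTG_4, pTG_5]
  group

theorem pTG_gT : pTG gT = gT' := by
  rw [gT, map_mul, map_mul, map_inv, map_inv, pTG_0, pTG_1, gT', gT]
  group

theorem pTG_kT : pTG kT = kT' := by
  rw [kT, map_mul, map_mul, map_mul, map_inv, map_inv, pTG_cC, pTG_gT, kT']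
  group

theorem pTF_cC : pTF cC = gT * cC * gT⁻¹ := by
  simp only [cC, map_mul, map_inv, pTF_4, pTF_5]
  group

theorem pTF_gT : pTF gT = gT * cC * gT * cC⁻¹ * gT⁻¹ := by
  have h : pTF gT = (gT * cC * gT⁻¹ * x8 1) * (x8 0)⁻¹ * (gT * cC * gT⁻¹ * x8 1)⁻¹ := by
    conv_lhs => rw [gT]
    rw [map_mul, map_mul, map_inv, map_inv, pTF_0, pTF_1]
  have h2 : (gT * cC * gT⁻¹ * x8 1) * (x8 0)⁻¹ * (gT * cC * gT⁻¹ * x8 1)⁻¹
      = gT * cC * gT⁻¹ * (x8 1 * (x8 0)⁻¹ * (x8 1)⁻¹) * (gT * cC⁻¹ * gT⁻¹) := by group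
  rw [h, h2]
  change gT * cC * gT⁻¹ * gT * (gT * cC⁻¹ * gT⁻¹) = _
  group

theorem pTF_gT' : pTF gT' = gT := by
  rw [gT', map_mul, map_mul, map_inv, pTF_cC, pTF_gT]
  group

theorem pTF_kT' : pTF kT' = kT := by
  rw [kT', map_mul, map_mul, map_mul, map_inv, map_inv, pTF_cC, pTF_gT', kT]
  group

theorem pT_inv1 : pTG.comp pTF = MonoidHom.id _ := by
  apply hom_ext8
  intro i
  rw [MonoidHom.comp_apply, MonoidHom.id_apply]
  fin_cases i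
  · exact (congrArg pTG pTF_0).trans pTG_0
  · refine (congrArg pTG pTF_1).trans ?_
    rw [map_mul, map_mul, map_mul, map_inv, pTG_gT, pTG_cC, pTG_1]
    change _ = x8 1
    group
  · refine (congrArg pTG pTF_2).trans ?_
    rw [map_mul, map_mul, map_inv, pTG_kT, pTG_2]
    change _ = x8 2
    group
  · refine (congrArg pTG pTF_3).trans ?_
    rw [map_mul, map_mul, map_inv, pTG_kT, pTG_3]
    change _ = x8 3
    group
  · refine (congrArg pTG pTF_4).trans ?_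
    rw [map_mul, map_mul, map_inv, pTG_gT, pTG_4]
    change _ = x8 4
    group
  · refine (congrArg pTG pTF_5).trans ?_
    rw [map_mul, map_mul, map_inv, pTG_gT, pTG_5]
    change _ = x8 5
    group
  · exact (congrArg pTG pTF_6).trans pTG_6
  · exact (congrArg pTG pTF_7).trans pTG_7

theorem pT_inv2 : pTF.comp pTG = MonoidHom.id _ := by
  apply hom_ext8
  intro i
  rw [MonoidHom.comp_apply, MonoidHom.id_apply]
  fin_cases i
  · exact (congrArg pTF pTG_0).trans pTF_0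
  · refine (congrArg pTF pTG_1).trans ?_
    rw [map_mul, map_inv, pTF_cC, pTF_1]
    change _ = x8 1
    group
  · refine (congrArg pTF pTG_2).trans ?_
    rw [map_mul, map_mul, map_inv, pTF_kT', pTF_2]
    change _ = x8 2
    group
  · refine (congrArg pTF pTG_3).trans ?_
    rw [map_mul, map_mul, map_inv, pTF_kT', pTF_3]
    change _ = x8 3
    group
  · refine (congrArg pTF pTG_4).trans ?_
    rw [map_mul, map_mul, map_inv, pTF_gT', pTF_4]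
    change _ = x8 4
    group
  · refine (congrArg pTF pTG_5).trans ?_
    rw [map_mul, map_mul, map_inv, pTF_gT', pTF_5]
    change _ = x8 5
    group
  · exact (congrArg pTF pTG_6).trans pTF_6
  · exact (congrArg pTF pTG_7).trans pTF_7

def pT : F8 ≃* F8 := MonoidHom.toMulEquiv pTF pTG pT_inv1 pT_inv2

/-- the relator -/
def rel8 : F8 := (x8 0 * x8 1 * (x8 0)⁻¹ * (x8 1)⁻¹) * (x8 2 * x8 3 * (x8 2)⁻¹ * (x8 3)⁻¹) * cC * cE

theorem tau_rel : tau rel8 = rel8 := by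
  change tauF rel8 = rel8
  simp [tauF, mk8, rel8, cC, cE, mul_assoc]

theorem sig_rel : sig rel8 = rel8 := by
  change sigF rel8 = rel8
  simp [sigF, mk8, rel8, cC, cE, mul_assoc]

theorem pU_rel : pU rel8 = rel8 := by
  change pUF rel8 = rel8
  simp [pUF, mk8, rel8, cC, cE, gU, mul_assoc]

theorem pT_rel : pT rel8 = rel8 := by
  change pTF rel8 = rel8
  have hE : pTF cE = cE := by
    simp only [cE, map_mul, map_inv, pTF_6, pTF_7]
  have h : rel8 = (x8 0 * x8 1 * (x8 0)⁻¹ * (x8 1)⁻¹) * (x8 2 * x8 3 * (x8 2)⁻¹ * (x8 3)⁻¹)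
    * cC * cE := rfl
  rw [h, map_mul, map_mul, hE, pTF_cC]
  simp only [map_mul, map_inv, pTF_0, pTF_1, pTF_2, pTF_3]
  congr 1
  simp only [kT, gT, mul_inv_rev, inv_inv]
  group

end Pool.Agent.TH630.Tor
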