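import Pool.Agent.TH630.Tor.Ev2
import Pool.Agent.TH889.J794

/-!
Block decompositions and determinants of Laplacians.
-/

open scoped Matrix

noncomputable section

namespace Pool.Agent.TH630.Tor

open Pool.Agent.Helper993.FK Pool.Agent.TH889.J794

/-- splitting of the index set -/
def spl (F : Type) (s t : ℕ) : (Fin s × F) ⊕ (Fin t × F) ≃ Fin (s + t) × F :=
  (Equiv.sumProdDistrib (Fin s) (Fin t) F).symm.trans (finSumFinEquiv.prodCongr (Equiv.refl F))

theorem spl_inl (F : Type) (s t : ℕ) (p : Fin s × F) :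
    spl F s t (Sum.inl p) = (Fin.castAdd t p.1, p.2) := rfl

theorem spl_inr (F : Type) (s t : ℕ) (p : Fin t × F) :
    spl F s t (Sum.inr p) = (Fin.natAdd s p.1, p.2) := rfl

section
variable {Q F : Type} [Group Q] [Group F] [Fintype F] [DecidableEq F]
  (π : Q →* F) (κ : Q →* Multiplicative ℤ) {r s t : ℕ}

/-- the first columns -/
def colL (A : Matrix (Fin r) (Fin (s + t)) (MonoidAlgebra ℤ Q)) :
    Matrix (Fin r) (Fin s) (MonoidAlgebra ℤ Q) := A.submatrix id (Fin.castAdd t)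

/-- the last columns -/
def colR (A : Matrix (Fin r) (Fin (s + t)) (MonoidAlgebra ℤ Q)) :
    Matrix (Fin r) (Fin t) (MonoidAlgebra ℤ Q) := A.submatrix id (Fin.natAdd s)

/-- the first rows -/
def rowU (A : Matrix (Fin (s + t)) (Fin r) (MonoidAlgebra ℤ Q)) :
    Matrix (Fin s) (Fin r) (MonoidAlgebra ℤ Q) := A.submatrix (Fin.castAdd t) id

/-- the last rows -/
def rowD (A : Matrix (Fin (s + t)) (Fin r) (MonoidAlgebra ℤ Q)) :
    Matrix (Fin t) (Fin r) (MonoidAlgebra ℤ Q) := A.submatrix (Fin.natAdd s) id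

theorem ev_cols (z : ℂ) (A : Matrix (Fin r) (Fin (s + t)) (MonoidAlgebra ℤ Q)) :
    (ev π κ z A).submatrix id (spl F s t)
      = Matrix.fromCols (ev π κ z (colL A)) (ev π κ z (colR A)) := by
  ext p q
  rcases q with q | q <;> rfl

theorem ev_rows (z : ℂ) (A : Matrix (Fin (s + t)) (Fin r) (MonoidAlgebra ℤ Q)) :
    (ev π κ z A).submatrix (spl F s t) id
      = Matrix.fromRows (ev π κ z (rowU A)) (ev π κ z (rowD A)) := by
  ext p q
  rcases p with p | p <;> rfl

/-- Acyclic complexes of length two. -/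
theorem two_blocks {z : ℂ} (hz : ‖z‖ = 1) (A1 : Matrix (Fin s) (Fin (s + t)) (MonoidAlgebra ℤ Q))
    (A0 : Matrix (Fin (s + t)) (Fin t) (MonoidAlgebra ℤ Q)) (h : A1 * A0 = 0) :
    ‖(ev π κ z (A1 * adjZ A1)).det‖ * ‖(ev π κ z (rowD A0)).det‖ ^ 2
      = ‖(ev π κ z (colL A1)).det‖ ^ 2 * ‖(ev π κ z (adjZ A0 * A0)).det‖ ∧
    ‖(ev π κ z (adjZ A1 * A1 + A0 * adjZ A0)).det‖
      = ‖(ev π κ z (A1 * adjZ A1)).det‖ * ‖(ev π κ z (adjZ A0 * A0)).det‖ ∧
    ((ev π κ z (rowD A0)).det ≠ 0 → (ev π κ z (adjZ A0 * A0)).det ≠ 0) ∧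
    ((ev π κ z (colL A1)).det ≠ 0 → (ev π κ z (A1 * adjZ A1)).det ≠ 0) := by
  set P := ev π κ z (colL A1)
  set R := ev π κ z (colR A1)
  set X := ev π κ z (rowU A0)
  set Y := ev π κ z (rowD A0)
  have hA1 := ev_cols π κ z A1
  have hA0 := ev_rows π κ z A0
  have e1 : ev π κ z (A1 * adjZ A1) = P * Pᴴ + R * Rᴴ := by
    rw [ev_mul, ev_adjZ π κ hz]
    have h1 := Matrix.submatrix_mul_equiv (ev π κ z A1) (ev π κ z A1)ᴴ id (spl F s t) id
    rw [Matrix.submatrix_id_id] at h1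
    rw [← h1, ← Matrix.conjTranspose_submatrix, hA1, Matrix.conjTranspose_fromCols_eq_fromRows_conjTranspose,
      Matrix.fromCols_mul_fromRows]
  have e0 : ev π κ z (adjZ A0 * A0) = Xᴴ * X + Yᴴ * Y := by
    rw [ev_mul, ev_adjZ π κ hz]
    have h1 := Matrix.submatrix_mul_equiv (ev π κ z A0)ᴴ (ev π κ z A0) id (spl F s t) id
    rw [Matrix.submatrix_id_id] at h1
    rw [← h1, ← Matrix.conjTranspose_submatrix, hA0, Matrix.conjTranspose_fromRows_eq_fromCols_conjTranspose,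
      Matrix.fromCols_mul_fromRows]
  have hPR : P * X + R * Y = 0 := by
    have h1 := Matrix.submatrix_mul_equiv (ev π κ z A1) (ev π κ z A0) id (spl F s t) id
    rw [Matrix.submatrix_id_id, ← ev_mul, h, ev_zero, hA1, hA0, Matrix.fromCols_mul_fromRows] at h1
    exact h1
  have em : (ev π κ z (adjZ A1 * A1 + A0 * adjZ A0)).det
      = ((Matrix.fromCols P R)ᴴ * Matrix.fromCols P R
      + Matrix.fromRows X Y * (Matrix.fromRows X Y)ᴴ).det := by
    rw [← Matrix.det_submatrix_equiv_self (spl F s t)]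
    congr 1
    rw [ev_add, ev_mul, ev_mul, ev_adjZ π κ hz, ev_adjZ π κ hz, ← hA1, ← hA0,
      Matrix.conjTranspose_submatrix, Matrix.conjTranspose_submatrix]
    ext p q
    simp only [Matrix.submatrix_apply, Matrix.add_apply, Matrix.mul_apply, id]
  obtain ⟨k1, k2⟩ := length_two P R X Y hPR
  rw [e1, e0, em]
  refine ⟨?_, ?_, fun hY => det_ne_zero_of_right X Y hY, fun hP => det_ne_zero_of_left P R hP⟩
  · have := congrArg norm k1
    rw [norm_mul, norm_mul, norm_mul, norm_mul, norm_star, norm_star] at this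
    rw [sq, sq, this]
  · rw [k2, norm_mul]

/-- the other splitting -/
def spl' (F : Type) (s t : ℕ) : (Fin t × F) ⊕ (Fin s × F) ≃ Fin (s + t) × F :=
  (Equiv.sumComm _ _).trans (spl F s t)

/-- Mapping torus type complexes. -/
theorem three_blocks {z : ℂ} (hz : ‖z‖ = 1)
    (A2 : Matrix (Fin t) (Fin (s + t)) (MonoidAlgebra ℤ Q))
    (A1 : Matrix (Fin (s + t)) (Fin (s + t)) (MonoidAlgebra ℤ Q))
    (A0 : Matrix (Fin (s + t)) (Fin t) (MonoidAlgebra ℤ Q)) (h2 : A2 * A1 = 0)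
    (h1 : A1 * A0 = 0) :
    ‖(ev π κ z (A2 * adjZ A2)).det‖ * ‖(ev π κ z (adjZ A0 * A0)).det‖
        * ‖(ev π κ z (colL (rowU A1))).det‖ ^ 2
        * ‖(ev π κ z (A2 * adjZ A2)).det‖ * ‖(ev π κ z (adjZ A0 * A0)).det‖
      = ‖(ev π κ z (adjZ A2 * A2 + A1 * adjZ A1)).det‖ * ‖(ev π κ z (adjZ A0 * A0)).det‖
        * ‖(ev π κ z (rowD A0)).det‖ ^ 2 * ‖(ev π κ z (colR A2)).det‖ ^ 2 ∧
    ‖(ev π κ z (adjZ A1 * A1 + A0 * adjZ A0)).det‖ * ‖(ev π κ z (A2 * adjZ A2)).det‖
      = ‖(ev π κ z (adjZ A0 * A0)).det‖ * ‖(ev π κ z (adjZ A2 * A2 + A1 * adjZ A1)).det‖ ∧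
    ((ev π κ z (rowD A0)).det ≠ 0 → (ev π κ z (adjZ A0 * A0)).det ≠ 0) ∧
    ((ev π κ z (colR A2)).det ≠ 0 → (ev π κ z (A2 * adjZ A2)).det ≠ 0) := by
  set G2 := ev π κ z (colR A2)
  set Z := ev π κ z (colL A2)
  set W := ev π κ z (colL (rowD A1))
  set R := ev π κ z (colR (rowD A1))
  set G1 := ev π κ z (colL (rowU A1))
  set S := ev π κ z (colR (rowU A1))
  set X := ev π κ z (rowU A0)
  set G0 := ev π κ z (rowD A0)
  have hA2 : (ev π κ z A2).submatrix id (spl' F s t) = Matrix.fromCols G2 Z := by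
    ext p q
    rcases q with q | q <;> rfl
  have hA1 : (ev π κ z A1).submatrix (spl' F s t) (spl F s t) = Matrix.fromBlocks W R G1 S := by
    ext p q
    rcases p with p | p <;> rcases q with q | q <;> rfl
  have hA0 : (ev π κ z A0).submatrix (spl F s t) id = Matrix.fromRows X G0 := ev_rows π κ z A0
  have e3 : ev π κ z (A2 * adjZ A2) = Matrix.fromCols G2 Z * (Matrix.fromCols G2 Z)ᴴ := by
    rw [ev_mul, ev_adjZ π κ hz]
    have h1 := Matrix.submatrix_mul_equiv (ev π κ z A2) (ev π κ z A2)ᴴ id (spl' F s t) id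
    rw [Matrix.submatrix_id_id] at h1
    rw [← h1, ← Matrix.conjTranspose_submatrix, hA2]
  have e0 : ev π κ z (adjZ A0 * A0) = (Matrix.fromRows X G0)ᴴ * Matrix.fromRows X G0 := by
    rw [ev_mul, ev_adjZ π κ hz]
    have h1 := Matrix.submatrix_mul_equiv (ev π κ z A0)ᴴ (ev π κ z A0) id (spl F s t) id
    rw [Matrix.submatrix_id_id] at h1
    rw [← h1, ← Matrix.conjTranspose_submatrix, hA0]
  have h32 : Matrix.fromCols G2 Z * Matrix.fromBlocks W R G1 S = 0 := by
    have h1 := Matrix.submatrix_mul_equiv (ev π κ z A2) (ev π κ z A1) id (spl' F s t) (spl F s t)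
    rw [← ev_mul, h2, ev_zero, hA1, hA2] at h1
    exact h1
  have h21 : Matrix.fromBlocks W R G1 S * Matrix.fromRows X G0 = 0 := by
    have h3 := Matrix.submatrix_mul_equiv (ev π κ z A1) (ev π κ z A0) (spl' F s t) (spl F s t) id
    rw [← ev_mul, h1, ev_zero, hA1, hA0] at h3
    exact h3
  have em2 : (ev π κ z (adjZ A2 * A2 + A1 * adjZ A1)).det
      = (Matrix.fromBlocks W R G1 S * (Matrix.fromBlocks W R G1 S)ᴴ
          + (Matrix.fromCols G2 Z)ᴴ * Matrix.fromCols G2 Z).det := by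
    rw [← Matrix.det_submatrix_equiv_self (spl' F s t)]
    congr 1
    rw [ev_add, ev_mul, ev_mul, ev_adjZ π κ hz, ev_adjZ π κ hz, ← hA1, ← hA2,
      Matrix.conjTranspose_submatrix, Matrix.conjTranspose_submatrix,
      Matrix.submatrix_mul_equiv]
    ext p q
    simp only [Matrix.submatrix_apply, Matrix.add_apply, Matrix.mul_apply, id]
    exact add_comm _ _
  have em1 : (ev π κ z (adjZ A1 * A1 + A0 * adjZ A0)).det
      = ((Matrix.fromBlocks W R G1 S)ᴴ * Matrix.fromBlocks W R G1 S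
          + Matrix.fromRows X G0 * (Matrix.fromRows X G0)ᴴ).det := by
    rw [← Matrix.det_submatrix_equiv_self (spl F s t)]
    congr 1
    rw [ev_add, ev_mul, ev_mul, ev_adjZ π κ hz, ev_adjZ π κ hz, ← hA1, ← hA0,
      Matrix.conjTranspose_submatrix, Matrix.conjTranspose_submatrix,
      Matrix.submatrix_mul_equiv]
    ext p q
    simp only [Matrix.submatrix_apply, Matrix.add_apply, Matrix.mul_apply, id]
  obtain ⟨k1, k2⟩ := length_three G2 Z W R G1 S X G0 h32 h21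
  rw [e3, e0, em1, em2]
  refine ⟨?_, ?_, ?_, ?_⟩
  · have := congrArg norm k1
    simp only [norm_mul, norm_star] at this
    rw [sq, sq, sq]
    linarith
  · have := congrArg norm k2
    simpa only [norm_mul] using this
  · intro hG
    have := det_ne_zero_of_right X G0 hG
    rwa [Matrix.conjTranspose_fromRows_eq_fromCols_conjTranspose, Matrix.fromCols_mul_fromRows]
  · intro hG
    have := det_ne_zero_of_left G2 Z hG
    rwa [Matrix.conjTranspose_fromCols_eq_fromRows_conjTranspose, Matrix.fromCols_mul_fromRows]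

end

end Pool.Agent.TH630.Tor
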