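import Pool.Agent.Helper993.DeltaDef

/-!
# `L²`-torsion of based free chain complexes, and mapping tori of surfaces: definitions
-/

open scoped InnerProductSpace

noncomputable section

namespace Pool.Agent.TH630.Tor

open Pool.Agent.Helper993

/-- A finite based free chain complex of left modules over the integral group ring of `G`
(chains are row vectors), for instance the cellular chain complex of a free `G`-space with
finitely many orbits of cells. -/
structure FreeCx (G : Type) [Group G] where
  /-- the number of orbits of `n`-cells -/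
  rank : ℕ → ℕ
  /-- a bound for the dimension -/
  dim : ℕ
  rank_eq_zero : ∀ n, dim < n → rank n = 0
  /-- the boundary matrix `C_{n+1} → C_n` -/
  d : ∀ n, Matrix (Fin (rank (n + 1))) (Fin (rank n)) (MonoidAlgebra ℤ G)
  d_comp_d : ∀ n, d (n + 1) * d n = 0

namespace FreeCx

variable {G : Type} [Group G] (C : FreeCx G)

/-- The boundary operator `ℓ²(G) ⊗ C_{n+1} → ℓ²(G) ⊗ C_n`. -/
def l2d (n : ℕ) : FK.L2Pow G (C.rank (n + 1)) →L[ℂ] FK.L2Pow G (C.rank n) :=
  FK.rMul ((C.d n).map (MonoidAlgebra.mapRingHom G (Int.castRingHom ℚ)))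

/-- The combinatorial Laplacian `∂_{n+1} ∂_{n+1}* + ∂_n* ∂_n`. -/
def laplacian : ∀ n, FK.L2Pow G (C.rank n) →L[ℂ] FK.L2Pow G (C.rank n)
  | 0 => Delta.oneWay (C.l2d 0)
  | n + 1 => Delta.bothWays (C.l2d n) (C.l2d (n + 1))

/-- The `L²`-Betti number: the von Neumann dimension of the kernel of the Laplacian. -/
def l2betti (n : ℕ) : ℝ := Delta.dimKer (C.laplacian n)

/-- All `L²`-Betti numbers vanish and all Laplacians have positive Fuglede-Kadison determinant. -/
def DetL2Acyclic : Prop :=
  ∀ n, C.l2betti n = 0 ∧ 0 < FK.fkDet (C.laplacian n)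

/-- The `L²`-torsion. -/
def l2torsion : ℝ :=
  -(1 / 2) * ∑ n ∈ Finset.range (C.dim + 1), (-1) ^ n * n * Real.log (FK.fkDet (C.laplacian n))

/-- The quotient complex over the group `G ⧸ N`: the chain complex of the quotient space by `N`. -/
def quot (N : Subgroup G) [N.Normal] : FreeCx (G ⧸ N) where
  rank := C.rank
  dim := C.dim
  rank_eq_zero := C.rank_eq_zero
  d n := (C.d n).map (MonoidAlgebra.mapDomainRingHom ℤ (QuotientGroup.mk' N))
  d_comp_d n := by
    rw [← Matrix.map_mul, C.d_comp_d]
    exact Matrix.map_zero _ (map_zero _)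

end FreeCx

section fox
variable {α G : Type} [DecidableEq α] [Group G]

/-- The Fox derivative with respect to `x` of a word, evaluated in the group ring of `G` through
`lab`: the letter `y` contributes `1` if `y = x`, the letter `y⁻¹` contributes `-y⁻¹` if `y = x`, and
each contribution is multiplied by the preceding part of the word. -/
def foxWord (lab : α → G) (x : α) : List (α × Bool) → MonoidAlgebra ℤ G
  | [] => 0
  | (y, true) :: w => (if y = x then 1 else 0) + MonoidAlgebra.single (lab y) 1 * foxWord lab x w
  | (y, false) :: w => (if y = x then -MonoidAlgebra.single (lab y)⁻¹ 1 else 0)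
      + MonoidAlgebra.single (lab y)⁻¹ 1 * foxWord lab x w

/-- The Fox derivative of an element `w` of a free group, evaluated through a homomorphism. -/
def fox (φ : FreeGroup α →* G) (x : α) (w : FreeGroup α) : MonoidAlgebra ℤ G :=
  foxWord (fun y => φ (FreeGroup.of y)) x w.toWord

end fox

/-- The commutator `x y x⁻¹ y⁻¹`. -/
def comm {G : Type} [Group G] (x y : G) : G := x * y * x⁻¹ * y⁻¹

/-- The relator `[x_0, x_1] [x_2, x_3] ⋯ [x_{2g-2}, x_{2g-1}]` of the fundamental group of the
closed oriented surface of genus `g`. -/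
def surfaceRel (g : ℕ) : FreeGroup (Fin (2 * g)) :=
  (List.ofFn fun i : Fin g => comm (FreeGroup.of (⟨2 * i, by omega⟩ : Fin (2 * g)))
    (FreeGroup.of (⟨2 * i + 1, by omega⟩ : Fin (2 * g)))).prod

end Pool.Agent.TH630.Tor
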