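import Pool.Agent.TH630.Tor.FiveData

/-!
Determinants of evaluations, circle averages, and the levels of the chain in `Heis × ℤ`.
-/

open scoped Matrix

noncomputable section

namespace Pool.Agent.TH630.Tor

open Pool.Agent.Helper993.FK Pool.Agent.Helper993.HeisDet

theorem circleAverage_congr_finite {f g : ℂ → ℝ} (S : Set ℂ) (hS : S.Finite)
    (h : ∀ z, ‖z‖ = 1 → z ∉ S → f z = g z) :
    Real.circleAverage f 0 1 = Real.circleAverage g 0 1 := by
  apply Real.circleAverage_congr_codiscreteWithin _ one_ne_zero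
  have h1 := compl_finite_mem_codiscreteWithin (s := Metric.sphere (0 : ℂ) |1|) hS
  have h2 := Filter.self_mem_codiscreteWithin (Metric.sphere (0 : ℂ) |1|)
  filter_upwards [h1, h2] with z hz1 hz2
  exact h z (by simpa using hz2) hz1

theorem circleAverage_log_sub_one : Real.circleAverage (fun z : ℂ => Real.log ‖z - 1‖) 0 1 = 0 :=
  circleAverage_log_norm_sub_const₁ (by simp)

section
variable {Q F : Type} [Group Q] [Group F] [Fintype F] [DecidableEq F]
  (π : Q →* F) (κ : Q →* Multiplicative ℤ)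

theorem det_ev_diagonal (z : ℂ) {r : ℕ} (v : Fin r → MonoidAlgebra ℤ Q) :
    (ev π κ z (Matrix.diagonal v)).det = ∏ i, (e1 π κ z (v i)).det := by
  rw [← Matrix.det_blockDiagonal, ← Matrix.det_submatrix_equiv_self (Equiv.prodComm F (Fin r))]
  congr 1
  ext ⟨x, i⟩ ⟨y, j⟩
  rw [Matrix.blockDiagonal_apply, Matrix.submatrix_apply, ev_apply]
  simp only [Equiv.prodComm_apply, Prod.swap_prod_mk, Matrix.diagonal_apply]
  by_cases h : i = j
  · rw [if_pos h, if_pos h]
  · rw [if_neg h, if_neg h, e1_zero]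
    rfl

end

/-- the finite quotients of the Heisenberg group -/
abbrev FQ (i : ℕ) : Type := Heis ℤ ⧸ chain i

instance (i : ℕ) : Fintype (FQ i) := Fintype.ofFinite _
instance (i : ℕ) : DecidableEq (FQ i) := Classical.decEq _

/-- the projection to the finite quotient -/
def prF (i : ℕ) : HZ →* FQ i := (QuotientGroup.mk' (chain i)).comp (MonoidHom.fst _ _)

/-- the projection to `ℤ` -/
def prZ : HZ →* Multiplicative ℤ := MonoidHom.snd _ _

theorem e1_sm1 (i : ℕ) {z : ℂ} (hz : z ≠ 0) :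
    e1 (prF i) prZ z sm1 = (z - 1) • (1 : Matrix (FQ i) (FQ i) ℂ) := by
  unfold sm1
  rw [e1_sub, e1_one, e1_single _ _ hz]
  simp only [prF, prZ, MonoidHom.comp_apply, MonoidHom.coe_fst, MonoidHom.coe_snd, map_one,
    regM_one, toAdd_ofAdd, zpow_one, Int.cast_one, one_mul]
  rw [sub_smul, one_smul]

theorem det_sm1 (i : ℕ) {z : ℂ} (hz : z ≠ 0) :
    (e1 (prF i) prZ z sm1).det = (z - 1) ^ (Fintype.card (FQ i)) := by
  rw [e1_sm1 i hz, Matrix.det_smul, Matrix.det_one, mul_one]

theorem gmat_eq (K : Subgroup (Heis ℤ)) [K.Normal] [DecidableEq (Heis ℤ ⧸ K)] (c : ℂ) :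
    gmat (MonoidAlgebra.mapDomain (QuotientGroup.mk' K) (elt ℂ c))
      = 1 + c • regM ℂ (QuotientGroup.mk' K tt) - c • regM ℂ (QuotientGroup.mk' K (uu * tt)) := by
  ext g h
  simp only [gmat, Matrix.of_apply, elt_coeff, Matrix.sub_apply, Matrix.add_apply,
    Matrix.smul_apply, regM, Matrix.one_apply, smul_eq_mul, inv_mul_eq_iff_eq_mul, mul_one]
  have e : ∀ (p q : Prop) [Decidable p] [Decidable q] (_ : p ↔ q) (w : ℂ),
      (if p then w else 0) = w * (if q then 1 else 0) := by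
    intro p q _ _ hpq w
    by_cases hp : p
    · simp [hp, hpq.mp hp]
    · have : ¬ q := fun hq => hp (hpq.mpr hq)
      simp [hp, this]
  rw [e (h = g) (g = h) eq_comm 1, one_mul]
  congr 1
  · congr 1
    exact e _ _ Iff.rfl c
  · exact e _ _ Iff.rfl c

theorem e1_elA (i : ℕ) {z : ℂ} (hz : z ≠ 0) : e1 (prF i) prZ z elA
    = gmat (MonoidAlgebra.mapDomain (QuotientGroup.mk' (chain i)) (elt ℂ ((10 : ℕ) : ℂ))) := by
  unfold elA
  rw [e1_sub, e1_add, e1_single _ _ hz, e1_single _ _ hz, e1_single _ _ hz, gmat_eq]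
  simp only [prF, prZ, MonoidHom.comp_apply, MonoidHom.coe_fst, MonoidHom.coe_snd, map_one,
    regM_one, toAdd_one, zpow_zero, Int.cast_one, one_mul, mul_one, Prod.fst_one, Prod.snd_one,
    one_smul, Int.cast_ofNat, Nat.cast_ofNat]

theorem det_elA (i : ℕ) {z : ℂ} (hz : z ≠ 0) : (e1 (prF i) prZ z elA).det = Dseq i := by
  rw [e1_elA i hz, det_chain]

end Pool.Agent.TH630.Tor
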