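import Pool.Agent.TH630.Tor.Jac2
import Pool.Agent.TH630.Tor.DetEv
import Pool.Agent.TH304.J893

/-!
The determinant of `s J - 1`.
-/

open scoped Matrix

noncomputable section

namespace Pool.Agent.TH630.Tor

open Pool.Agent.Helper993.FK Pool.Agent.Helper993.HeisDet Pool.Agent.TH304.J893

/-- `s` -/
def sg : MonoidAlgebra ℤ HZ := MonoidAlgebra.single (1, Multiplicative.ofAdd 1) 1

/-- `s J - 1` -/
def Bm : Matrix (Fin (4 + 4)) (Fin (4 + 4)) (MonoidAlgebra ℤ HZ) :=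
  Matrix.of fun j k => sg * JacA f8 j k - (if j = k then 1 else 0)

/-- the lower block -/
def B4 : Matrix (Fin 4) (Fin 4) (MonoidAlgebra ℤ HZ) :=
  !![sg * ww - 1, 0, sg, 0; 0, -1, 0, sg; sg, 0, -1, 0; 0, sg, 0, -(sg * ww') - 1]

theorem MabPsig (a b : MonoidAlgebra ℤ HZ) (j k : Fin 8) : (Mab a b * Psig) j k
    = Psig j k + (if j = 4 then a * dl 4 k else 0) + (if j = 7 then b * dl 7 k else 0) := by
  unfold Mab
  rw [add_mul, add_mul, one_mul, Matrix.add_apply, Matrix.add_apply]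
  congr 1
  · congr 1
    by_cases h : j = 4
    · subst h
      rw [Matrix.single_mul_apply_same, if_pos rfl]
      rfl
    · rw [Matrix.single_mul_apply_of_ne _ _ _ _ _ h, if_neg h]
  · by_cases h : j = 7
    · subst h
      rw [Matrix.single_mul_apply_same, if_pos rfl]
      rfl
    · rw [Matrix.single_mul_apply_of_ne _ _ _ _ _ h, if_neg h]

theorem Bm_apply (j k : Fin 8) : Bm j k = sg * (Psig j k + (if j = 4 then ww * dl 4 k else 0)
    + (if j = 7 then (-ww') * dl 7 k else 0)) - (if j = k then 1 else 0) := by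
  rw [← MabPsig, ← JacA_f8]
  rfl

theorem Bm_ul : colL (rowU Bm) = Matrix.diagonal ![sm1, sm1, sm1, sm1] := by
  ext1 j k
  have h : colL (rowU Bm) j k = Bm (Fin.castAdd 4 j) (Fin.castAdd 4 k) := rfl
  rw [h, Bm_apply]
  fin_cases j <;> fin_cases k <;> simp [Psig, dl, sm1, sg]

theorem Bm_ur : colR (rowU Bm) = 0 := by
  ext1 j k
  have h : colR (rowU Bm) j k = Bm (Fin.castAdd 4 j) (Fin.natAdd 4 k) := rfl
  rw [h, Bm_apply]
  fin_cases j <;> fin_cases k <;> simp [Psig, dl]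

theorem Bm_dl : colL (rowD Bm) = 0 := by
  ext1 j k
  have h : colL (rowD Bm) j k = Bm (Fin.natAdd 4 j) (Fin.castAdd 4 k) := rfl
  rw [h, Bm_apply]
  fin_cases j <;> fin_cases k <;> simp [Psig, dl]

theorem Bm_dr : colR (rowD Bm) = B4 := by
  ext1 j k
  have h : colR (rowD Bm) j k = Bm (Fin.natAdd 4 j) (Fin.natAdd 4 k) := rfl
  rw [h, Bm_apply]
  fin_cases j <;> fin_cases k <;> simp [Psig, dl, B4]

/-- elementary matrices -/
def U1 : Matrix (Fin 4) (Fin 4) (MonoidAlgebra ℤ HZ) :=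
  (1 + Matrix.single 0 2 sg) * (1 + Matrix.single 3 1 sg)

def U2 : Matrix (Fin 4) (Fin 4) (MonoidAlgebra ℤ HZ) :=
  (1 + Matrix.single 2 0 sg) * (1 + Matrix.single 1 3 sg)

theorem U1_eq : U1 = !![1, 0, sg, 0; 0, 1, 0, 0; 0, 0, 1, 0; 0, sg, 0, 1] := by
  unfold U1
  rw [mul_add, mul_one, add_mul, one_mul, Matrix.single_mul_single_of_ne _ _ _ _ (by decide)]
  ext1 j k
  fin_cases j <;> fin_cases k <;> simp [Matrix.one_apply, Matrix.single_apply]

theorem U2_eq : U2 = !![1, 0, 0, 0; 0, 1, 0, sg; sg, 0, 1, 0; 0, 0, 0, 1] := by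
  unfold U2
  rw [mul_add, mul_one, add_mul, one_mul, Matrix.single_mul_single_of_ne _ _ _ _ (by decide)]
  ext1 j k
  fin_cases j <;> fin_cases k <;> simp [Matrix.one_apply, Matrix.single_apply]

theorem factor : U1 * B4 * U2
    = Matrix.diagonal ![sg * sg + sg * ww - 1, -1, -1, sg * sg - sg * ww' - 1] := by
  rw [U1_eq, U2_eq, B4]
  ext1 j k
  fin_cases j <;> fin_cases k <;>
    simp [Matrix.mul_apply, Fin.sum_univ_four, Matrix.diagonal] <;> abel

section
variable {Q F : Type} [Group Q] [Group F] [Fintype F] [DecidableEq F]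
  (π : Q →* F) (κ : Q →* Multiplicative ℤ)

theorem ev_one (z : ℂ) {r : ℕ} : ev π κ z (1 : Matrix (Fin r) (Fin r) (MonoidAlgebra ℤ Q)) = 1 := by
  ext ⟨i, x⟩ ⟨j, y⟩
  rw [ev_apply]
  by_cases h : i = j
  · subst h
    rw [Matrix.one_apply_eq, e1_one, Matrix.one_apply, Matrix.one_apply]
    simp
  · rw [Matrix.one_apply_ne h, e1_zero, Matrix.one_apply, if_neg (by simp [h])]
    rfl

theorem det_ev_transv (z : ℂ) {r : ℕ} {i j : Fin r} (hij : i ≠ j) (a : MonoidAlgebra ℤ Q) :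
    (ev π κ z (1 + Matrix.single i j a)).det = 1 := by
  let P : Matrix (Fin r × F) F ℂ := Matrix.of fun p y => if p.1 = i then e1 π κ z a p.2 y else 0
  let R : Matrix F (Fin r × F) ℂ := Matrix.of fun x q => if q.1 = j ∧ x = q.2 then 1 else 0
  have h1 : ev π κ z (Matrix.single i j a) = P * R := by
    ext ⟨k, x⟩ ⟨l, y⟩
    rw [ev_apply, Matrix.mul_apply]
    simp only [P, R, Matrix.of_apply, Matrix.single_apply]
    by_cases hk : k = i
    · by_cases hl : l = j
      · subst hk; subst hl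
        simp
      · rw [if_neg (by rintro ⟨-, h⟩; exact hl h.symm), e1_zero]
        simp [hl]
    · rw [if_neg (by rintro ⟨h, -⟩; exact hk h.symm), e1_zero]
      simp [hk]
  have h2 : R * P = 0 := by
    ext x y
    rw [Matrix.mul_apply]
    apply Finset.sum_eq_zero
    rintro ⟨k, w⟩ -
    simp only [P, R, Matrix.of_apply]
    by_cases hk : k = i
    · subst hk
      simp [hij]
    · simp [hk]
  rw [ev_add, ev_one, h1, Matrix.det_one_add_mul_comm, h2, add_zero, Matrix.det_one]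

theorem det_ev_blocks (z : ℂ) {s t : ℕ} (A : Matrix (Fin (s + t)) (Fin (s + t)) (MonoidAlgebra ℤ Q))
    (h1 : colR (rowU A) = 0) :
    (ev π κ z A).det = (ev π κ z (colL (rowU A))).det * (ev π κ z (colR (rowD A))).det := by
  rw [← Matrix.det_submatrix_equiv_self (spl F s t)]
  have e : (ev π κ z A).submatrix (spl F s t) (spl F s t)
      = Matrix.fromBlocks (ev π κ z (colL (rowU A))) (ev π κ z (colR (rowU A)))
        (ev π κ z (colL (rowD A))) (ev π κ z (colR (rowD A))) := by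
    ext p q
    rcases p with p | p <;> rcases q with q | q <;> rfl
  rw [e, h1, ev_zero, Matrix.det_fromBlocks_zero₁₂]

end

theorem det_Bm (i : ℕ) {z : ℂ} (hz : z ≠ 0) : ‖(ev (prF i) prZ z Bm).det‖
    = ‖z - 1‖ ^ (4 * Fintype.card (FQ i)) * ‖(e1 (prF i) prZ z (sg * sg + sg * ww - 1)).det‖
      * ‖(e1 (prF i) prZ z (sg * sg - sg * ww' - 1)).det‖ := by
  rw [det_ev_blocks _ _ _ _ Bm_ur, Bm_ul, Bm_dr, det_ev_diagonal, Fin.prod_univ_four]
  have h4 : (ev (prF i) prZ z B4).det = (e1 (prF i) prZ z (sg * sg + sg * ww - 1)).det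
      * (e1 (prF i) prZ z (-1)).det * (e1 (prF i) prZ z (-1)).det
      * (e1 (prF i) prZ z (sg * sg - sg * ww' - 1)).det := by
    have h : (ev (prF i) prZ z (U1 * B4 * U2)).det = (ev (prF i) prZ z (Matrix.diagonal
      ![sg * sg + sg * ww - 1, -1, -1, sg * sg - sg * ww' - 1])).det := by rw [factor]
    rw [ev_mul, ev_mul, Matrix.det_mul, Matrix.det_mul, U1, U2, ev_mul, ev_mul, Matrix.det_mul,
      Matrix.det_mul, det_ev_transv _ _ _ (by decide), det_ev_transv _ _ _ (by decide),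
      det_ev_transv _ _ _ (by decide), det_ev_transv _ _ _ (by decide), det_ev_diagonal,
      Fin.prod_univ_four, one_mul, mul_one, one_mul] at h
    exact h
  have h5 : ‖(e1 (prF i) prZ z (-1)).det‖ = 1 := by
    rw [e1_neg, e1_one, Matrix.det_neg, Matrix.det_one, mul_one, norm_pow, norm_neg, norm_one,
      one_pow]
  rw [h4]
  change ‖(e1 (prF i) prZ z sm1).det * (e1 (prF i) prZ z sm1).det * (e1 (prF i) prZ z sm1).det
    * (e1 (prF i) prZ z sm1).det * _‖ = _
  rw [det_sm1 i hz]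
  simp only [norm_mul, h5, norm_pow, mul_one]
  ring

theorem e1_nat {Q F : Type} [Group Q] [Group F] [Fintype F] [DecidableEq F]
    (π : Q →* F) (κ : Q →* Multiplicative ℤ) (z : ℂ) (n : ℕ) (a : MonoidAlgebra ℤ Q) :
    e1 π κ z ((n : MonoidAlgebra ℤ Q) * a) = (n : ℂ) • e1 π κ z a := by
  induction n with
  | zero => simp [e1_zero]
  | succ n ih =>
    rw [Nat.cast_succ, Nat.cast_succ, add_mul, one_mul, e1_add, ih, add_smul, one_smul]

theorem e1_sg (i : ℕ) {z : ℂ} (hz : z ≠ 0) :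
    e1 (prF i) prZ z sg = z • (1 : Matrix (FQ i) (FQ i) ℂ) := by
  unfold sg
  rw [e1_single _ _ hz]
  simp only [prF, prZ, MonoidHom.comp_apply, MonoidHom.coe_fst, MonoidHom.coe_snd, map_one,
    regM_one, toAdd_ofAdd, zpow_one, Int.cast_one, one_mul]

theorem e1_heis (i : ℕ) {z : ℂ} (hz : z ≠ 0) (h : Heis ℤ) :
    e1 (prF i) prZ z (MonoidAlgebra.single (h, 1) 1)
      = regM ℂ (QuotientGroup.mk' (chain i) h) := by
  rw [e1_single _ _ hz]
  simp only [prF, prZ, MonoidHom.comp_apply, MonoidHom.coe_fst, MonoidHom.coe_snd,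
    toAdd_one, zpow_zero, Int.cast_one, one_mul, one_smul]

/-- the two factors -/
theorem e1_factor (i : ℕ) {z : ℂ} (hz : z ≠ 0) : e1 (prF i) prZ z (sg * sg + sg * ww - 1)
    = (z ^ 2 - 1) • (1 : Matrix (FQ i) (FQ i) ℂ)
      - (z * (-16)) • (regM ℂ (QuotientGroup.mk' (chain i) tt)
        - regM ℂ (QuotientGroup.mk' (chain i) (uu * tt))) := by
  have h1 : e1 (prF i) prZ z ww = (16 : ℂ) • (regM ℂ (QuotientGroup.mk' (chain i) tt)
        - regM ℂ (QuotientGroup.mk' (chain i) (uu * tt))) := by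
    have := e1_nat (prF i) prZ z 16 (eT - eU * eT)
    unfold ww
    refine this.trans ?_
    rw [e1_sub, e1_mul, eT, eU, e1_heis i hz, e1_heis i hz, ← regM_mul, ← map_mul]
    norm_num
  rw [e1_sub, e1_add, e1_mul, e1_mul, e1_one, e1_sg i hz, h1]
  simp only [smul_mul_assoc, one_mul, smul_smul]
  rw [sub_smul, one_smul, mul_neg, neg_smul, sub_neg_eq_add, sq]
  abel

theorem e1_factor' (i : ℕ) {z : ℂ} (hz : z ≠ 0) : e1 (prF i) prZ z (sg * sg - sg * ww' - 1)
    = (z ^ 2 - 1) • (1 : Matrix (FQ i) (FQ i) ℂ)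
      - (z * 16) • (regM ℂ (QuotientGroup.mk' (chain i) tt⁻¹)
        - regM ℂ (QuotientGroup.mk' (chain i) (uu * tt)⁻¹)) := by
  have h1 : e1 (prF i) prZ z ww' = (16 : ℂ) • (regM ℂ (QuotientGroup.mk' (chain i) tt⁻¹)
        - regM ℂ (QuotientGroup.mk' (chain i) (uu * tt)⁻¹)) := by
    have := e1_nat (prF i) prZ z 16 (eT' - eT' * eU')
    unfold ww'
    refine this.trans ?_
    rw [e1_sub, e1_mul, eT', eU', e1_heis i hz, e1_heis i hz, ← regM_mul, ← map_mul, mul_inv_rev]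
    norm_num
  rw [e1_sub, e1_sub, e1_mul, e1_mul, e1_one, e1_sg i hz, h1]
  simp only [smul_mul_assoc, one_mul, smul_smul]
  rw [sub_smul, one_smul, sq]
  abel

/-- the product of all block polynomials -/
def prodE (i : ℕ) (M : ℂ) : Polynomial ℂ :=
  ∏ η ∈ Polynomial.nthRootsFinset (3 ^ ((i + 1) / 2)) (1 : ℂ),
    ∏ ζ ∈ Polynomial.nthRootsFinset (3 ^ (i / 2)) (1 : ℂ), eP (3 ^ (i / 2)) M η ζ

theorem det_pencil (i : ℕ) (M : ℂ) {z : ℂ} (hz : 1 - z ^ 2 ≠ 0) :
    ‖((z ^ 2 - 1) • (1 : Matrix (FQ i) (FQ i) ℂ)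
      - (z * M) • (regM ℂ (QuotientGroup.mk' (chain i) tt)
        - regM ℂ (QuotientGroup.mk' (chain i) (uu * tt)))).det‖ = ‖(prodE i M).eval z‖ := by
  set c : ℂ := z * M / (1 - z ^ 2) with hc
  have h1 : (z ^ 2 - 1) • (1 : Matrix (FQ i) (FQ i) ℂ)
      - (z * M) • (regM ℂ (QuotientGroup.mk' (chain i) tt)
        - regM ℂ (QuotientGroup.mk' (chain i) (uu * tt)))
      = (z ^ 2 - 1) • gmat (MonoidAlgebra.mapDomain (QuotientGroup.mk' (chain i)) (elt ℂ c)) := by
    have h2 : (z ^ 2 - 1) * c = -(z * M) := by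
      rw [hc]
      field_simp
      ring
    rw [gmat_eq, smul_sub (z ^ 2 - 1), smul_add, smul_smul, smul_smul, h2, neg_smul, neg_smul,
      smul_sub]
    abel
  have h3 : (gmat (MonoidAlgebra.mapDomain (QuotientGroup.mk' (chain i)) (elt ℂ c))).det
      = D (3 ^ ((i + 1) / 2)) (3 ^ (i / 2)) (3 ^ (i / 2)) c :=
    det_gmat' (chain i) dvd_rfl (pow_dvd_pow 3 (by omega)) rfl (Odd.pow (by decide)) c
  have h4 : Fintype.card (FQ i) = 3 ^ (i / 2) * (3 ^ ((i + 1) / 2) * 3 ^ (i / 2)) := by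
    rw [← Nat.card_eq_fintype_card, chain_card]
  rw [h1, Matrix.det_smul, h3, prodE, Polynomial.eval_prod]
  simp_rw [Polynomial.eval_prod, eP_eval _ _ _ _ _ hz, Finset.prod_mul_distrib, Finset.prod_const]
  rw [(Complex.isPrimitiveRoot_exp (3 ^ ((i + 1) / 2)) (by positivity)).card_nthRootsFinset,
    (Complex.isPrimitiveRoot_exp (3 ^ (i / 2)) (by positivity)).card_nthRootsFinset,
    norm_mul, norm_mul, h4, norm_pow, norm_pow, norm_pow, norm_pow, norm_sub_rev (z ^ 2) 1,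
    ← pow_mul, ← pow_mul]
  congr 2
  ring

theorem det_pencil' (i : ℕ) {z : ℂ} (hz1 : ‖z‖ = 1) (hz : 1 - z ^ 2 ≠ 0) :
    ‖((z ^ 2 - 1) • (1 : Matrix (FQ i) (FQ i) ℂ)
      - (z * 16) • (regM ℂ (QuotientGroup.mk' (chain i) tt⁻¹)
        - regM ℂ (QuotientGroup.mk' (chain i) (uu * tt)⁻¹))).det‖ = ‖(prodE i 16).eval z⁻¹‖ := by
  have hz0 : z ≠ 0 := by
    rintro rfl
    simp at hz1
  have hs : star z = z⁻¹ := by
    rw [Complex.inv_def, Complex.normSq_eq_norm_sq, hz1]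
    simp
  have hz' : 1 - (z⁻¹) ^ 2 ≠ 0 := by
    intro h
    apply hz
    have : (z ^ 2) * (1 - (z⁻¹) ^ 2) = z ^ 2 - 1 := by
      field_simp
    rw [h, mul_zero] at this
    linear_combination this
  rw [← det_pencil i 16 hz', ← norm_star, ← Matrix.det_conjTranspose, Matrix.conjTranspose_sub,
    Matrix.conjTranspose_smul, Matrix.conjTranspose_smul, Matrix.conjTranspose_sub,
    regM_conjTranspose, regM_conjTranspose, Matrix.conjTranspose_one, map_inv, map_inv, inv_inv,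
    inv_inv, star_sub, star_mul', star_pow, hs]
  simp

end Pool.Agent.TH630.Tor
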