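import Pool.Agent.Helper993.Luck
import Mathlib.NumberTheory.MahlerMeasure

/-!
Evaluation of group ring elements of a group `Q` which embeds in `F × ℤ`, with `F` finite, at points
of the circle.
-/

open scoped InnerProductSpace Topology Matrix

noncomputable section

namespace Pool.Agent.TH630.Tor

open Pool.Agent.Helper993.FK

variable {Q F : Type} [Group Q] [Group F] [Fintype F] [DecidableEq F]

/-- The matrix of right translation by `g`, acting on row vectors. -/
def regM (R : Type) [CommRing R] (g : F) : Matrix F F R :=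
  Matrix.of fun x y => if y = x * g then 1 else 0

omit [Fintype F] in
theorem regM_one (R : Type) [CommRing R] : regM R (1 : F) = 1 := by
  ext x y
  simp [regM, Matrix.one_apply, eq_comm]

theorem regM_mul (R : Type) [CommRing R] (g h : F) : regM R (g * h) = regM R g * regM R h := by
  ext x y
  simp only [regM, Matrix.of_apply, Matrix.mul_apply]
  rw [Finset.sum_eq_single (x * g)]
  · simp [mul_assoc]
  · intro b _ hb
    rw [if_neg hb, zero_mul]
  · simp

omit [Fintype F] in
theorem regM_transpose (R : Type) [CommRing R] (g : F) : (regM R g)ᵀ = regM R g⁻¹ := by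
  ext x y
  simp only [regM, Matrix.of_apply, Matrix.transpose_apply]
  congr 1
  apply propext
  constructor
  · rintro rfl; group
  · rintro rfl; group

/-- The monoid homomorphism `q ↦ z ^ κ(q) R(π(q))`, for a unit `z`. -/
def repM {R : Type} [CommRing R] (π : Q →* F) (κ : Q →* Multiplicative ℤ) (z : Rˣ) :
    Q →* Matrix F F R where
  toFun q := ((z ^ (Multiplicative.toAdd (κ q)) : Rˣ) : R) • regM R (π q)
  map_one' := by simp [regM_one]
  map_mul' a b := by
    rw [map_mul κ a b, map_mul π a b, regM_mul, toAdd_mul, zpow_add, Units.val_mul,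
      smul_mul_smul_comm]

/-- Evaluation of an element of the group ring. -/
def evz {k R : Type} [CommRing k] [CommRing R] [Algebra k R] (π : Q →* F)
    (κ : Q →* Multiplicative ℤ) (z : Rˣ) : MonoidAlgebra k Q →ₐ[k] Matrix F F R :=
  MonoidAlgebra.lift k (Matrix F F R) Q (repM π κ z)

theorem evz_single {k R : Type} [CommRing k] [CommRing R] [Algebra k R] (π : Q →* F)
    (κ : Q →* Multiplicative ℤ) (z : Rˣ) (q : Q) (c : k) :
    evz π κ z (MonoidAlgebra.single q c)
      = c • ((z ^ (Multiplicative.toAdd (κ q)) : Rˣ) : R) • regM R (π q) := by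
  unfold evz
  rw [MonoidAlgebra.lift_single]
  rfl

/-- Evaluation of a matrix over the group ring. -/
def evM {k R : Type} [CommRing k] [CommRing R] [Algebra k R] (π : Q →* F)
    (κ : Q →* Multiplicative ℤ) (z : Rˣ) {ι ι' : Type} (A : Matrix ι ι' (MonoidAlgebra k Q)) :
    Matrix (ι × F) (ι' × F) R :=
  Matrix.of fun p q => evz π κ z (A p.1 q.1) p.2 q.2

section
variable {k R : Type} [CommRing k] [CommRing R] [Algebra k R] (π : Q →* F)
    (κ : Q →* Multiplicative ℤ) (z : Rˣ) {ι ι' ι'' : Type}

theorem evM_mul [Fintype ι'] (A : Matrix ι ι' (MonoidAlgebra k Q))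
    (B : Matrix ι' ι'' (MonoidAlgebra k Q)) :
    evM π κ z (A * B) = evM π κ z A * evM π κ z B := by
  ext p q
  simp only [evM, Matrix.of_apply, Matrix.mul_apply, map_sum, Matrix.sum_apply, map_mul,
    Fintype.sum_prod_type]

theorem evM_add (A B : Matrix ι ι' (MonoidAlgebra k Q)) :
    evM π κ z (A + B) = evM π κ z A + evM π κ z B := by
  ext p q
  simp [evM]

theorem evM_one [DecidableEq ι] :
    evM π κ z (1 : Matrix ι ι (MonoidAlgebra k Q)) = 1 := by
  ext p q
  simp only [evM, Matrix.of_apply, Matrix.one_apply, Prod.ext_iff]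
  by_cases h : p.1 = q.1
  · simp [h, Matrix.one_apply]
  · simp [h]

theorem evM_pow [Fintype ι] [DecidableEq ι] (A : Matrix ι ι (MonoidAlgebra k Q)) (m : ℕ) :
    evM π κ z (A ^ m) = (evM π κ z A) ^ m := by
  induction m with
  | zero => simp [evM_one]
  | succ m ih => rw [pow_succ, pow_succ, evM_mul, ih]

end

/-- A nonzero complex number as a unit. -/
def uz (z : ℂ) : ℂˣ := if h : z = 0 then 1 else Units.mk0 z h

theorem uz_val {z : ℂ} (h : z ≠ 0) : ((uz z : ℂˣ) : ℂ) = z := by
  unfold uz
  rw [dif_neg h]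
  rfl

theorem uz_zpow {z : ℂ} (h : z ≠ 0) (n : ℤ) : (((uz z) ^ n : ℂˣ) : ℂ) = z ^ n := by
  rw [Units.val_zpow_eq_zpow_val, uz_val h]

section
variable (π : Q →* F) (κ : Q →* Multiplicative ℤ)

omit [Fintype F] in
theorem regM_conjTranspose (g : F) : (regM ℂ g)ᴴ = regM ℂ g⁻¹ := by
  rw [← regM_transpose]
  ext x y
  simp [regM, Matrix.conjTranspose_apply]

theorem evz_invol {z : ℂ} (hz : ‖z‖ = 1) (a : MonoidAlgebra ℚ Q) :
    evz π κ (uz z) (invol a) = (evz π κ (uz z) a : Matrix F F ℂ)ᴴ := by
  have hz0 : z ≠ 0 := by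
    rintro rfl
    simp at hz
  induction a using MonoidAlgebra.induction_linear with
  | zero => simp [invol]
  | add a b h1 h2 =>
    have e : invol (a + b) = invol a + invol b := MonoidAlgebra.mapDomain_add _ _ _
    rw [e, map_add, map_add, Matrix.conjTranspose_add, h1, h2]
  | single g c =>
    have e : invol (MonoidAlgebra.single g c) = MonoidAlgebra.single g⁻¹ c :=
      MonoidAlgebra.mapDomain_single
    rw [e, evz_single, evz_single, uz_zpow hz0, uz_zpow hz0, Matrix.conjTranspose_smul,
      Matrix.conjTranspose_smul, regM_conjTranspose, map_inv κ g, map_inv π g, toAdd_inv]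
    have e2 : star (z ^ (Multiplicative.toAdd (κ g))) = z ^ (-(Multiplicative.toAdd (κ g))) := by
      rw [zpow_neg, ← inv_zpow, Complex.inv_def, Complex.normSq_eq_norm_sq, hz]
      simp [star_zpow₀]
    rw [e2]
    congr 1

theorem evM_adjQ {z : ℂ} (hz : ‖z‖ = 1) {r s : ℕ} (A : Matrix (Fin r) (Fin s) (MonoidAlgebra ℚ Q)) :
    evM π κ (uz z) (adjQ A) = (evM π κ (uz z) A : Matrix (Fin r × F) (Fin s × F) ℂ)ᴴ := by
  ext p q
  simp only [evM, adjQ, Matrix.of_apply, Matrix.map_apply, Matrix.transpose_apply,
    Matrix.conjTranspose_apply]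
  rw [evz_invol π κ hz]
  rfl

/-- The unit `T` of the ring of Laurent polynomials. -/
def Tu : (LaurentPolynomial ℤ)ˣ :=
  ⟨LaurentPolynomial.T 1, LaurentPolynomial.T (-1),
    by rw [← LaurentPolynomial.T_add, add_neg_cancel, LaurentPolynomial.T_zero],
    by rw [← LaurentPolynomial.T_add, neg_add_cancel, LaurentPolynomial.T_zero]⟩

theorem Tu_zpow (n : ℤ) : ((Tu ^ n : (LaurentPolynomial ℤ)ˣ) : LaurentPolynomial ℤ)
    = LaurentPolynomial.T n := by
  induction n using Int.induction_on with
  | zero => simp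
  | succ n ih =>
    rw [zpow_add_one, Units.val_mul, ih, LaurentPolynomial.T_add]
    rfl
  | pred n ih =>
    rw [zpow_sub_one, Units.val_mul, ih, sub_eq_add_neg, LaurentPolynomial.T_add]
    rfl

/-- The determinant, as a Laurent polynomial. -/
def detL {r : ℕ} (B : Matrix (Fin r) (Fin r) (MonoidAlgebra ℤ Q)) : LaurentPolynomial ℤ :=
  (evM π κ Tu B : Matrix (Fin r × F) (Fin r × F) (LaurentPolynomial ℤ)).det

theorem evz_map {z : ℂ} (hz : z ≠ 0) (a : MonoidAlgebra ℤ Q) :
    (evz π κ Tu a : Matrix F F (LaurentPolynomial ℤ)).map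
      (LaurentPolynomial.eval₂ (Int.castRingHom ℂ) (uz z)) = evz π κ (uz z) (toQ a) := by
  induction a using MonoidAlgebra.induction_linear with
  | zero =>
    have : toQ (0 : MonoidAlgebra ℤ Q) = 0 := map_zero _
    rw [this, map_zero, map_zero]
    ext x y
    simp
  | add a b h1 h2 =>
    have : toQ (a + b) = toQ a + toQ b := map_add _ _ _
    rw [this, map_add, map_add, Matrix.map_add _ (map_add _), h1, h2]
  | single g c =>
    have e : toQ (MonoidAlgebra.single g c) = MonoidAlgebra.single g (c : ℚ) :=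
      MonoidAlgebra.mapRingHom_single _ _ _
    rw [e, evz_single, evz_single, Tu_zpow, uz_zpow hz]
    ext x y
    simp only [Matrix.map_apply, Matrix.smul_apply, smul_eq_mul, regM, Matrix.of_apply]
    rw [zsmul_eq_mul, map_mul, map_mul, map_intCast, LaurentPolynomial.eval₂_T, uz_zpow hz]
    split_ifs
    · rw [map_one]
      simp [Rat.smul_def]
    · simp

theorem evM_map {z : ℂ} (hz : z ≠ 0) {r s : ℕ} (B : Matrix (Fin r) (Fin s) (MonoidAlgebra ℤ Q)) :
    (evM π κ Tu B : Matrix (Fin r × F) (Fin s × F) (LaurentPolynomial ℤ)).map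
      (LaurentPolynomial.eval₂ (Int.castRingHom ℂ) (uz z)) = evM π κ (uz z) (B.map toQ) := by
  ext p q
  have := evz_map π κ hz (B p.1 q.1)
  exact congrFun (congrFun this p.2) q.2

theorem det_evM {z : ℂ} (hz : z ≠ 0) {r : ℕ} (B : Matrix (Fin r) (Fin r) (MonoidAlgebra ℤ Q)) :
    (evM π κ (uz z) (B.map toQ) : Matrix (Fin r × F) (Fin r × F) ℂ).det
      = LaurentPolynomial.eval₂ (Int.castRingHom ℂ) (uz z) (detL π κ B) := by
  rw [← evM_map π κ hz, detL, RingHom.map_det]
  rfl

/-- The determinant is a polynomial up to a power of `z`. -/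
theorem exists_poly {r : ℕ} (B : Matrix (Fin r) (Fin r) (MonoidAlgebra ℤ Q)) :
    ∃ p : Polynomial ℤ, ∀ z : ℂ, ‖z‖ = 1 →
      ‖(evM π κ (uz z) (B.map toQ) : Matrix (Fin r × F) (Fin r × F) ℂ).det‖
        = ‖(p.map (Int.castRingHom ℂ)).eval z‖ := by
  obtain ⟨n, p, hp⟩ := LaurentPolynomial.exists_T_pow (detL π κ B)
  refine ⟨p, fun z hz => ?_⟩
  have hz0 : z ≠ 0 := by
    rintro rfl
    simp at hz
  rw [det_evM π κ hz0]
  have h := congrArg (LaurentPolynomial.eval₂ (Int.castRingHom ℂ) (uz z)) hp
  rw [LaurentPolynomial.eval₂_toLaurent, map_mul, LaurentPolynomial.eval₂_T, uz_zpow hz0,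
    uz_val hz0] at h
  rw [Polynomial.eval_map, h, norm_mul, norm_zpow, hz, one_zpow, mul_one]

theorem circleAverage_zpow (n : ℤ) :
    Real.circleAverage (fun z : ℂ => z ^ n) 0 1 = if n = 0 then 1 else 0 := by
  by_cases hn : n = 0
  · subst hn
    simp [Real.circleAverage_const]
  · rw [if_neg hn, Real.circleAverage_def]
    have h1 : ∀ θ : ℝ, (circleMap 0 1 θ) ^ n = Complex.exp ((n * Complex.I) * θ) := by
      intro θ
      simp only [circleMap, Complex.ofReal_one, one_mul, zero_add]
      rw [← Complex.exp_int_mul]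
      congr 1
      ring
    simp_rw [h1]
    have hc : ((n : ℂ) * Complex.I) ≠ 0 := by
      simp [hn]
    rw [integral_exp_mul_complex hc]
    have h2 : Complex.exp (n * Complex.I * ((2 * Real.pi : ℝ) : ℂ)) = 1 := by
      rw [Complex.exp_eq_one_iff]
      refine ⟨n, ?_⟩
      push_cast
      ring
    rw [h2]
    simp

theorem trace_regM (g : F) : Matrix.trace (regM ℂ g) = if g = 1 then (Fintype.card F : ℂ) else 0 := by
  unfold Matrix.trace regM
  simp only [Matrix.diag_apply, Matrix.of_apply, left_eq_mul]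
  split_ifs <;> simp

theorem trace_evz_single {z : ℂ} (hz : z ≠ 0) (q : Q) (c : ℚ) : Matrix.trace
      (evz π κ (uz z) (MonoidAlgebra.single q c) : Matrix F F ℂ)
      = (if π q = 1 then (Fintype.card F : ℂ) * c else 0) * z ^ (Multiplicative.toAdd (κ q)) := by
  rw [evz_single, Matrix.trace_smul, Matrix.trace_smul, trace_regM, uz_zpow hz]
  simp only [smul_eq_mul, Rat.smul_def]
  split_ifs <;> ring

/-- The trace is a Laurent polynomial. -/
theorem trace_evz {z : ℂ} (hz : z ≠ 0) (a : MonoidAlgebra ℚ Q) : Matrix.trace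
      (evz π κ (uz z) a : Matrix F F ℂ)
      = ∑ q ∈ a.coeff.support, (if π q = 1 then (Fintype.card F : ℂ) * (a.coeff q : ℚ) else 0)
        * z ^ (Multiplicative.toAdd (κ q)) := by
  classical
  have key : ∀ S : Finset Q, a.coeff.support ⊆ S → Matrix.trace
      (evz π κ (uz z) a : Matrix F F ℂ)
      = ∑ q ∈ S, (if π q = 1 then (Fintype.card F : ℂ) * (a.coeff q : ℚ) else 0)
        * z ^ (Multiplicative.toAdd (κ q)) := by
    induction a using MonoidAlgebra.induction_linear with
    | zero => intro S _; simp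
    | add a b h1 h2 =>
      intro S hS
      set S' := S ∪ (a.coeff.support ∪ b.coeff.support) with hS'
      have e : ∑ q ∈ S, (if π q = 1 then (Fintype.card F : ℂ) * ((a + b).coeff q : ℚ) else 0)
          * z ^ (Multiplicative.toAdd (κ q))
          = ∑ q ∈ S', (if π q = 1 then (Fintype.card F : ℂ) * ((a + b).coeff q : ℚ) else 0)
          * z ^ (Multiplicative.toAdd (κ q)) := by
        apply Finset.sum_subset Finset.subset_union_left
        intro g _ hg
        have : (a + b).coeff g = 0 := by
          by_contra h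
          exact hg (hS (Finsupp.mem_support_iff.mpr h))
        rw [this]
        simp
      rw [e, map_add, Matrix.trace_add,
        h1 S' (Finset.subset_union_left.trans Finset.subset_union_right),
        h2 S' (Finset.subset_union_right.trans Finset.subset_union_right),
        ← Finset.sum_add_distrib]
      apply Finset.sum_congr rfl
      intro g _
      rw [MonoidAlgebra.coeff_add, Finsupp.add_apply]
      push_cast
      split_ifs <;> ring
    | single g c =>
      intro S hS
      rw [trace_evz_single π κ hz]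
      by_cases hc : c = 0
      · subst hc
        simp
      · have hg : g ∈ S := by
          apply hS
          rw [MonoidAlgebra.coeff_single, Finsupp.mem_support_iff]
          simpa using hc
        rw [Finset.sum_eq_single g]
        · simp
        · intro g' _ hg'
          have : (MonoidAlgebra.single g c : MonoidAlgebra ℚ Q).coeff g' = 0 := by
            rw [MonoidAlgebra.coeff_single, Finsupp.single_apply, if_neg (Ne.symm hg')]
          rw [this]
          simp
        · intro h; exact absurd hg h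
  exact key _ subset_rfl

theorem circleIntegrable_zpow (n : ℤ) : CircleIntegrable (fun z : ℂ => z ^ n) 0 1 := by
  apply ContinuousOn.circleIntegrable zero_le_one
  intro z hz
  have hz0 : z ≠ 0 := by
    rintro rfl
    simp at hz
  exact (continuousAt_zpow₀ z n (Or.inl hz0)).continuousWithinAt

/-- The average of the trace over the circle. -/
theorem circleAverage_trace_evz (hinj : ∀ q, π q = 1 → κ q = 1 → q = 1)
    (a : MonoidAlgebra ℚ Q) : Real.circleAverage (fun z => Matrix.trace
      (evz π κ (uz z) a : Matrix F F ℂ)) 0 1 = Fintype.card F * ((a.coeff 1 : ℚ) : ℂ) := by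
  classical
  have h1 : Real.circleAverage (fun z => Matrix.trace (evz π κ (uz z) a : Matrix F F ℂ)) 0 1
      = Real.circleAverage (fun z => ∑ q ∈ a.coeff.support,
        (if π q = 1 then (Fintype.card F : ℂ) * (a.coeff q : ℚ) else 0)
        • z ^ (Multiplicative.toAdd (κ q))) 0 1 := by
    apply Real.circleAverage_congr_sphere
    intro z hz
    have hz0 : z ≠ 0 := by
      rintro rfl
      simp at hz
    simp only [smul_eq_mul]
    exact trace_evz π κ hz0 a
  have h1' := Real.circleAverage_fun_sum (c := 0) (R := 1) (s := a.coeff.support)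
    (f := fun (q : Q) (z : ℂ) => (if π q = 1 then (Fintype.card F : ℂ) * (a.coeff q : ℚ) else 0)
        • z ^ (Multiplicative.toAdd (κ q))) (fun q _ => (circleIntegrable_zpow _).const_smul)
  rw [h1, h1']
  have h2 : ∀ q : Q, Real.circleAverage (fun z : ℂ =>
        (if π q = 1 then (Fintype.card F : ℂ) * (a.coeff q : ℚ) else 0)
        • z ^ (Multiplicative.toAdd (κ q))) 0 1
        = if q = 1 then (Fintype.card F : ℂ) * (a.coeff q : ℚ) else 0 := by
    intro q
    rw [Real.circleAverage_fun_smul, circleAverage_zpow]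
    by_cases hq : q = 1
    · subst hq
      simp
    · rw [if_neg hq]
      by_cases h3 : π q = 1
      · have h4 : ¬ (Multiplicative.toAdd (κ q) = 0) := by
          intro h5
          exact hq (hinj q h3 (Multiplicative.toAdd.injective (by rw [h5]; rfl)))
        rw [if_neg h4]
        simp
      · rw [if_neg h3]
        simp
  simp_rw [h2]
  rw [Finset.sum_ite_eq']
  by_cases h : (1 : Q) ∈ a.coeff.support
  · rw [if_pos h]
  · rw [if_neg h]
    rw [Finsupp.notMem_support_iff] at h
    rw [h]
    simp

theorem circleIntegrable_trace_evz (a : MonoidAlgebra ℚ Q) :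
    CircleIntegrable (fun z => Matrix.trace (evz π κ (uz z) a : Matrix F F ℂ)) 0 1 := by
  have h1 : CircleIntegrable (∑ q ∈ a.coeff.support, fun z : ℂ =>
      (if π q = 1 then (Fintype.card F : ℂ) * (a.coeff q : ℚ) else 0)
        • z ^ (Multiplicative.toAdd (κ q))) 0 1 :=
    CircleIntegrable.sum _ (fun q _ => (circleIntegrable_zpow _).const_smul)
  unfold CircleIntegrable at h1 ⊢
  refine h1.congr ?_
  intro θ _
  have hz0 : circleMap 0 1 θ ≠ 0 := circleMap_ne_center one_ne_zero
  simp only [Finset.sum_apply, smul_eq_mul]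
  exact (trace_evz π κ hz0 a).symm

/-- The average of the trace of a matrix. -/
theorem circleAverage_trace_evM (hinj : ∀ q, π q = 1 → κ q = 1 → q = 1) {r : ℕ}
    (S : Matrix (Fin r) (Fin r) (MonoidAlgebra ℚ Q)) : Real.circleAverage (fun z => Matrix.trace
      (evM π κ (uz z) S : Matrix (Fin r × F) (Fin r × F) ℂ)) 0 1
      = Fintype.card F * ((trc S : ℝ) : ℂ) := by
  have h1 : ∀ z, Matrix.trace (evM π κ (uz z) S : Matrix (Fin r × F) (Fin r × F) ℂ)
      = ∑ i, Matrix.trace (evz π κ (uz z) (S i i) : Matrix F F ℂ) := by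
    intro z
    simp only [Matrix.trace, Matrix.diag_apply, evM, Matrix.of_apply, Fintype.sum_prod_type]
  simp_rw [h1]
  rw [Real.circleAverage_fun_sum (fun i _ => circleIntegrable_trace_evz π κ (S i i))]
  simp_rw [circleAverage_trace_evz π κ hinj]
  rw [← Finset.mul_sum, trc]
  push_cast
  rfl

end

end Pool.Agent.TH630.Tor
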