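import Pool.Agent.TH630.Tor.Cx

/-!
Evaluation at points of the circle of integral matrices; quotients.
-/

open scoped InnerProductSpace Topology Matrix

noncomputable section

namespace Pool.Agent.TH630.Tor

open Pool.Agent.Helper993.FK Pool.Agent.Helper993.Delta

section
variable {Q F : Type} [Group Q] [Group F] [Fintype F] [DecidableEq F]
  (π : Q →* F) (κ : Q →* Multiplicative ℤ)

/-- evaluation of an integral matrix -/
def ev (z : ℂ) {ι ι' : Type} (A : Matrix ι ι' (MonoidAlgebra ℤ Q)) :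
    Matrix (ι × F) (ι' × F) ℂ := evM π κ (uz z) (A.map toQ)

/-- evaluation of an element -/
def e1 (z : ℂ) (a : MonoidAlgebra ℤ Q) : Matrix F F ℂ := evz π κ (uz z) (toQ a)

theorem e1_add (z : ℂ) (a b : MonoidAlgebra ℤ Q) : e1 π κ z (a + b) = e1 π κ z a + e1 π κ z b := by
  have : toQ (a + b) = toQ a + toQ b := map_add _ _ _
  rw [e1, this, map_add]
  rfl

theorem e1_mul (z : ℂ) (a b : MonoidAlgebra ℤ Q) : e1 π κ z (a * b) = e1 π κ z a * e1 π κ z b := by
  have : toQ (a * b) = toQ a * toQ b := map_mul (MonoidAlgebra.mapRingHom Q (Int.castRingHom ℚ)) _ _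
  rw [e1, this, map_mul]
  rfl

theorem e1_zero (z : ℂ) : e1 π κ z 0 = 0 := by
  have : toQ (0 : MonoidAlgebra ℤ Q) = 0 := map_zero _
  rw [e1, this, map_zero]

theorem e1_one (z : ℂ) : e1 π κ z 1 = 1 := by
  have : toQ (1 : MonoidAlgebra ℤ Q) = 1 := map_one (MonoidAlgebra.mapRingHom Q (Int.castRingHom ℚ))
  rw [e1, this, map_one]

theorem e1_neg (z : ℂ) (a : MonoidAlgebra ℤ Q) : e1 π κ z (-a) = -e1 π κ z a := by
  have : toQ (-a) = -toQ a := map_neg (MonoidAlgebra.mapRingHom Q (Int.castRingHom ℚ)) _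
  rw [e1, this, map_neg]
  rfl

theorem e1_sub (z : ℂ) (a b : MonoidAlgebra ℤ Q) : e1 π κ z (a - b) = e1 π κ z a - e1 π κ z b := by
  rw [sub_eq_add_neg, e1_add, e1_neg, sub_eq_add_neg]

theorem e1_single {z : ℂ} (hz : z ≠ 0) (q : Q) (c : ℤ) : e1 π κ z (MonoidAlgebra.single q c)
    = ((c : ℂ) * z ^ (Multiplicative.toAdd (κ q))) • regM ℂ (π q) := by
  have e : toQ (MonoidAlgebra.single q c) = MonoidAlgebra.single q (c : ℚ) :=
      MonoidAlgebra.mapRingHom_single _ _ _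
  rw [e1, e, evz_single, uz_zpow hz]
  ext x y
  simp [Rat.smul_def, mul_assoc]

theorem ev_apply (z : ℂ) {ι ι' : Type} (A : Matrix ι ι' (MonoidAlgebra ℤ Q)) (p : ι × F)
    (q : ι' × F) : ev π κ z A p q = e1 π κ z (A p.1 q.1) p.2 q.2 := rfl

theorem ev_mul (z : ℂ) {r s t : ℕ} (A : Matrix (Fin r) (Fin s) (MonoidAlgebra ℤ Q))
    (B : Matrix (Fin s) (Fin t) (MonoidAlgebra ℤ Q)) :
    ev π κ z (A * B) = ev π κ z A * ev π κ z B := by
  unfold ev
  rw [toQ_mul, evM_mul]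

theorem ev_add (z : ℂ) {r s : ℕ} (A B : Matrix (Fin r) (Fin s) (MonoidAlgebra ℤ Q)) :
    ev π κ z (A + B) = ev π κ z A + ev π κ z B := by
  unfold ev
  rw [toQ_add, evM_add]

theorem ev_zero (z : ℂ) {ι ι' : Type} :
    ev π κ z (0 : Matrix ι ι' (MonoidAlgebra ℤ Q)) = 0 := by
  ext p q
  rw [ev_apply, Matrix.zero_apply, e1_zero]
  rfl

theorem ev_adjZ {z : ℂ} (hz : ‖z‖ = 1) {r s : ℕ} (B : Matrix (Fin r) (Fin s) (MonoidAlgebra ℤ Q)) :
    ev π κ z (adjZ B) = (ev π κ z B)ᴴ := adjZ_toQ_ev π κ hz B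

theorem logDet_eq {r : ℕ} (B : Matrix (Fin r) (Fin r) (MonoidAlgebra ℤ Q)) :
    logDet π κ B = 1 / Fintype.card F * Real.circleAverage
      (fun z => Real.log ‖(ev π κ z B).det‖) 0 1 := rfl

theorem nondeg_iff {r : ℕ} (B : Matrix (Fin r) (Fin r) (MonoidAlgebra ℤ Q)) :
    Nondeg π κ B ↔ ∃ z : ℂ, ‖z‖ = 1 ∧ (ev π κ z B).det ≠ 0 := Iff.rfl

end

section quot
variable {G Q F : Type} [Group G] [Group Q] [Group F] [Fintype F] [DecidableEq F]
  (f : G →* Q) (π : Q →* F) (κ : Q →* Multiplicative ℤ)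

theorem e1_map (z : ℂ) (a : MonoidAlgebra ℤ G) :
    e1 π κ z (MonoidAlgebra.mapDomainRingHom ℤ f a) = e1 (π.comp f) (κ.comp f) z a := by
  induction a using MonoidAlgebra.induction_linear with
  | zero => rw [map_zero, e1_zero, e1_zero]
  | add a b h1 h2 => rw [map_add, e1_add, e1_add, h1, h2]
  | single g c =>
    have e : toQ (MonoidAlgebra.single g c) = MonoidAlgebra.single g (c : ℚ) :=
      MonoidAlgebra.mapRingHom_single _ _ _
    have e' : toQ (MonoidAlgebra.single (f g) c) = MonoidAlgebra.single (f g) (c : ℚ) :=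
      MonoidAlgebra.mapRingHom_single _ _ _
    rw [MonoidAlgebra.mapDomainRingHom_apply, MonoidAlgebra.mapDomain_single, e1, e1, e, e',
      evz_single, evz_single]
    rfl

theorem ev_map (z : ℂ) {ι ι' : Type} (A : Matrix ι ι' (MonoidAlgebra ℤ G)) :
    ev π κ z (A.map (MonoidAlgebra.mapDomainRingHom ℤ f)) = ev (π.comp f) (κ.comp f) z A := by
  ext p q
  rw [ev_apply, ev_apply, Matrix.map_apply, e1_map]

theorem logDet_map {r : ℕ} (B : Matrix (Fin r) (Fin r) (MonoidAlgebra ℤ G)) :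
    logDet π κ (B.map (MonoidAlgebra.mapDomainRingHom ℤ f)) = logDet (π.comp f) (κ.comp f) B := by
  rw [logDet_eq, logDet_eq]
  simp_rw [ev_map]

theorem nondeg_map {r : ℕ} (B : Matrix (Fin r) (Fin r) (MonoidAlgebra ℤ G)) :
    Nondeg π κ (B.map (MonoidAlgebra.mapDomainRingHom ℤ f))
      ↔ Nondeg (π.comp f) (κ.comp f) B := by
  rw [nondeg_iff, nondeg_iff]
  simp_rw [ev_map]

end quot

/-- A surjection to a group which embeds in `F × ℤ`: for a normal subgroup `N` of `G` which is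
the common kernel of `Pr` and `K`. -/
theorem FreeCx.level' {G F : Type} [Group G] [Group F] [Fintype F] [DecidableEq F]
    (N : Subgroup G) [N.Normal] (Pr : G →* F) (K : G →* Multiplicative ℤ)
    (hN : ∀ g, g ∈ N ↔ Pr g = 1 ∧ K g = 1) (C : FreeCx G) (h : ∀ n, Nondeg Pr K (C.lapM n)) :
    (C.quot N).DetL2Acyclic ∧
    (C.quot N).l2torsion = -(1 / 2) * ∑ n ∈ Finset.range (C.dim + 1),
      (-1) ^ n * n * logDet Pr K (C.lapM n) := by
  have hPr : N ≤ Pr.ker := fun g hg => ((hN g).mp hg).1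
  have hK : N ≤ K.ker := fun g hg => ((hN g).mp hg).2
  have e1 : (QuotientGroup.lift N Pr hPr).comp (QuotientGroup.mk' N) = Pr := by
    ext g; rfl
  have e2 : (QuotientGroup.lift N K hK).comp (QuotientGroup.mk' N) = K := by
    ext g; rfl
  obtain ⟨h1, h2⟩ := FreeCx.level (QuotientGroup.lift N Pr hPr) (QuotientGroup.lift N K hK) (by
    intro q hq1 hq2
    obtain ⟨g, rfl⟩ := QuotientGroup.mk_surjective q
    exact (QuotientGroup.eq_one_iff g).mpr ((hN g).mpr ⟨hq1, hq2⟩)) (C.quot N) (by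
    intro n
    rw [C.quot_lapM N n]
    have h3 := h n
    rw [← e1, ← e2, ← nondeg_map] at h3
    exact h3)
  refine ⟨h1, h2.trans ?_⟩
  congr 1
  apply Finset.sum_congr rfl
  intro n _
  rw [C.quot_lapM N n]
  have h4 := logDet_map (QuotientGroup.mk' N) (QuotientGroup.lift N Pr hPr)
    (QuotientGroup.lift N K hK) (C.lapM n)
  rw [e1, e2] at h4
  exact congrArg (fun x : ℝ => (-1) ^ n * (n : ℝ) * x) h4

theorem FreeCx.limit' {G : Type} [Group G] (C : FreeCx G) (N : ℕ → Subgroup G)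
    [∀ i, (N i).Normal] (hanti : Antitone N) (hinf : ⨅ i, N i = ⊥)
    (F : ℕ → Type) [∀ i, Group (F i)] [∀ i, Fintype (F i)] [∀ i, DecidableEq (F i)]
    (Pr : ∀ i, G →* F i) (K : ∀ i, G →* Multiplicative ℤ)
    (hN : ∀ i, 1 ≤ i → ∀ g, g ∈ N i ↔ Pr i g = 1 ∧ K i g = 1)
    (h : ∀ i, 1 ≤ i → ∀ n, Nondeg (Pr i) (K i) (C.lapM n)) : C.DetL2Acyclic := by
  intro n
  have key := limit_package N hanti hinf (C.lapM n)
    (C := C.rank n * Real.log (KK (C.lapM n * adjZ (C.lapM n))))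
    (C' := 2 * C.rank n * Real.log (KK (C.lapM n * adjZ (C.lapM n)))) ?_ ?_
  · obtain ⟨h1, h2⟩ := key
    rw [← C.laplacian_eq n] at h1 h2
    exact ⟨FreeCx.dimKer_of_inj _ h1, h2⟩
  all_goals
    intro i hi
    have hPr : N i ≤ (Pr i).ker := fun g hg => ((hN i hi g).mp hg).1
    have hK : N i ≤ (K i).ker := fun g hg => ((hN i hi g).mp hg).2
    have e1 : (QuotientGroup.lift (N i) (Pr i) hPr).comp (QuotientGroup.mk' (N i)) = Pr i := by
      ext g; rfl
    have e2 : (QuotientGroup.lift (N i) (K i) hK).comp (QuotientGroup.mk' (N i)) = K i := by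
      ext g; rfl
    have hn := h i hi n
    rw [← e1, ← e2, ← nondeg_map] at hn
    obtain ⟨h1, h2, _⟩ := fz_package (QuotientGroup.lift (N i) (Pr i) hPr)
      (QuotientGroup.lift (N i) (K i) hK) (by
        intro q hq1 hq2
        obtain ⟨g, rfl⟩ := QuotientGroup.mk_surjective q
        exact (QuotientGroup.eq_one_iff g).mpr ((hN i hi g).mpr ⟨hq1, hq2⟩))
      ((C.lapM n).map (MonoidAlgebra.mapDomainRingHom ℤ (QuotientGroup.mk' (N i))))
      (nondeg_mul_adj _ _ hn) (one_le_KK (C.lapM n * adjZ (C.lapM n)))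
      (by rw [← FreeCx.mq_map]; exact (norm_rMul_map_le _ _).trans (le_max_right _ _))
    rw [FreeCx.mq_map]
  · exact h1
  · exact h2

end Pool.Agent.TH630.Tor
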