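import Pool.Agent.TH630.Tor.DetEv

/-!
The `L²`-torsions of the quotients of the closed `5`-manifold do not converge.
-/

open scoped Matrix Topology

noncomputable section

namespace Pool.Agent.TH630.Tor

open Pool.Agent.Helper993.FK Pool.Agent.Helper993.HeisDet

/-- The normal chain in `Heis × ℤ`: the whole group, and then the subgroups `chain i × 1`. -/
def chainZ (i : ℕ) : Subgroup HZ := if i = 0 then ⊤ else (chain i).prod ⊥

theorem chainZ_zero : chainZ 0 = ⊤ := rfl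

theorem mem_chainZ {i : ℕ} (hi : 1 ≤ i) (g : HZ) : g ∈ chainZ i ↔ prF i g = 1 ∧ prZ g = 1 := by
  unfold chainZ
  rw [if_neg (by omega), Subgroup.mem_prod, Subgroup.mem_bot]
  exact and_congr (QuotientGroup.eq_one_iff g.1).symm Iff.rfl

instance chainZ_normal (i : ℕ) : (chainZ i).Normal := by
  unfold chainZ
  split_ifs
  · infer_instance
  · exact Subgroup.prod_normal _ _

theorem chainZ_anti : Antitone chainZ := by
  intro i j hij g hg
  rcases Nat.eq_zero_or_pos i with rfl | hi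
  · rw [chainZ_zero]; exact Subgroup.mem_top g
  · rw [mem_chainZ (by omega)] at hg ⊢
    refine ⟨?_, hg.2⟩
    have h1 : g.1 ∈ chain j := (QuotientGroup.eq_one_iff g.1).mp hg.1
    exact (QuotientGroup.eq_one_iff g.1).mpr (chain_anti hij h1)

theorem chainZ_inf : ⨅ i, chainZ i = ⊥ := by
  rw [eq_bot_iff]
  intro g hg
  rw [Subgroup.mem_iInf] at hg
  have h1 : g.2 = 1 := ((mem_chainZ le_rfl g).mp (hg 1)).2
  have h2 : g.1 ∈ ⨅ i, chain i := by
    rw [Subgroup.mem_iInf]
    intro i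
    have h3 := ((mem_chainZ (Nat.le_add_left 1 i) g).mp (hg (i + 1))).1
    exact chain_anti (Nat.le_succ i) ((QuotientGroup.eq_one_iff g.1).mp h3)
  rw [chain_inf, Subgroup.mem_bot] at h2
  exact Subgroup.mem_bot.mpr (Prod.ext h2 h1)

/-- the three determinants -/
def dA (i : ℕ) (z : ℂ) : ℝ := ‖(ev (prF i) prZ z (adjZ pres4.b1 * pres4.b1)).det‖
def dB (i : ℕ) (z : ℂ) : ℝ := ‖(ev (prF i) prZ z (pres4.b2 * adjZ pres4.b2)).det‖
def dC (i : ℕ) (z : ℂ) : ℝ :=
  ‖(ev (prF i) prZ z (adjZ pres4.b2 * pres4.b2 + pres4.b1 * adjZ pres4.b1)).det‖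

theorem dets {i : ℕ} {z : ℂ} (hz : ‖z‖ = 1) (h1 : z ≠ 1) :
    0 < dA i z ∧ 0 < dB i z ∧ dC i z = dB i z * dA i z ∧
      dB i z = (‖z - 1‖ ^ (Fintype.card (FQ i))) ^ 2 * ‖Dseq i‖ ^ 2 * dA i z := by
  have hz0 : z ≠ 0 := by
    rintro rfl
    simp at hz
  obtain ⟨k1, k2, k3, k4⟩ := two_blocks (s := 3) (t := 1) (prF i) prZ hz pres4.b2 pres4.b1
    pres4.b2_mul_b1
  have eY : (ev (prF i) prZ z (rowD (s := 3) (t := 1) (r := 1) pres4.b1)).det
      = (z - 1) ^ (Fintype.card (FQ i)) := by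
    rw [rowD_b1, det_ev_diagonal, Fin.prod_univ_one]
    exact det_sm1 i hz0
  have eP : (ev (prF i) prZ z (colL (s := 3) (t := 1) (r := 3) pres4.b2)).det
      = (z - 1) ^ (Fintype.card (FQ i)) * (z - 1) ^ (Fintype.card (FQ i)) * Dseq i := by
    rw [colL_b2, det_ev_diagonal, Fin.prod_univ_three]
    change (e1 (prF i) prZ z sm1).det * (e1 (prF i) prZ z sm1).det * (e1 (prF i) prZ z elA).det = _
    rw [det_sm1 i hz0, det_elA i hz0]
  have hz1 : (z - 1) ^ (Fintype.card (FQ i)) ≠ 0 := pow_ne_zero _ (sub_ne_zero.mpr h1)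
  have hD : Dseq i ≠ 0 := by
    intro h
    have := Dseq_norm_ge i
    rw [h, norm_zero] at this
    linarith
  have hA : 0 < dA i z := norm_pos_iff.mpr (k3 (by rw [eY]; exact hz1))
  have hB : 0 < dB i z := norm_pos_iff.mpr (k4 (by
    rw [eP]; exact mul_ne_zero (mul_ne_zero hz1 hz1) hD))
  refine ⟨hA, hB, k2, ?_⟩
  change dB i z * _ = _ * dA i z at k1
  rw [eY, eP, norm_mul, norm_mul, norm_pow] at k1
  have hp : 0 < (‖z - 1‖ ^ (Fintype.card (FQ i))) ^ 2 := by
    have : 0 < ‖z - 1‖ := norm_pos_iff.mpr (sub_ne_zero.mpr h1)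
    positivity
  apply mul_right_cancel₀ hp.ne'
  rw [k1]
  ring

theorem log_dB {i : ℕ} {z : ℂ} (hz : ‖z‖ = 1) (h1 : z ≠ 1) :
    Real.log (dB i z) = (2 * Fintype.card (FQ i) : ℝ) • Real.log ‖z - 1‖
      + (2 * Real.log ‖Dseq i‖ + Real.log (dA i z)) := by
  obtain ⟨hA, -, -, h⟩ := dets (i := i) hz h1
  have hz1 : 0 < ‖z - 1‖ := norm_pos_iff.mpr (sub_ne_zero.mpr h1)
  have hD : 0 < ‖Dseq i‖ := lt_of_lt_of_le one_pos (Dseq_norm_ge i)
  rw [h, Real.log_mul (by positivity) hA.ne', Real.log_mul (by positivity) (by positivity),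
    Real.log_pow, Real.log_pow, Real.log_pow, smul_eq_mul]
  push_cast
  ring

theorem log_dC {i : ℕ} {z : ℂ} (hz : ‖z‖ = 1) (h1 : z ≠ 1) :
    Real.log (dC i z) = Real.log (dB i z) + Real.log (dA i z) := by
  obtain ⟨hA, hB, h, -⟩ := dets (i := i) hz h1
  rw [h, Real.log_mul hB.ne' hA.ne']

theorem neg_one_circle : ‖(-1 : ℂ)‖ = 1 ∧ (-1 : ℂ) ≠ 1 := by
  constructor
  · simp
  · intro h
    have := congrArg Complex.re h
    norm_num at this

theorem nondegA (i : ℕ) : Nondeg (prF i) prZ (adjZ pres4.b1 * pres4.b1) :=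
  ⟨-1, neg_one_circle.1, norm_pos_iff.mp (dets neg_one_circle.1 neg_one_circle.2).1⟩

theorem nondegB (i : ℕ) : Nondeg (prF i) prZ (pres4.b2 * adjZ pres4.b2) :=
  ⟨-1, neg_one_circle.1, norm_pos_iff.mp (dets neg_one_circle.1 neg_one_circle.2).2.1⟩

theorem nondegC (i : ℕ) :
    Nondeg (prF i) prZ (adjZ pres4.b2 * pres4.b2 + pres4.b1 * adjZ pres4.b1) := by
  refine ⟨-1, neg_one_circle.1, norm_pos_iff.mp ?_⟩
  obtain ⟨h1, h2, h3, -⟩ := dets (i := i) neg_one_circle.1 neg_one_circle.2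
  change 0 < dC i (-1)
  rw [h3]
  positivity

theorem nondeg_pres4 (i : ℕ) : ∀ n, Nondeg (prF i) prZ (pres4.fiveManifold.lapM n) :=
  pres4.nondeg_all (prF i) prZ (nondegA i) (nondegC i) (nondegB i)

theorem logDet_B (i : ℕ) : logDet (prF i) prZ (pres4.b2 * adjZ pres4.b2)
    = 2 * (Real.log ‖Dseq i‖ / Fintype.card (FQ i))
      + logDet (prF i) prZ (adjZ pres4.b1 * pres4.b1) := by
  rw [logDet_eq, logDet_eq]
  have h1 : Real.circleAverage (fun z => Real.log (dB i z)) 0 1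
      = Real.circleAverage (fun z => (2 * Fintype.card (FQ i) : ℝ) • Real.log ‖z - 1‖
      + (2 * Real.log ‖Dseq i‖ + Real.log (dA i z))) 0 1 :=
    circleAverage_congr_finite {1} (Set.finite_singleton 1) fun z hz h => log_dB hz h
  have c1 : CircleIntegrable (fun z : ℂ => (2 * Fintype.card (FQ i) : ℝ) • Real.log ‖z - 1‖) 0 1 :=
    (circleIntegrable_log_norm_sub_const 1).const_smul
  have c2 : CircleIntegrable (fun z : ℂ => Real.log (dA i z)) 0 1 :=
    circleIntegrable_logDet _ _ (nondegA i)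
  have c3 : CircleIntegrable (fun z : ℂ => 2 * Real.log ‖Dseq i‖) 0 1 := circleIntegrable_const _ _ _
  change 1 / _ * Real.circleAverage (fun z => Real.log (dB i z)) 0 1
    = _ + 1 / _ * Real.circleAverage (fun z => Real.log (dA i z)) 0 1
  have c23 : CircleIntegrable (fun z : ℂ => 2 * Real.log ‖Dseq i‖ + Real.log (dA i z)) 0 1 :=
    c3.add c2
  rw [h1, Real.circleAverage_fun_add c1 c23, Real.circleAverage_fun_add c3 c2,
    Real.circleAverage_fun_smul, circleAverage_log_sub_one, Real.circleAverage_const]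
  simp only [smul_eq_mul]
  ring

theorem logDet_C (i : ℕ) :
    logDet (prF i) prZ (adjZ pres4.b2 * pres4.b2 + pres4.b1 * adjZ pres4.b1)
    = logDet (prF i) prZ (pres4.b2 * adjZ pres4.b2)
      + logDet (prF i) prZ (adjZ pres4.b1 * pres4.b1) := by
  rw [logDet_eq, logDet_eq, logDet_eq]
  have h1 : Real.circleAverage (fun z => Real.log (dC i z)) 0 1
      = Real.circleAverage (fun z => Real.log (dB i z) + Real.log (dA i z)) 0 1 :=
    circleAverage_congr_finite {1} (Set.finite_singleton 1) fun z hz h => log_dC hz h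
  have c1 : CircleIntegrable (fun z : ℂ => Real.log (dB i z)) 0 1 :=
    circleIntegrable_logDet _ _ (nondegB i)
  have c2 : CircleIntegrable (fun z : ℂ => Real.log (dA i z)) 0 1 :=
    circleIntegrable_logDet _ _ (nondegA i)
  change 1 / _ * Real.circleAverage (fun z => Real.log (dC i z)) 0 1
    = 1 / _ * Real.circleAverage (fun z => Real.log (dB i z)) 0 1
      + 1 / _ * Real.circleAverage (fun z => Real.log (dA i z)) 0 1
  rw [h1, Real.circleAverage_fun_add c1 c2]
  ring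

/-- the levels -/
theorem level_pres4 (i : ℕ) (hi : 1 ≤ i) : (pres4.fiveManifold.quot (chainZ i)).DetL2Acyclic ∧
    (pres4.fiveManifold.quot (chainZ i)).l2torsion
      = -2 * (Real.log ‖Dseq i‖ / (Nat.card (Heis ℤ ⧸ chain i) : ℝ)) := by
  obtain ⟨h1, h2⟩ := pres4.fiveManifold.level' (chainZ i) (prF i) prZ (mem_chainZ hi)
    (nondeg_pres4 i)
  refine ⟨h1, ?_⟩
  rw [h2, pres4.sum_logDet, logDet_C, logDet_B, Nat.card_eq_fintype_card]
  ring

theorem acyclic_pres4 : pres4.fiveManifold.DetL2Acyclic :=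
  pres4.fiveManifold.limit' chainZ chainZ_anti chainZ_inf FQ prF (fun _ => prZ)
    (fun i hi g => mem_chainZ hi g) (fun _ _ => nondeg_pres4 _)

theorem no_limit_pres4 (L : ℝ) : ¬ Filter.Tendsto
    (fun i => (pres4.fiveManifold.quot (chainZ i)).l2torsion) Filter.atTop (𝓝 L) := by
  intro h
  apply no_limit (-(1 / 2) * L)
  have h1 : Filter.Tendsto (fun i => -(1 / 2) * (pres4.fiveManifold.quot (chainZ i)).l2torsion)
    Filter.atTop (𝓝 (-(1 / 2) * L)) := h.const_mul _
  refine h1.congr' ?_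
  filter_upwards [Filter.eventually_ge_atTop 1] with i hi
  rw [(level_pres4 i hi).2]
  ring

theorem pos_pres4 (i n : ℕ) : 0 < fkDet ((pres4.fiveManifold.quot (chainZ i)).laplacian n) := by
  rcases Nat.eq_zero_or_pos i with rfl | hi
  · rw [FreeCx.laplacian_eq]
    have : Finite (HZ ⧸ chainZ 0) := by
      rw [chainZ_zero]
      infer_instance
    exact fkDet_pos_finite _
  · exact ((level_pres4 i hi).1 n).2

end Pool.Agent.TH630.Tor
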