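import Pool.Agent.TH630.Tor.Pres
import Pool.Agent.TH630.Tor.Blk
import Pool.Agent.Helper993.HeisDet

/-!
The presentation `⟨u, t, y, s | [s,u], [s,t], y (t y¹⁰ t⁻¹) (u t y⁻¹⁰ t⁻¹ u⁻¹)⟩` with its
homomorphism to `Heis × ℤ`.
-/

open scoped Matrix

noncomputable section

namespace Pool.Agent.TH630.Tor

open Pool.Agent.Helper993.FK Pool.Agent.Helper993.HeisDet

/-- The product of the discrete Heisenberg group and `ℤ`. -/
abbrev HZ : Type := Heis ℤ × Multiplicative ℤ

/-- The homomorphism from the free group on `u, t, y, s`: `y` goes to the identity. -/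
def φ4 : FreeGroup (Fin 4) →* HZ :=
  FreeGroup.lift ![(uu, 1), (tt, 1), (1, 1), (1, Multiplicative.ofAdd 1)]

/-- the generators -/
abbrev x4 (i : Fin 4) : FreeGroup (Fin 4) := FreeGroup.of i

/-- `y (t y¹⁰ t⁻¹) (u t y⁻¹⁰ t⁻¹ u⁻¹)` -/
def relW : FreeGroup (Fin 4) :=
  x4 2 * (x4 1 * x4 2 ^ 10 * (x4 1)⁻¹) * (x4 0 * x4 1 * (x4 2 ^ 10)⁻¹ * (x4 1)⁻¹ * (x4 0)⁻¹)

@[simp] theorem φ4_0 : φ4 (x4 0) = (uu, 1) := by simp [φ4]
@[simp] theorem φ4_1 : φ4 (x4 1) = (tt, 1) := by simp [φ4]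
@[simp] theorem φ4_2 : φ4 (x4 2) = 1 := by simp [φ4]
@[simp] theorem φ4_3 : φ4 (x4 3) = (1, Multiplicative.ofAdd 1) := by simp [φ4]

/-- the presentation -/
def pres4 : Pres HZ where
  m := 4
  k := 3
  rel := ![comm (x4 3) (x4 0), comm (x4 3) (x4 1), relW]
  φ := φ4
  φ_rel j := by
    fin_cases j
    · change φ4 (comm (x4 3) (x4 0)) = 1
      simp [comm]
    · change φ4 (comm (x4 3) (x4 1)) = 1
      simp [comm]
    · change φ4 relW = 1
      simp [relW]

theorem fox_pow_of_one {α G : Type} [DecidableEq α] [Group G] (φ : FreeGroup α →* G) (x : α)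
    (w : FreeGroup α) (h : φ w = 1) (n : ℕ) : fox φ x (w ^ n) = (n : MonoidAlgebra ℤ G) * fox φ x w := by
  induction n with
  | zero => simp [fox_one]
  | succ n ih =>
    rw [pow_succ, fox_mul, ih, map_pow, h, one_pow, single_one1, one_mul]
    push_cast
    rw [add_mul, one_mul]

/-- `s - 1` -/
def sm1 : MonoidAlgebra ℤ HZ := MonoidAlgebra.single (1, Multiplicative.ofAdd 1) 1 - 1

/-- `1 + 10 t - 10 u t` -/
def elA : MonoidAlgebra ℤ HZ :=
  MonoidAlgebra.single 1 1 + MonoidAlgebra.single (tt, 1) 10 - MonoidAlgebra.single (uu * tt, 1) 10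

theorem single_pair_one : (MonoidAlgebra.single ((1 : Heis ℤ), (1 : Multiplicative ℤ)) 1 :
    MonoidAlgebra ℤ HZ) = 1 := rfl

theorem single_mul_ten {G : Type} [Group G] (g : G) :
    (MonoidAlgebra.single g 1 * 10 : MonoidAlgebra ℤ G) = MonoidAlgebra.single g 10 := by
  have h : (10 : MonoidAlgebra ℤ G) = MonoidAlgebra.single 1 10 := by
    have := MonoidAlgebra.intCast_def (R := ℤ) (M := G) 10
    simpa using this
  rw [h, MonoidAlgebra.single_mul_single]
  simp

/-- the Fox derivatives with respect to `u`, `t`, `y` -/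
theorem colL_b2 : colL (s := 3) (t := 1) (r := 3) pres4.b2 = Matrix.diagonal ![sm1, sm1, elA] := by
  ext1 i j
  have h : colL (s := 3) (t := 1) (r := 3) pres4.b2 i j
    = fox φ4 (Fin.castAdd 1 j) ((![comm (x4 3) (x4 0), comm (x4 3) (x4 1), relW] :
      Fin 3 → FreeGroup (Fin 4)) i) := rfl
  rw [h]
  fin_cases i <;> fin_cases j <;>
    simp [comm, relW, fox_mul, fox_inv, fox_of, fox_pow_of_one, sm1, elA, Matrix.diagonal,
      MonoidAlgebra.single_mul_single, single_pair_one, single_one1, single_mul_ten, sub_eq_add_neg]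

theorem rowD_b1 : rowD (s := 3) (t := 1) (r := 1) pres4.b1 = Matrix.diagonal ![sm1] := by
  ext1 i j
  have h : rowD (s := 3) (t := 1) (r := 1) pres4.b1 i j
    = MonoidAlgebra.single (φ4 (x4 (Fin.natAdd 3 i))) 1 - 1 := rfl
  rw [h]
  fin_cases i
  fin_cases j
  simp [sm1, Matrix.diagonal]

end Pool.Agent.TH630.Tor
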