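import Pool.Agent.TH630.Tor.Pres

/-!
Finite `3`-dimensional complexes, mapping tori of surfaces, and closed `7`-manifolds: definitions.
-/

open scoped Matrix

noncomputable section

namespace Pool.Agent.TH630.Tor

open Pool.Agent.Helper993.FK

/-- A finite `3`-dimensional based free complex whose `2`-skeleton is the chain complex of a
presentation complex. -/
structure ThreeCx (G : Type) [Group G] extends Pres G where
  /-- the number of `3`-cells -/
  l : ℕ
  /-- the boundary `C_3 → C_2` -/
  b3 : Matrix (Fin l) (Fin k) (MonoidAlgebra ℤ G)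
  b3_mul_b2 : b3 * toPres.b2 = 0

namespace ThreeCx

variable {G : Type} [Group G] (X : ThreeCx G)

/-- the numbers of cells -/
def rk3 : ℕ → ℕ
  | 0 => 1
  | 1 => X.m
  | 2 => X.k
  | 3 => X.l
  | _ + 4 => 0

/-- the boundaries -/
def bd3 : ∀ n, Matrix (Fin (X.rk3 (n + 1))) (Fin (X.rk3 n)) (MonoidAlgebra ℤ G)
  | 0 => X.b1
  | 1 => X.b2
  | 2 => X.b3
  | _ + 3 => 0

/-- The chain complex. -/
def toCx : FreeCx G where
  rank := X.rk3
  dim := 3
  rank_eq_zero n hn := by
    obtain ⟨m, rfl⟩ : ∃ m, n = m + 4 := ⟨n - 4, by omega⟩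
    rfl
  d := X.bd3
  d_comp_d n := by
    match n with
    | 0 => exact X.b2_mul_b1
    | 1 => exact X.b3_mul_b2
    | n + 2 => exact Matrix.zero_mul _

/-- the numbers of handles of the double of the thickening -/
def rk7 : ℕ → ℕ
  | 0 => 1
  | 1 => X.m
  | 2 => X.k
  | 3 => X.l
  | 4 => X.l
  | 5 => X.k
  | 6 => X.m
  | 7 => 1
  | _ + 8 => 0

/-- the boundaries -/
def bd7 : ∀ n, Matrix (Fin (X.rk7 (n + 1))) (Fin (X.rk7 n)) (MonoidAlgebra ℤ G)
  | 0 => X.b1
  | 1 => X.b2
  | 2 => X.b3
  | 3 => 0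
  | 4 => adjZ X.b3
  | 5 => adjZ X.b2
  | 6 => adjZ X.b1
  | _ + 7 => 0

/-- The chain complex `C_* ⊕ C^{7-*}` of the closed `7`-manifold which is the double of a
`7`-dimensional thickening of the complex. -/
def sevenManifold : FreeCx G where
  rank := X.rk7
  dim := 7
  rank_eq_zero n hn := by
    obtain ⟨m, rfl⟩ : ∃ m, n = m + 8 := ⟨n - 8, by omega⟩
    rfl
  d := X.bd7
  d_comp_d n := by
    match n with
    | 0 => exact X.b2_mul_b1
    | 1 => exact X.b3_mul_b2
    | 2 => exact Matrix.zero_mul _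
    | 3 => exact Matrix.mul_zero _
    | 4 =>
      change adjZ X.b2 * adjZ X.b3 = 0
      rw [← adjZ_mul, X.b3_mul_b2, adjZ_zero]
    | 5 =>
      change adjZ X.b1 * adjZ X.b2 = 0
      rw [← adjZ_mul, X.b2_mul_b1, adjZ_zero]
    | n + 6 => exact Matrix.zero_mul _

end ThreeCx

section torus

variable {g : ℕ} {G : Type} [Group G]

/-- The inclusion of the free group on `x_0, …, x_{2g-1}` into the free group with one more
generator `s`. -/
def emb (g : ℕ) : FreeGroup (Fin (2 * g)) →* FreeGroup (Fin (2 * g + 1)) :=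
  FreeGroup.map (Fin.castAdd 1)

/-- the generator `s` -/
def sGen (g : ℕ) : FreeGroup (Fin (2 * g + 1)) := FreeGroup.of (Fin.last (2 * g))

/-- The relators `s f(x_j) s⁻¹ x_j⁻¹` and `[x_0, x_1] ⋯ [x_{2g-2}, x_{2g-1}]` of the fundamental
group of the mapping torus. -/
def torusRel (f : FreeGroup (Fin (2 * g)) ≃* FreeGroup (Fin (2 * g))) :
    Fin (2 * g + 1) → FreeGroup (Fin (2 * g + 1)) :=
  Fin.addCases (fun j => sGen g * emb g (f (FreeGroup.of j)) * (sGen g)⁻¹
    * (emb g (FreeGroup.of j))⁻¹) (fun _ => emb g (surfaceRel g))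

/-- The presentation of the fundamental group of the mapping torus of an automorphism `f` which
fixes the surface relator, with a homomorphism to `G`. -/
def torusPres (f : FreeGroup (Fin (2 * g)) ≃* FreeGroup (Fin (2 * g)))
    (φ : FreeGroup (Fin (2 * g + 1)) →* G) (h : ∀ j, φ (torusRel f j) = 1) : Pres G where
  m := 2 * g + 1
  k := 2 * g + 1
  rel := torusRel f
  φ := φ
  φ_rel := h

/-- The boundary of the `3`-cell `s × (surface cell)`: its faces are the surface cell, translated by
`s` and with the opposite sign, and the cells `s × x_j` with the negatives of the Fox derivatives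
of the surface relator. -/
def torusB3 (φ : FreeGroup (Fin (2 * g + 1)) →* G) :
    Matrix (Fin 1) (Fin (2 * g + 1)) (MonoidAlgebra ℤ G) :=
  Matrix.of fun _ => Fin.addCases (fun j => -fox (φ.comp (emb g)) j (surfaceRel g))
    (fun _ => MonoidAlgebra.single (φ (sGen g)) 1 - 1)

end torus

end Pool.Agent.TH630.Tor
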