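import Pool.Agent.TH630.Tor.Auto
import Pool.Agent.TH630.Tor.TorusDef
import Pool.Agent.TH630.Tor.FiveData

/-!
Jacobians of the automorphisms.
-/

open scoped Matrix

noncomputable section

namespace Pool.Agent.TH630.Tor

open Pool.Agent.Helper993.HeisDet

/-- `x_0 ↦ t⁻¹`, `x_2 ↦ u⁻¹`, the other generators go to the identity -/
def ψ8 : F8 →* HZ := FreeGroup.lift ![(tt⁻¹, 1), 1, (uu⁻¹, 1), 1, 1, 1, 1, 1]

@[simp] theorem ψ8_0 : ψ8 (x8 0) = (tt⁻¹, 1) := FreeGroup.lift_apply_of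
@[simp] theorem ψ8_1 : ψ8 (x8 1) = 1 := FreeGroup.lift_apply_of
@[simp] theorem ψ8_2 : ψ8 (x8 2) = (uu⁻¹, 1) := FreeGroup.lift_apply_of
@[simp] theorem ψ8_3 : ψ8 (x8 3) = 1 := FreeGroup.lift_apply_of
@[simp] theorem ψ8_4 : ψ8 (x8 4) = 1 := FreeGroup.lift_apply_of
@[simp] theorem ψ8_5 : ψ8 (x8 5) = 1 := FreeGroup.lift_apply_of
@[simp] theorem ψ8_6 : ψ8 (x8 6) = 1 := FreeGroup.lift_apply_of
@[simp] theorem ψ8_7 : ψ8 (x8 7) = 1 := FreeGroup.lift_apply_of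

@[simp] theorem ψ8_cC : ψ8 cC = 1 := by simp [cC]
@[simp] theorem ψ8_cE : ψ8 cE = 1 := by simp [cE]
@[simp] theorem ψ8_gT : ψ8 gT = (tt, 1) := by simp [gT]
@[simp] theorem ψ8_gU : ψ8 gU = (uu, 1) := by simp [gU]
@[simp] theorem ψ8_kT : ψ8 kT = 1 := by simp [kT]

/-- The Jacobian. -/
def Jac (f : F8 →* F8) : Matrix (Fin 8) (Fin 8) (MonoidAlgebra ℤ HZ) :=
  Matrix.of fun j k => fox ψ8 k (f (x8 j))

theorem Jac_comp (f₁ f₂ : F8 →* F8) (h : ψ8.comp f₁ = ψ8) :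
    Jac (f₁.comp f₂) = Jac f₂ * Jac f₁ := by
  ext1 j k
  rw [Matrix.mul_apply]
  have := fox_chain ψ8 f₁ k (f₂ (x8 j))
  rw [h] at this
  exact this

theorem Jac_id : Jac (MonoidHom.id F8) = 1 := by
  ext1 j k
  rw [Jac, Matrix.of_apply, MonoidHom.id_apply, fox_of, Matrix.one_apply]

/-- `δ` -/
abbrev dl (j k : Fin 8) : MonoidAlgebra ℤ HZ := if j = k then 1 else 0

theorem fox_x8 (j k : Fin 8) : fox ψ8 k (x8 j) = dl j k := fox_of ψ8 k j

theorem fox_cC (k : Fin 8) : fox ψ8 k cC = 0 := by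
  simp only [cC, fox_mul, fox_inv, fox_x8, map_mul, map_inv, ψ8_4, ψ8_5, inv_one, mul_one,
    single_one1, one_mul]
  abel

theorem fox_cE (k : Fin 8) : fox ψ8 k cE = 0 := by
  simp only [cE, fox_mul, fox_inv, fox_x8, map_mul, map_inv, ψ8_6, ψ8_7, inv_one, mul_one,
    single_one1, one_mul]
  abel

/-- conjugation of an element of the kernel with vanishing derivatives -/
theorem fox_conj_ker (k : Fin 8) (g w : F8) (h : ψ8 w = 1) :
    fox ψ8 k (g * w * g⁻¹) = MonoidAlgebra.single (ψ8 g) 1 * fox ψ8 k w := by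
  rw [fox_mul, fox_mul, fox_inv, map_mul, h, mul_one, mul_neg, ← mul_assoc, single_mul_single1,
    mul_inv_cancel, single_one1, one_mul]
  abel

theorem fox_kT (k : Fin 8) : fox ψ8 k kT = 0 := by
  rw [kT, fox_mul, fox_conj_ker k gT cC ψ8_cC, fox_cC, fox_inv, fox_cC]
  simp

/-- `T`, `U` -/
def eT : MonoidAlgebra ℤ HZ := MonoidAlgebra.single (tt, 1) 1
def eU : MonoidAlgebra ℤ HZ := MonoidAlgebra.single (uu, 1) 1
def eT' : MonoidAlgebra ℤ HZ := MonoidAlgebra.single (tt⁻¹, 1) 1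
def eU' : MonoidAlgebra ℤ HZ := MonoidAlgebra.single (uu⁻¹, 1) 1

/-- `1 + a E₄₆ + b E₇₅` -/
def Mab (a b : MonoidAlgebra ℤ HZ) : Matrix (Fin 8) (Fin 8) (MonoidAlgebra ℤ HZ) :=
  1 + Matrix.single 4 6 a + Matrix.single 7 5 b

/-- `diag (1, 1, 1, 1, t, t, 1, 1)` -/
def Dt (t : MonoidAlgebra ℤ HZ) : Matrix (Fin 8) (Fin 8) (MonoidAlgebra ℤ HZ) :=
  Matrix.diagonal ![1, 1, 1, 1, t, t, 1, 1]

/-- the exchange of the handles -/
def Psig : Matrix (Fin 8) (Fin 8) (MonoidAlgebra ℤ HZ) :=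
  Matrix.of fun j k => dl (![0, 1, 2, 3, 6, 7, 4, 5] j) k

theorem Jac_tau : Jac tauF = Mab 1 (-1) := by
  ext1 j k
  rw [Jac, Matrix.of_apply]
  fin_cases j
  · change fox ψ8 k (x8 0) = _
    rw [fox_x8]
    simp [Mab, Matrix.one_apply, Matrix.single_apply]
  · change fox ψ8 k (x8 1) = _
    rw [fox_x8]
    simp [Mab, Matrix.one_apply, Matrix.single_apply]
  · change fox ψ8 k (x8 2) = _
    rw [fox_x8]
    simp [Mab, Matrix.one_apply, Matrix.single_apply]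
  · change fox ψ8 k (x8 3) = _
    rw [fox_x8]
    simp [Mab, Matrix.one_apply, Matrix.single_apply]
  · change fox ψ8 k (x8 4 * x8 6) = _
    rw [fox_mul, fox_x8, fox_x8]
    simp [Mab, Matrix.one_apply, Matrix.single_apply, single_one1]
  · change fox ψ8 k ((x8 6)⁻¹ * x8 5 * x8 6) = _
    simp only [fox_mul, fox_inv, fox_x8, map_mul, map_inv, ψ8_6, ψ8_5, inv_one, mul_one,
      single_one1, one_mul]
    simp [Mab, Matrix.one_apply, Matrix.single_apply]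
  · change fox ψ8 k ((x8 6)⁻¹ * x8 5 * x8 6 * (x8 5)⁻¹ * x8 6) = _
    simp only [fox_mul, fox_inv, fox_x8, map_mul, map_inv, ψ8_6, ψ8_5, inv_one, mul_one,
      single_one1, one_mul]
    simp [Mab, Matrix.one_apply, Matrix.single_apply]
  · change fox ψ8 k (x8 7 * (x8 6)⁻¹ * (x8 5)⁻¹ * x8 6) = _
    simp only [fox_mul, fox_inv, fox_x8, map_mul, map_inv, ψ8_6, ψ8_5, ψ8_7, inv_one, mul_one,
      single_one1, one_mul]
    simp only [Mab, Matrix.add_apply, Matrix.one_apply, Matrix.single_apply]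
    by_cases h : (5 : Fin 8) = k <;> by_cases h' : (6 : Fin 8) = k <;> simp [dl, h, h']

theorem Jac_sig : Jac sigF = Psig := by
  ext1 j k
  rw [Jac, Matrix.of_apply, Psig, Matrix.of_apply]
  have h6 : fox ψ8 k (cC * x8 6 * cC⁻¹) = dl 6 k := by
    rw [fox_conj_ker k cC _ ψ8_6, ψ8_cC, single_one1, one_mul, fox_x8]
  have h7 : fox ψ8 k (cC * x8 7 * cC⁻¹) = dl 7 k := by
    rw [fox_conj_ker k cC _ ψ8_7, ψ8_cC, single_one1, one_mul, fox_x8]
  fin_cases j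
  · exact fox_x8 0 k
  · exact fox_x8 1 k
  · exact fox_x8 2 k
  · exact fox_x8 3 k
  · exact h6
  · exact h7
  · exact fox_x8 4 k
  · exact fox_x8 5 k

/-- an element with vanishing derivatives in the kernel may be cancelled -/
theorem fox_ker_mul (k : Fin 8) (v w : F8) (h : ψ8 v = 1) (h' : fox ψ8 k v = 0) :
    fox ψ8 k (v * w) = fox ψ8 k w := by
  rw [fox_mul, h, h', single_one1, one_mul, zero_add]

theorem fox_ker_inv (k : Fin 8) (v : F8) (h' : fox ψ8 k v = 0) : fox ψ8 k v⁻¹ = 0 := by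
  rw [fox_inv, h', mul_zero, neg_zero]

theorem Dt_apply (t : MonoidAlgebra ℤ HZ) (j k : Fin 8) :
    Dt t j k = (![1, 1, 1, 1, t, t, 1, 1] : Fin 8 → MonoidAlgebra ℤ HZ) j * dl j k := by
  rw [Dt, Matrix.diagonal_apply]
  by_cases h : j = k <;> simp [dl, h]

theorem Jac_pU : Jac pUF = Dt eU := by
  ext1 j k
  rw [Jac, Matrix.of_apply, Dt_apply]
  fin_cases j
  · exact (fox_x8 0 k).trans (one_mul _).symm
  · exact (fox_x8 1 k).trans (one_mul _).symm
  · exact (fox_x8 2 k).trans (one_mul _).symm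
  · change fox ψ8 k (gU * cC * gU⁻¹ * x8 3) = 1 * dl 3 k
    rw [fox_ker_mul k _ _ (by simp) (by rw [fox_conj_ker k gU cC ψ8_cC, fox_cC, mul_zero]), fox_x8,
      one_mul]
  · change fox ψ8 k (gU * x8 4 * gU⁻¹) = eU * dl 4 k
    rw [fox_conj_ker k gU _ ψ8_4, fox_x8, ψ8_gU]
    rfl
  · change fox ψ8 k (gU * x8 5 * gU⁻¹) = eU * dl 5 k
    rw [fox_conj_ker k gU _ ψ8_5, fox_x8, ψ8_gU]
    rfl
  · exact (fox_x8 6 k).trans (one_mul _).symm
  · exact (fox_x8 7 k).trans (one_mul _).symm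

theorem Jac_pT : Jac pTF = Dt eT := by
  ext1 j k
  rw [Jac, Matrix.of_apply, Dt_apply]
  have hk : ∀ w, fox ψ8 k (kT * w * kT⁻¹) = fox ψ8 k w := by
    intro w
    rw [mul_assoc, fox_ker_mul k _ _ ψ8_kT (fox_kT k), fox_mul,
      fox_ker_inv k _ (fox_kT k), mul_zero, add_zero]
  fin_cases j
  · exact (fox_x8 0 k).trans (one_mul _).symm
  · change fox ψ8 k (gT * cC * gT⁻¹ * x8 1) = 1 * dl 1 k
    rw [fox_ker_mul k _ _ (by simp) (by rw [fox_conj_ker k gT cC ψ8_cC, fox_cC, mul_zero]), fox_x8,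
      one_mul]
  · exact (hk (x8 2)).trans ((fox_x8 2 k).trans (one_mul _).symm)
  · exact (hk (x8 3)).trans ((fox_x8 3 k).trans (one_mul _).symm)
  · change fox ψ8 k (gT * x8 4 * gT⁻¹) = eT * dl 4 k
    rw [fox_conj_ker k gT _ ψ8_4, fox_x8, ψ8_gT]
    rfl
  · change fox ψ8 k (gT * x8 5 * gT⁻¹) = eT * dl 5 k
    rw [fox_conj_ker k gT _ ψ8_5, fox_x8, ψ8_gT]
    rfl
  · exact (fox_x8 6 k).trans (one_mul _).symm
  · exact (fox_x8 7 k).trans (one_mul _).symm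

/-- the automorphism is compatible with the homomorphism to `Heis × ℤ` -/
def Inv8 (f : MulAut F8) : Prop := ∀ w, ψ8 (f w) = ψ8 w

theorem Inv8.mul {f g : MulAut F8} (hf : Inv8 f) (hg : Inv8 g) : Inv8 (f * g) := fun w => by
  rw [MulAut.mul_apply, hf, hg]

theorem Inv8.inv {f : MulAut F8} (hf : Inv8 f) : Inv8 f⁻¹ := fun w => by
  rw [← hf (f⁻¹ w), MulAut.apply_inv_self]

theorem Inv8.one : Inv8 1 := fun _ => rfl

theorem Inv8.pow {f : MulAut F8} (hf : Inv8 f) (n : ℕ) : Inv8 (f ^ n) := by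
  induction n with
  | zero => rw [pow_zero]; exact Inv8.one
  | succ n ih => rw [pow_succ]; exact ih.mul hf

theorem inv8_of (f : MulAut F8) (h : ∀ i, ψ8 (f (x8 i)) = ψ8 (x8 i)) : Inv8 f := by
  have : ψ8.comp f.toMonoidHom = ψ8 := hom_ext8 h
  exact fun w => congrFun (congrArg DFunLike.coe this) w

/-- the Jacobian of an automorphism -/
def JacA (f : MulAut F8) : Matrix (Fin 8) (Fin 8) (MonoidAlgebra ℤ HZ) := Jac f.toMonoidHom

theorem JacA_mul {f : MulAut F8} (hf : Inv8 f) (g : MulAut F8) :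
    JacA (f * g) = JacA g * JacA f := by
  unfold JacA
  rw [← Jac_comp f.toMonoidHom g.toMonoidHom (MonoidHom.ext fun w => hf w)]
  rfl

theorem JacA_one : JacA 1 = 1 := Jac_id

theorem inv8_tau : Inv8 tau := by
  apply inv8_of
  intro i
  fin_cases i
  · rfl
  · rfl
  · rfl
  · rfl
  · change ψ8 (x8 4 * x8 6) = _
    simp
  · change ψ8 ((x8 6)⁻¹ * x8 5 * x8 6) = _
    simp
  · change ψ8 ((x8 6)⁻¹ * x8 5 * x8 6 * (x8 5)⁻¹ * x8 6) = _
    simp
  · change ψ8 (x8 7 * (x8 6)⁻¹ * (x8 5)⁻¹ * x8 6) = _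
    simp

theorem inv8_sig : Inv8 sig := by
  apply inv8_of
  intro i
  fin_cases i
  · rfl
  · rfl
  · rfl
  · rfl
  · change ψ8 (cC * x8 6 * cC⁻¹) = _
    simp
  · change ψ8 (cC * x8 7 * cC⁻¹) = _
    simp
  · change ψ8 (x8 4) = _
    simp
  · change ψ8 (x8 5) = _
    simp

theorem inv8_pU : Inv8 pU := by
  apply inv8_of
  intro i
  fin_cases i
  · rfl
  · rfl
  · rfl
  · change ψ8 (gU * cC * gU⁻¹ * x8 3) = _
    simp
  · change ψ8 (gU * x8 4 * gU⁻¹) = _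
    simp
  · change ψ8 (gU * x8 5 * gU⁻¹) = _
    simp
  · rfl
  · rfl

theorem inv8_pT : Inv8 pT := by
  apply inv8_of
  intro i
  fin_cases i
  · rfl
  · change ψ8 (gT * cC * gT⁻¹ * x8 1) = _
    simp
  · change ψ8 (kT * x8 2 * kT⁻¹) = _
    simp
  · change ψ8 (kT * x8 3 * kT⁻¹) = _
    simp
  · change ψ8 (gT * x8 4 * gT⁻¹) = _
    simp
  · change ψ8 (gT * x8 5 * gT⁻¹) = _
    simp
  · rfl
  · rfl

theorem Mab_mul (a b a' b' : MonoidAlgebra ℤ HZ) : Mab a b * Mab a' b' = Mab (a + a') (b + b') := by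
  unfold Mab
  simp only [add_mul, mul_add, one_mul, mul_one]
  rw [Matrix.single_mul_single_of_ne _ _ _ _ (by decide) _,
    Matrix.single_mul_single_of_ne _ _ _ _ (by decide) _,
    Matrix.single_mul_single_of_ne _ _ _ _ (by decide) _,
    Matrix.single_mul_single_of_ne _ _ _ _ (by decide) _, Matrix.single_add, Matrix.single_add]
  abel

theorem Mab_zero : Mab 0 0 = 1 := by simp [Mab]

theorem Dt_mul (t t' : MonoidAlgebra ℤ HZ) : Dt t * Dt t' = Dt (t * t') := by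
  unfold Dt
  rw [Matrix.diagonal_mul_diagonal]
  congr 1
  ext1 i
  fin_cases i <;> simp

theorem Dt_one : Dt 1 = 1 := by
  unfold Dt
  have : (![1, 1, 1, 1, 1, 1, 1, 1] : Fin 8 → MonoidAlgebra ℤ HZ) = 1 := by
    ext1 i
    fin_cases i <;> rfl
  rw [this]
  exact Matrix.diagonal_one

theorem Dt_Mab_Dt (t t' a b : MonoidAlgebra ℤ HZ) (h : t * t' = 1) :
    Dt t * Mab a b * Dt t' = Mab (t * a) (b * t') := by
  unfold Mab
  simp only [mul_add, add_mul, mul_one]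
  rw [Dt_mul, h, Dt_one]
  congr 1
  · congr 1
    ext1 j k
    unfold Dt
    rw [Matrix.mul_diagonal, Matrix.diagonal_mul, Matrix.single_apply, Matrix.single_apply]
    by_cases h : 4 = j ∧ 6 = k
    · obtain ⟨rfl, rfl⟩ := h
      simp
    · rw [if_neg h, if_neg h]
      simp
  · ext1 j k
    unfold Dt
    rw [Matrix.mul_diagonal, Matrix.diagonal_mul, Matrix.single_apply, Matrix.single_apply]
    by_cases h : 7 = j ∧ 5 = k
    · obtain ⟨rfl, rfl⟩ := h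
      simp
    · rw [if_neg h, if_neg h]
      simp

end Pool.Agent.TH630.Tor
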