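import Pool.Agent.TH630.Tor.Jac

/-!
The automorphism `f8` and its Jacobian.
-/

open scoped Matrix

noncomputable section

namespace Pool.Agent.TH630.Tor

open Pool.Agent.Helper993.HeisDet

/-- The automorphism. -/
def f8 : MulAut F8 :=
  sig * (pT⁻¹ * tau ^ 16 * pT) * (pU⁻¹ * pT⁻¹ * (tau ^ 16)⁻¹ * pT * pU)

theorem inv8_f8 : Inv8 f8 :=
  (inv8_sig.mul ((inv8_pT.inv.mul (inv8_tau.pow 16)).mul inv8_pT)).mul
    ((((inv8_pU.inv.mul inv8_pT.inv).mul (inv8_tau.pow 16).inv).mul inv8_pT).mul inv8_pU)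

/-- fixing the relator -/
def Fix8 (f : MulAut F8) : Prop := f rel8 = rel8

theorem Fix8.mul {f g : MulAut F8} (hf : Fix8 f) (hg : Fix8 g) : Fix8 (f * g) := by
  unfold Fix8 at *
  rw [MulAut.mul_apply, hg, hf]

theorem Fix8.inv {f : MulAut F8} (hf : Fix8 f) : Fix8 f⁻¹ := by
  unfold Fix8 at *
  conv_lhs => rw [← hf]
  rw [MulAut.inv_apply_self]

theorem Fix8.pow {f : MulAut F8} (hf : Fix8 f) (n : ℕ) : Fix8 (f ^ n) := by
  induction n with
  | zero => rfl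
  | succ n ih => rw [pow_succ]; exact ih.mul hf

theorem fix8_f8 : Fix8 f8 := by
  have h1 : Fix8 sig := sig_rel
  have h2 : Fix8 pT := pT_rel
  have h3 : Fix8 pU := pU_rel
  have h4 : Fix8 tau := tau_rel
  exact (h1.mul ((h2.inv.mul (h4.pow 16)).mul h2)).mul
    ((((h3.inv.mul h2.inv).mul (h4.pow 16).inv).mul h2).mul h3)

theorem surfaceRel_four : surfaceRel 4 = rel8 := by
  have h : surfaceRel 4 = comm (x8 0) (x8 1) * (comm (x8 2) (x8 3) *
      (comm (x8 4) (x8 5) * (comm (x8 6) (x8 7) * 1))) := by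
    simp only [surfaceRel, List.ofFn_succ, List.ofFn_zero, List.prod_cons, List.prod_nil]
    rfl
  rw [h]
  simp only [comm, rel8, cC, cE, mul_one, mul_assoc]

theorem eT_mul : eT * eT' = 1 := by
  rw [eT, eT', single_mul_single1]
  simp [MonoidAlgebra.one_def]
  rfl

theorem eU_mul : eU * eU' = 1 := by
  rw [eU, eU', single_mul_single1]
  simp [MonoidAlgebra.one_def]
  rfl

theorem JacA_inv {f : MulAut F8} (hf : Inv8 f) (D : Matrix (Fin 8) (Fin 8) (MonoidAlgebra ℤ HZ))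
    (h : JacA f * D = 1) : JacA f⁻¹ = D := by
  have h1 : JacA f⁻¹ * JacA f = 1 := by
    rw [← JacA_mul hf, mul_inv_cancel, JacA_one]
  calc JacA f⁻¹ = JacA f⁻¹ * (JacA f * D) := by rw [h, mul_one]
    _ = D := by rw [← mul_assoc, h1, one_mul]

theorem JacA_tau_pow (n : ℕ) : JacA (tau ^ n) = Mab n (-n) := by
  induction n with
  | zero => rw [pow_zero, JacA_one]; simp [Mab_zero]
  | succ n ih =>
    rw [pow_succ, JacA_mul (inv8_tau.pow n), ih]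
    have : JacA tau = Mab 1 (-1) := Jac_tau
    rw [this, Mab_mul]
    congr 1
    · push_cast; abel
    · push_cast; abel

theorem JacA_pT : JacA pT = Dt eT := Jac_pT
theorem JacA_pU : JacA pU = Dt eU := Jac_pU
theorem JacA_sig : JacA sig = Psig := Jac_sig

theorem JacA_pT_inv : JacA pT⁻¹ = Dt eT' :=
  JacA_inv inv8_pT _ (by rw [JacA_pT, Dt_mul, eT_mul, Dt_one])

theorem JacA_pU_inv : JacA pU⁻¹ = Dt eU' :=
  JacA_inv inv8_pU _ (by rw [JacA_pU, Dt_mul, eU_mul, Dt_one])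

theorem JacA_tau_pow_inv (n : ℕ) : JacA (tau ^ n)⁻¹ = Mab (-n) n :=
  JacA_inv (inv8_tau.pow n) _ (by
    rw [JacA_tau_pow, Mab_mul, add_neg_cancel, neg_add_cancel, Mab_zero])

/-- `16 (t - u t)` -/
def ww : MonoidAlgebra ℤ HZ := 16 * (eT - eU * eT)

/-- `16 (t⁻¹ - t⁻¹ u⁻¹)` -/
def ww' : MonoidAlgebra ℤ HZ := 16 * (eT' - eT' * eU')

theorem JacA_f8 : JacA f8 = Mab ww (-ww') * Psig := by
  have hA : JacA (pT⁻¹ * tau ^ 16 * pT) = Mab (eT * 16) (-16 * eT') := by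
    rw [JacA_mul (inv8_pT.inv.mul (inv8_tau.pow 16)), JacA_mul inv8_pT.inv, JacA_pT, JacA_pT_inv,
      JacA_tau_pow, ← mul_assoc, Dt_Mab_Dt _ _ _ _ eT_mul]
    norm_cast
  have hB : JacA (pU⁻¹ * pT⁻¹ * (tau ^ 16)⁻¹ * pT * pU)
      = Mab (eU * (eT * (-16))) (16 * eT' * eU') := by
    rw [JacA_mul (((inv8_pU.inv.mul inv8_pT.inv).mul (inv8_tau.pow 16).inv).mul inv8_pT),
      JacA_mul ((inv8_pU.inv.mul inv8_pT.inv).mul (inv8_tau.pow 16).inv),
      JacA_mul (inv8_pU.inv.mul inv8_pT.inv), JacA_mul inv8_pU.inv, JacA_pU, JacA_pU_inv,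
      JacA_pT, JacA_pT_inv, JacA_tau_pow_inv]
    have h1 : Dt eT * (Mab (-((16 : ℕ) : MonoidAlgebra ℤ HZ)) ((16 : ℕ) : MonoidAlgebra ℤ HZ)
        * (Dt eT' * Dt eU')) = Mab (eT * (-16)) (16 * eT') * Dt eU' := by
      rw [← mul_assoc (Mab _ _), ← mul_assoc (Dt eT), ← mul_assoc (Dt eT),
        Dt_Mab_Dt _ _ _ _ eT_mul]
      norm_cast
    rw [h1, ← mul_assoc, Dt_Mab_Dt _ _ _ _ eU_mul]
  have hfA : Inv8 (pT⁻¹ * tau ^ 16 * pT) := (inv8_pT.inv.mul (inv8_tau.pow 16)).mul inv8_pT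
  rw [f8, JacA_mul (inv8_sig.mul hfA), JacA_mul inv8_sig, hA, hB, JacA_sig, ← mul_assoc, Mab_mul]
  congr 2
  · unfold ww
    rw [mul_sub]
    have e : ∀ x : MonoidAlgebra ℤ HZ, x * 16 = 16 * x := fun x =>
      ((Nat.cast_commute 16 x).eq.symm)
    rw [mul_neg, mul_neg, e, ← mul_assoc eU 16 eT, e eU, mul_assoc]
    abel
  · unfold ww'
    rw [mul_sub, ← mul_assoc]
    rw [neg_mul]
    abel

end Pool.Agent.TH630.Tor
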