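import Pool.Agent.TH630.Tor.Cx
import Pool.Agent.TH630.Tor.Fox

/-!
The closed `5`-manifold which is the boundary of a `6`-dimensional thickening of a presentation
complex: its chain complex over the group ring.
-/

open scoped Matrix

noncomputable section

namespace Pool.Agent.TH630.Tor

open Pool.Agent.Helper993.FK

section
variable {G : Type} [Group G] {r s t : ℕ}

/-- the involution of the integral group ring -/
def invZ (a : MonoidAlgebra ℤ G) : MonoidAlgebra ℤ G := MonoidAlgebra.mapDomain (fun g => g⁻¹) a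

theorem invZ_single (g : G) (c : ℤ) :
    invZ (MonoidAlgebra.single g c) = MonoidAlgebra.single g⁻¹ c := MonoidAlgebra.mapDomain_single

theorem invZ_add (a b : MonoidAlgebra ℤ G) : invZ (a + b) = invZ a + invZ b :=
  MonoidAlgebra.mapDomain_add _ _ _

theorem invZ_zero : invZ (0 : MonoidAlgebra ℤ G) = 0 := MonoidAlgebra.mapDomain_zero _

theorem invZ_sum {ι : Type} (s : Finset ι) (f : ι → MonoidAlgebra ℤ G) :
    invZ (∑ i ∈ s, f i) = ∑ i ∈ s, invZ (f i) := by
  classical
  induction s using Finset.induction_on with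
  | empty => simp [invZ_zero]
  | insert a s ha ih => rw [Finset.sum_insert ha, Finset.sum_insert ha, invZ_add, ih]

theorem invZ_mul (a b : MonoidAlgebra ℤ G) : invZ (a * b) = invZ b * invZ a := by
  induction a using MonoidAlgebra.induction_linear with
  | zero => rw [zero_mul, invZ_zero, mul_zero]
  | add a a' h1 h2 => rw [add_mul, invZ_add, h1, h2, invZ_add, mul_add]
  | single g c =>
    induction b using MonoidAlgebra.induction_linear with
    | zero => rw [mul_zero, invZ_zero, zero_mul]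
    | add b b' h1 h2 => rw [mul_add, invZ_add, h1, h2, invZ_add, add_mul]
    | single h d =>
      rw [MonoidAlgebra.single_mul_single, invZ_single, invZ_single, invZ_single,
        MonoidAlgebra.single_mul_single, mul_inv_rev, mul_comm]

theorem invZ_invZ (a : MonoidAlgebra ℤ G) : invZ (invZ a) = a := by
  induction a using MonoidAlgebra.induction_linear with
  | zero => rw [invZ_zero, invZ_zero]
  | add a a' h1 h2 => rw [invZ_add, invZ_add, h1, h2]
  | single g c => rw [invZ_single, invZ_single, inv_inv]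

theorem adjZ_apply (A : Matrix (Fin r) (Fin s) (MonoidAlgebra ℤ G)) (i : Fin s) (j : Fin r) :
    adjZ A i j = invZ (A j i) := rfl

theorem adjZ_mul (A : Matrix (Fin r) (Fin s) (MonoidAlgebra ℤ G))
    (B : Matrix (Fin s) (Fin t) (MonoidAlgebra ℤ G)) : adjZ (A * B) = adjZ B * adjZ A := by
  ext1 i j
  rw [adjZ_apply, Matrix.mul_apply, Matrix.mul_apply, invZ_sum]
  apply Finset.sum_congr rfl
  intro k _
  rw [invZ_mul, adjZ_apply, adjZ_apply]

theorem adjZ_adjZ (A : Matrix (Fin r) (Fin s) (MonoidAlgebra ℤ G)) : adjZ (adjZ A) = A := by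
  ext1 i j
  rw [adjZ_apply, adjZ_apply, invZ_invZ]

theorem adjZ_zero : adjZ (0 : Matrix (Fin r) (Fin s) (MonoidAlgebra ℤ G)) = 0 := by
  ext1 i j
  rw [adjZ_apply, Matrix.zero_apply, invZ_zero, Matrix.zero_apply]

end

/-- A finite presentation, together with a homomorphism of the presented group to `G`. -/
structure Pres (G : Type) [Group G] where
  /-- the number of generators -/
  m : ℕ
  /-- the number of relators -/
  k : ℕ
  /-- the relators -/
  rel : Fin k → FreeGroup (Fin m)
  /-- the homomorphism -/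
  φ : FreeGroup (Fin m) →* G
  φ_rel : ∀ j, φ (rel j) = 1

namespace Pres

variable {G : Type} [Group G] (P : Pres G)

/-- The boundary `C_1 → C_0` of the chain complex of the `G`-cover of the presentation complex. -/
def b1 : Matrix (Fin P.m) (Fin 1) (MonoidAlgebra ℤ G) :=
  Matrix.of fun i _ => MonoidAlgebra.single (P.φ (FreeGroup.of i)) 1 - 1

/-- The boundary `C_2 → C_1` of the chain complex of the `G`-cover of the presentation complex. -/
def b2 : Matrix (Fin P.k) (Fin P.m) (MonoidAlgebra ℤ G) := Matrix.of fun j i => fox P.φ i (P.rel j)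

theorem b2_mul_b1 : P.b2 * P.b1 = 0 := by
  ext1 i j
  rw [Matrix.mul_apply]
  refine (fox_fundamental P.φ (P.rel i)).trans ?_
  rw [P.φ_rel, Matrix.zero_apply, ← MonoidAlgebra.one_def, sub_self]

/-- the numbers of handles of the boundary of the thickening -/
def rk : ℕ → ℕ
  | 0 => 1
  | 1 => P.m
  | 2 => P.k
  | 3 => P.k
  | 4 => P.m
  | 5 => 1
  | _ + 6 => 0

/-- the boundaries -/
def bd : ∀ n, Matrix (Fin (P.rk (n + 1))) (Fin (P.rk n)) (MonoidAlgebra ℤ G)
  | 0 => P.b1
  | 1 => P.b2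
  | 2 => 0
  | 3 => adjZ P.b2
  | 4 => adjZ P.b1
  | _ + 5 => 0

/-- The chain complex of the `G`-cover of the closed `5`-manifold which is the boundary of the
`6`-dimensional thickening of the presentation complex `X` (equivalently, the double of the
`5`-dimensional thickening `W`): it is the sum of the chain complex `C_*` of the `G`-cover of `X`
and of the dual complex `C^{5-*}`. -/
def fiveManifold : FreeCx G where
  rank := P.rk
  dim := 5
  rank_eq_zero n hn := by
    obtain ⟨m, rfl⟩ : ∃ m, n = m + 6 := ⟨n - 6, by omega⟩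
    rfl
  d := P.bd
  d_comp_d n := by
    match n with
    | 0 => exact P.b2_mul_b1
    | 1 => exact Matrix.zero_mul _
    | 2 => exact Matrix.mul_zero _
    | 3 =>
      change adjZ P.b1 * adjZ P.b2 = 0
      rw [← adjZ_mul, P.b2_mul_b1, adjZ_zero]
    | n + 4 => exact Matrix.zero_mul _

theorem lapM_zero : P.fiveManifold.lapM 0 = adjZ P.b1 * P.b1 := rfl

theorem lapM_one : P.fiveManifold.lapM 1 = adjZ P.b2 * P.b2 + P.b1 * adjZ P.b1 := rfl

theorem lapM_two : (P.fiveManifold.lapM 2 : Matrix (Fin P.k) (Fin P.k) (MonoidAlgebra ℤ G))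
    = P.b2 * adjZ P.b2 := by
  change (adjZ (0 : Matrix (Fin P.k) (Fin P.k) (MonoidAlgebra ℤ G))
    * (0 : Matrix (Fin P.k) (Fin P.k) (MonoidAlgebra ℤ G)) + P.b2 * adjZ P.b2 :
    Matrix (Fin P.k) (Fin P.k) (MonoidAlgebra ℤ G)) = _
  rw [Matrix.mul_zero, zero_add]

theorem lapM_three : (P.fiveManifold.lapM 3 : Matrix (Fin P.k) (Fin P.k) (MonoidAlgebra ℤ G))
    = P.b2 * adjZ P.b2 := by
  change (adjZ (adjZ P.b2) * adjZ P.b2
    + (0 : Matrix (Fin P.k) (Fin P.k) (MonoidAlgebra ℤ G))
      * adjZ (0 : Matrix (Fin P.k) (Fin P.k) (MonoidAlgebra ℤ G)) :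
    Matrix (Fin P.k) (Fin P.k) (MonoidAlgebra ℤ G)) = _
  rw [Matrix.zero_mul, add_zero, adjZ_adjZ]

theorem lapM_four : (P.fiveManifold.lapM 4 : Matrix (Fin P.m) (Fin P.m) (MonoidAlgebra ℤ G))
    = adjZ P.b2 * P.b2 + P.b1 * adjZ P.b1 := by
  change (adjZ (adjZ P.b1) * adjZ P.b1 + adjZ P.b2 * adjZ (adjZ P.b2) :
    Matrix (Fin P.m) (Fin P.m) (MonoidAlgebra ℤ G)) = _
  rw [adjZ_adjZ, adjZ_adjZ, add_comm]

theorem lapM_five : (P.fiveManifold.lapM 5 : Matrix (Fin 1) (Fin 1) (MonoidAlgebra ℤ G))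
    = adjZ P.b1 * P.b1 := by
  change (adjZ (0 : Matrix (Fin 0) (Fin 1) (MonoidAlgebra ℤ G))
    * (0 : Matrix (Fin 0) (Fin 1) (MonoidAlgebra ℤ G)) + adjZ P.b1 * adjZ (adjZ P.b1) :
    Matrix (Fin 1) (Fin 1) (MonoidAlgebra ℤ G)) = _
  rw [Matrix.mul_zero, zero_add, adjZ_adjZ]

section
variable {F : Type} [Group F] [Fintype F] [DecidableEq F] (π : G →* F)
  (κ : G →* Multiplicative ℤ)

/-- nondegeneracy from the two basic determinants -/
theorem nondeg_all (h0 : Nondeg π κ (adjZ P.b1 * P.b1))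
    (h1 : Nondeg π κ (adjZ P.b2 * P.b2 + P.b1 * adjZ P.b1)) (h2 : Nondeg π κ (P.b2 * adjZ P.b2)) :
    ∀ n, Nondeg π κ (P.fiveManifold.lapM n)
  | 0 => h0
  | 1 => h1
  | 2 => by
    have := P.lapM_two
    change Nondeg (r := P.k) π κ _
    rw [this]
    exact h2
  | 3 => by
    have := P.lapM_three
    change Nondeg (r := P.k) π κ _
    rw [this]
    exact h2
  | 4 => by
    have := P.lapM_four
    change Nondeg (r := P.m) π κ _
    rw [this]
    exact h1
  | 5 => by
    have := P.lapM_five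
    change Nondeg (r := 1) π κ _
    rw [this]
    exact h0
  | n + 6 => by
    refine ⟨1, by simp, ?_⟩
    have : IsEmpty (Fin (P.fiveManifold.rank (n + 6)) × F) := by
      change IsEmpty (Fin 0 × F)
      infer_instance
    rw [Matrix.det_isEmpty]
    exact one_ne_zero

theorem sum_logDet : -(1 / 2 : ℝ) * ∑ n ∈ Finset.range (P.fiveManifold.dim + 1),
      (-1) ^ n * n * logDet π κ (P.fiveManifold.lapM n)
      = -(1 / 2) * (3 * logDet π κ (adjZ P.b2 * P.b2 + P.b1 * adjZ P.b1)
        - logDet π κ (P.b2 * adjZ P.b2) - 5 * logDet π κ (adjZ P.b1 * P.b1)) := by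
  have h2 : logDet π κ (P.fiveManifold.lapM 2) = logDet π κ (P.b2 * adjZ P.b2) :=
    congrArg (logDet (r := P.k) π κ) P.lapM_two
  have h3 : logDet π κ (P.fiveManifold.lapM 3) = logDet π κ (P.b2 * adjZ P.b2) :=
    congrArg (logDet (r := P.k) π κ) P.lapM_three
  have h4 : logDet π κ (P.fiveManifold.lapM 4)
      = logDet π κ (adjZ P.b2 * P.b2 + P.b1 * adjZ P.b1) :=
    congrArg (logDet (r := P.m) π κ) P.lapM_four
  have h5 : logDet π κ (P.fiveManifold.lapM 5) = logDet π κ (adjZ P.b1 * P.b1) :=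
    congrArg (logDet (r := 1) π κ) P.lapM_five
  have h1 : logDet π κ (P.fiveManifold.lapM 1)
      = logDet π κ (adjZ P.b2 * P.b2 + P.b1 * adjZ P.b1) := rfl
  change -(1 / 2 : ℝ) * ∑ n ∈ Finset.range 6, _ = _
  rw [Finset.sum_range_succ, Finset.sum_range_succ, Finset.sum_range_succ, Finset.sum_range_succ,
    Finset.sum_range_succ, Finset.sum_range_succ, Finset.sum_range_zero, h1, h2, h3, h4, h5]
  push_cast
  ring

end

end Pres

end Pool.Agent.TH630.Tor
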