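import Pool.Agent.TH630.Tor.TorusDef
import Pool.Agent.TH630.Tor.Cx

/-!
Laplacians of `3`-dimensional complexes.
-/

open scoped Matrix

noncomputable section

namespace Pool.Agent.TH630.Tor

open Pool.Agent.Helper993.FK

namespace ThreeCx

variable {G : Type} [Group G] (X : ThreeCx G)

theorem lap3 : (X.toCx.lapM 3 : Matrix (Fin X.l) (Fin X.l) (MonoidAlgebra ℤ G))
    = X.b3 * adjZ X.b3 := by
  change (adjZ (0 : Matrix (Fin 0) (Fin X.l) (MonoidAlgebra ℤ G))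
    * (0 : Matrix (Fin 0) (Fin X.l) (MonoidAlgebra ℤ G)) + X.b3 * adjZ X.b3 :
    Matrix (Fin X.l) (Fin X.l) (MonoidAlgebra ℤ G)) = _
  rw [Matrix.mul_zero, zero_add]

section
variable {F : Type} [Group F] [Fintype F] [DecidableEq F] (π : G →* F)
  (κ : G →* Multiplicative ℤ)

theorem nondeg_all (h0 : Nondeg π κ (adjZ X.b1 * X.b1))
    (h1 : Nondeg π κ (adjZ X.b2 * X.b2 + X.b1 * adjZ X.b1))
    (h2 : Nondeg π κ (adjZ X.b3 * X.b3 + X.b2 * adjZ X.b2))
    (h3 : Nondeg π κ (X.b3 * adjZ X.b3)) :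
    ∀ n, Nondeg π κ (X.toCx.lapM n)
  | 0 => h0
  | 1 => h1
  | 2 => h2
  | 3 => by
    have := X.lap3
    change Nondeg (r := X.l) π κ _
    rw [this]
    exact h3
  | n + 4 => by
    refine ⟨1, by simp, ?_⟩
    have : IsEmpty (Fin (X.toCx.rank (n + 4)) × F) := by
      change IsEmpty (Fin 0 × F)
      infer_instance
    rw [Matrix.det_isEmpty]
    exact one_ne_zero

theorem sum_logDet : -(1 / 2 : ℝ) * ∑ n ∈ Finset.range (X.toCx.dim + 1),
      (-1) ^ n * n * logDet π κ (X.toCx.lapM n)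
      = -(1 / 2) * (-logDet π κ (adjZ X.b2 * X.b2 + X.b1 * adjZ X.b1)
        + 2 * logDet π κ (adjZ X.b3 * X.b3 + X.b2 * adjZ X.b2)
        - 3 * logDet π κ (X.b3 * adjZ X.b3)) := by
  have h3 : logDet π κ (X.toCx.lapM 3) = logDet π κ (X.b3 * adjZ X.b3) :=
    congrArg (logDet (r := X.l) π κ) X.lap3
  have h1 : logDet π κ (X.toCx.lapM 1)
      = logDet π κ (adjZ X.b2 * X.b2 + X.b1 * adjZ X.b1) := rfl
  have h2 : logDet π κ (X.toCx.lapM 2)
      = logDet π κ (adjZ X.b3 * X.b3 + X.b2 * adjZ X.b2) := rfl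
  change -(1 / 2 : ℝ) * ∑ n ∈ Finset.range 4, _ = _
  rw [Finset.sum_range_succ, Finset.sum_range_succ, Finset.sum_range_succ, Finset.sum_range_succ,
    Finset.sum_range_zero, h1, h2, h3]
  push_cast
  ring

end

end ThreeCx

end Pool.Agent.TH630.Tor
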