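import Pool.Agent.TH630.Tor.TorusC
import Pool.Agent.TH630.Tor.ThreeLap
import Pool.Agent.TH630.Tor.Surj

/-!
The `L²`-torsions of the quotients of the closed aspherical `3`-manifold do not converge.
-/

open scoped Matrix Topology

noncomputable section

namespace Pool.Agent.TH630.Tor

open Pool.Agent.Helper993.FK Pool.Agent.Helper993.HeisDet Pool.Agent.TH304.J893

theorem nondeg_X3 (i : ℕ) : ∀ n, Nondeg (prF i) prZ (X3.toCx.lapM n) :=
  X3.nondeg_all (prF i) prZ (nd0 i) (nd1 i) (nd2 i) (nd3 i)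

/-- the levels -/
theorem level_X3 (i : ℕ) (hi : 1 ≤ i) : (X3.toCx.quot (chainZ i)).DetL2Acyclic ∧
    (X3.toCx.quot (chainZ i)).l2torsion
      = -((S (3 ^ ((i + 1) / 2)) (3 ^ (i / 2)) (3 ^ (i / 2)) (-16)
        + S (3 ^ ((i + 1) / 2)) (3 ^ (i / 2)) (3 ^ (i / 2)) 16)
          / (Nat.card (Heis ℤ ⧸ chain i) : ℝ)) := by
  obtain ⟨h1, h2⟩ := X3.toCx.level' (chainZ i) (prF i) prZ (mem_chainZ hi)
    (nondeg_X3 i)
  refine ⟨h1, ?_⟩
  have e1 : logDet (prF i) prZ (adjZ X3.b2 * X3.b2 + X3.b1 * adjZ X3.b1)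
      = 1 / Fintype.card (FQ i) * avg (d1 i) := rfl
  have e2 : logDet (prF i) prZ (adjZ X3.b3 * X3.b3 + X3.b2 * adjZ X3.b2)
      = 1 / Fintype.card (FQ i) * avg (d2 i) := rfl
  have e3 : logDet (prF i) prZ (X3.b3 * adjZ X3.b3)
      = 1 / Fintype.card (FQ i) * avg (d3 i) := rfl
  rw [h2, X3.sum_logDet, e1, e2, e3, Nat.card_eq_fintype_card, ← avg_dG]
  have k1 := avg_d1 i
  have k2 := avg_d2 i
  have k3 : avg (d1 i) = avg (d0 i) + avg (d2 i) - avg (d3 i) := by linarith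
  rw [k3, k2]
  ring

theorem acyclic_X3 : X3.toCx.DetL2Acyclic :=
  X3.toCx.limit' chainZ chainZ_anti chainZ_inf FQ prF (fun _ => prZ)
    (fun _ hi g => mem_chainZ hi g) (fun i _ => nondeg_X3 i)

theorem torsion_even (j : ℕ) : -(2 / 3 * Real.log 34)
    ≤ (X3.toCx.quot (chainZ (2 * (j + 1)))).l2torsion := by
  rw [(level_X3 (2 * (j + 1)) (by omega)).2, chain_card]
  have e1 : 2 * (j + 1) / 2 = j + 1 := by omega
  have e2 : (2 * (j + 1) + 1) / 2 = j + 1 := by omega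
  have h1 := S_type1 j (-16)
  have h2 := S_type1 j 16
  have n1 : 2 * ‖(-16 : ℂ)‖ + 2 = 34 := by norm_num
  have n2 : 2 * ‖(16 : ℂ)‖ + 2 = 34 := by norm_num
  rw [n1] at h1
  rw [n2] at h2
  rw [e1, e2, neg_le_neg_iff, div_le_iff₀ (by positivity)]
  refine (add_le_add h1 h2).trans (le_of_eq ?_)
  push_cast
  ring

theorem torsion_odd (j : ℕ) : (X3.toCx.quot (chainZ (2 * (j + 1) + 1))).l2torsion
    ≤ -(8 / 9 * Real.log 16) := by
  rw [(level_X3 (2 * (j + 1) + 1) (by omega)).2, chain_card]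
  have e1 : (2 * (j + 1) + 1) / 2 = j + 1 := by omega
  have e2 : (2 * (j + 1) + 1 + 1) / 2 = j + 2 := by omega
  have h1 := S_type2 j (-16) ⟨16, by norm_num, Or.inr (by norm_num)⟩
  have h2 := S_type2 j 16 ⟨16, by norm_num, Or.inl (by norm_num)⟩
  have n1 : ‖(-16 : ℂ)‖ = 16 := by norm_num
  have n2 : ‖(16 : ℂ)‖ = 16 := by norm_num
  rw [n1] at h1
  rw [n2] at h2
  rw [e1, e2, neg_le_neg_iff, le_div_iff₀ (by positivity)]
  refine le_trans (le_of_eq ?_) (add_le_add h1 h2)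
  push_cast
  ring

theorem gap3 : 2 / 3 * Real.log 34 < 8 / 9 * Real.log 16 := by
  have h1 : Real.log (34 ^ 3) < Real.log (16 ^ 4) :=
    Real.log_lt_log (by norm_num) (by norm_num)
  rw [Real.log_pow, Real.log_pow] at h1
  push_cast at h1
  linarith

theorem no_limit_X3 (L : ℝ) : ¬ Filter.Tendsto
    (fun i => (X3.toCx.quot (chainZ i)).l2torsion) Filter.atTop (𝓝 L) := by
  intro h
  have h1 : Filter.Tendsto (fun j : ℕ => 2 * (j + 1)) Filter.atTop Filter.atTop :=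
    Filter.tendsto_atTop_mono (fun j => by simp only [id]; omega) Filter.tendsto_id
  have h2 : Filter.Tendsto (fun j : ℕ => 2 * (j + 1) + 1) Filter.atTop Filter.atTop :=
    Filter.tendsto_atTop_mono (fun j => by simp only [id]; omega) Filter.tendsto_id
  have g1 := ge_of_tendsto' (h.comp h1) (fun j => torsion_even j)
  have g2 := le_of_tendsto' (h.comp h2) (fun j => torsion_odd j)
  have := gap3
  linarith

theorem pos_X3 (i n : ℕ) : 0 < fkDet ((X3.toCx.quot (chainZ i)).laplacian n) := by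
  rcases Nat.eq_zero_or_pos i with rfl | hi
  · rw [FreeCx.laplacian_eq]
    have : Finite (HZ ⧸ chainZ 0) := by
      rw [chainZ_zero]
      infer_instance
    exact fkDet_pos_finite _
  · exact ((level_X3 i hi).1 n).2

theorem φ9_surj : Function.Surjective φ9 := by
  rw [← MonoidHom.range_eq_top]
  refine hz_top _ ⟨(emb 4 (x8 2))⁻¹, ?_⟩ ⟨(emb 4 (x8 0))⁻¹, ?_⟩ ⟨sGen 4, φ9_s⟩
  · rw [map_inv, φ9_emb_apply]
    have h := ψ8_2
    refine (congrArg (fun x => x⁻¹) h).trans ?_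
    simp
  · rw [map_inv, φ9_emb_apply]
    have h := ψ8_0
    refine (congrArg (fun x => x⁻¹) h).trans ?_
    simp

end Pool.Agent.TH630.Tor
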