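import Pool.Agent.TH630.Tor.Sphere
import Pool.Agent.TH630.Tor.TorusFin
import Pool.Agent.TH370.J1088

/-!
Closed `7`-manifolds with the discrete Heisenberg group as fundamental group: their universal
covers are `L²`-acyclic and of determinant class.
-/

open scoped Matrix Topology

noncomputable section

namespace Pool.Agent.TH630.Tor

open Pool.Agent.Helper993.FK Pool.Agent.Helper993.HeisDet Pool.Agent.TH370.J1087
  Pool.Agent.TH370.J1088 J1089

/-- the real three-dimensional nilmanifold, as the mapping torus of a shear of the torus -/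
def Nil3 : ThreeCx (Heis ℤ) := torusThree fN φN φN_rel fN_rel

theorem finite_zeros {n : Type} [Fintype n] [DecidableEq n] (M : Matrix n n ℂ) :
    {z : ℂ | (1 - z • M).det = 0}.Finite := by
  have h0 : M.charpolyRev ≠ 0 := by
    intro h
    have := Matrix.eval_charpolyRev (M := M)
    rw [h, Polynomial.eval_zero] at this
    exact zero_ne_one this
  have h1 : ∀ z : ℂ, M.charpolyRev.eval z = (1 - z • M).det := by
    intro z
    rw [Matrix.charpolyRev, ← Polynomial.coe_evalRingHom, RingHom.map_det]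
    congr 1
    ext i j
    rcases eq_or_ne i j with hij | hij <;> simp [hij, Matrix.one_apply] <;> ring
  refine (Finset.finite_toSet M.charpolyRev.roots.toFinset).subset ?_
  intro z hz
  simp only [Finset.mem_coe, Multiset.mem_toFinset]
  rw [Polynomial.mem_roots h0, Polynomial.IsRoot, h1]
  exact hz

/-- the homomorphism `(a, b, c) ↦ a` -/
def prA : Heis ℤ →* Multiplicative ℤ where
  toFun g := Multiplicative.ofAdd g.a
  map_one' := rfl
  map_mul' _ _ := rfl

/-- the projection to the finite group -/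
def prH (i : ℕ) : Heis ℤ →* FQ (2 * i) := QuotientGroup.mk' (chain (2 * i))

/-- The auxiliary chain of normal subgroups of infinite index. -/
def chainA (i : ℕ) : Subgroup (Heis ℤ) := (prH i).ker ⊓ prA.ker

instance chainA_normal (i : ℕ) : (chainA i).Normal := by
  unfold chainA
  infer_instance

theorem chainA_anti : Antitone chainA := by
  intro i j hij g hg
  refine ⟨?_, hg.2⟩
  have h1 : g ∈ chain (2 * j) := (QuotientGroup.eq_one_iff g).mp hg.1
  exact (QuotientGroup.eq_one_iff g).mpr (chain_anti (Nat.mul_le_mul_left 2 hij) h1)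

theorem chainA_inf : ⨅ i, chainA i = ⊥ := by
  rw [eq_bot_iff, ← chain_inf]
  refine le_iInf fun i => ?_
  intro g hg
  rw [Subgroup.mem_iInf] at hg
  have h1 : g ∈ chain (2 * i) := (QuotientGroup.eq_one_iff g).mp (hg i).1
  exact chain_anti (by omega) h1

theorem e1_deg0 (i : ℕ) {z : ℂ} (hz : z ≠ 0) (h : Heis ℤ) (c : ℤ) (h0 : h.a = 0) :
    e1 (prH i) prA z (MonoidAlgebra.single h c) = (c : ℂ) • regM ℂ (prH i h) := by
  rw [e1_single _ _ hz]
  have : Multiplicative.toAdd (prA h) = 0 := h0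
  rw [this, zpow_zero, mul_one]

theorem e1_deg1 (i : ℕ) {z : ℂ} (hz : z ≠ 0) (h : Heis ℤ) (c : ℤ) (h0 : h.a = 1) :
    e1 (prH i) prA z (MonoidAlgebra.single h c) = z • ((c : ℂ) • regM ℂ (prH i h)) := by
  rw [e1_single _ _ hz]
  have : Multiplicative.toAdd (prA h) = 1 := h0
  rw [this, zpow_one, smul_smul, mul_comm z]

/-- `t - 1` -/
def tm1 : MonoidAlgebra ℤ (Heis ℤ) := MonoidAlgebra.single tt 1 - 1

theorem det_tm1 (i : ℕ) {z : ℂ} (hz : z ≠ 0)
    (h : (1 - z • regM ℂ (prH i tt)).det ≠ 0) : (e1 (prH i) prA z tm1).det ≠ 0 := by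
  have e : e1 (prH i) prA z tm1 = -(1 - z • regM ℂ (prH i tt)) := by
    unfold tm1
    rw [e1_sub, e1_one, e1_deg1 i hz tt 1 rfl, Int.cast_one, one_smul, neg_sub]
  rw [e, Matrix.det_neg]
  exact mul_ne_zero (pow_ne_zero _ (by norm_num)) h

theorem rowD_Nil : rowD (s := 2 * 1) (t := 1) (r := 1) Nil3.b1 = Matrix.diagonal ![tm1] := by
  ext1 i j
  have h : rowD (s := 2 * 1) (t := 1) (r := 1) Nil3.b1 i j
    = MonoidAlgebra.single (φN (FreeGroup.of (Fin.natAdd (2 * 1) i))) 1 - 1 := rfl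
  rw [h]
  fin_cases i
  fin_cases j
  change MonoidAlgebra.single (φN (FreeGroup.of 2)) 1 - 1 = tm1
  rw [φN_2]
  rfl

theorem colR_Nil : colR (s := 2 * 1) (t := 1) (r := 1) Nil3.b3 = Matrix.diagonal ![tm1] := by
  ext1 i j
  have h : colR (s := 2 * 1) (t := 1) (r := 1) Nil3.b3 i j
    = (Fin.addCases (m := 2 * 1) (n := 1) (motive := fun _ => MonoidAlgebra ℤ (Heis ℤ))
      (fun j => -fox (φN.comp (emb 1)) j (surfaceRel 1))
      (fun _ => MonoidAlgebra.single (φN (sGen 1)) 1 - 1) (Fin.natAdd (2 * 1) j)) := rfl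
  rw [h, Fin.addCases_right, sGen_eq, φN_2]
  fin_cases i
  fin_cases j
  rfl

/-- the block `s J - 1` -/
def GN : Matrix (Fin (1 + 1)) (Fin (1 + 1)) (MonoidAlgebra ℤ (Heis ℤ)) :=
  colL (s := 2 * 1) (t := 1) (rowU (s := 2 * 1) (t := 1) (r := 2 * 1 + 1) Nil3.b2)

theorem GN_apply (j k : Fin (2 * 1)) : GN j k = MonoidAlgebra.single tt 1
    * fox (φN.comp (emb 1)) k (fN (FreeGroup.of j)) - (if j = k then 1 else 0) := by
  have h0 : GN j k = (torusPres fN φN φN_rel).b2 (Fin.castAdd 1 j) (Fin.castAdd 1 k) := rfl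
  rw [h0, torus_b2_ul, sGen_eq, φN_2]

theorem GN_ul : colL (rowU GN) = Matrix.diagonal ![tm1] := by
  ext1 i j
  fin_cases i
  fin_cases j
  change GN 0 0 = tm1
  rw [GN_apply, fN_of0, fox_mul, fox_inv, fox_of, fox_of]
  simp [tm1]

theorem GN_dr : colR (rowD GN) = Matrix.diagonal ![tm1] := by
  ext1 i j
  fin_cases i
  fin_cases j
  change GN 1 1 = tm1
  rw [GN_apply, fN_of1, fox_of]
  simp [tm1]

theorem GN_dl : colL (rowD GN) = 0 := by
  ext1 i j
  fin_cases i
  fin_cases j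
  change GN 1 0 = 0
  rw [GN_apply, fN_of1, fox_of]
  simp

theorem det_ev_blocks' {Q F : Type} [Group Q] [Group F] [Fintype F] [DecidableEq F]
    (π : Q →* F) (κ : Q →* Multiplicative ℤ) (z : ℂ) {s t : ℕ}
    (A : Matrix (Fin (s + t)) (Fin (s + t)) (MonoidAlgebra ℤ Q)) (h1 : colL (rowD A) = 0) :
    (ev π κ z A).det = (ev π κ z (colL (rowU A))).det * (ev π κ z (colR (rowD A))).det := by
  rw [← Matrix.det_submatrix_equiv_self (spl F s t)]
  have e : (ev π κ z A).submatrix (spl F s t) (spl F s t)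
      = Matrix.fromBlocks (ev π κ z (colL (rowU A))) (ev π κ z (colR (rowU A)))
        (ev π κ z (colL (rowD A))) (ev π κ z (colR (rowD A))) := by
    ext p q
    rcases p with p | p <;> rcases q with q | q <;> rfl
  rw [e, h1, ev_zero, Matrix.det_fromBlocks_zero₂₁]

theorem det_GN (i : ℕ) {z : ℂ} (hz : z ≠ 0)
    (h : (1 - z • regM ℂ (prH i tt)).det ≠ 0) : (ev (prH i) prA z GN).det ≠ 0 := by
  rw [det_ev_blocks' _ _ _ _ GN_dl, GN_ul, GN_dr, det_ev_diagonal, Fin.prod_univ_one]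
  exact mul_ne_zero (det_tm1 i hz h) (det_tm1 i hz h)

theorem det_ev_blkSum {Q F : Type} [Group Q] [Group F] [Fintype F] [DecidableEq F]
    (π : Q →* F) (κ : Q →* Multiplicative ℤ) (z : ℂ) {s t : ℕ}
    (A : Matrix (Fin s) (Fin s) (MonoidAlgebra ℤ Q)) (B : Matrix (Fin t) (Fin t) (MonoidAlgebra ℤ Q)) :
    (ev π κ z (blkSum A B)).det = (ev π κ z A).det * (ev π κ z B).det := by
  have h1 : colL (rowU (blkSum A B)) = A := by
    ext1 i j
    simp [colL, rowU, blkSum]
  have h2 : colR (rowD (blkSum A B)) = B := by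
    ext1 i j
    simp [colR, rowD, blkSum]
  have h3 : colL (rowD (blkSum A B)) = 0 := by
    ext1 i j
    simp [colL, rowD, blkSum]
  rw [det_ev_blocks' _ _ _ _ h3, h1, h2]

theorem ev_single1 {Q F : Type} [Group Q] [Group F] [Fintype F] [DecidableEq F]
    (π : Q →* F) (κ : Q →* Multiplicative ℤ) (z : ℂ) (a : MonoidAlgebra ℤ Q) :
    (ev π κ z !![a]).det = (e1 π κ z a).det := by
  have : (!![a] : Matrix (Fin 1) (Fin 1) (MonoidAlgebra ℤ Q)) = Matrix.diagonal ![a] := by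
    ext1 i j
    fin_cases i
    fin_cases j
    simp
  rw [this, det_ev_diagonal, Fin.prod_univ_one]
  rfl

theorem pos_facts {a0 a1 a2 a3 g w w' : ℝ} (h0 : 0 < a0) (h3 : 0 < a3) (hg : 0 < g)
    (n1 : 0 ≤ a1) (n2 : 0 ≤ a2) (k1 : a3 * a0 * g ^ 2 * a3 * a0 = a2 * a0 * w ^ 2 * w' ^ 2)
    (k2 : a1 * a3 = a0 * a2) : 0 < a1 ∧ 0 < a2 := by
  have hp : 0 < a3 * a0 * g ^ 2 * a3 * a0 := by positivity
  have p2 : 0 < a2 := by
    rcases n2.eq_or_lt with e | e
    · rw [← e, zero_mul, zero_mul, zero_mul] at k1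
      linarith
    · exact e
  have p1 : 0 < a1 := by
    rcases n1.eq_or_lt with e | e
    · rw [← e, zero_mul] at k2
      have : 0 < a0 * a2 := by positivity
      linarith
    · exact e
  exact ⟨p1, p2⟩

/-- nonvanishing of all determinants -/
theorem det_all (i : ℕ) {z : ℂ} (hz : ‖z‖ = 1) (a : MonoidAlgebra ℤ (Heis ℤ))
    (h : (1 - z • regM ℂ (prH i tt)).det ≠ 0) (ha : (e1 (prH i) prA z a).det ≠ 0) :
    ∀ n, (ev (prH i) prA z ((Nil3.addSphere a).sevenManifold.lapM n)).det ≠ 0 := by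
  have hz0 : z ≠ 0 := by
    rintro rfl
    simp at hz
  obtain ⟨k1, k2, k3, k4⟩ := three_blocks (s := 2 * 1) (t := 1) (prH i) prA hz Nil3.b3 Nil3.b2
    Nil3.b1 Nil3.b3_mul_b2 Nil3.b2_mul_b1
  have g0 : (ev (prH i) prA z (rowD (s := 2 * 1) (t := 1) (r := 1) Nil3.b1)).det ≠ 0 := by
    rw [rowD_Nil, det_ev_diagonal, Fin.prod_univ_one]
    exact det_tm1 i hz0 h
  have g2 : (ev (prH i) prA z (colR (s := 2 * 1) (t := 1) (r := 1) Nil3.b3)).det ≠ 0 := by
    rw [colR_Nil, det_ev_diagonal, Fin.prod_univ_one]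
    exact det_tm1 i hz0 h
  have g1 := det_GN i hz0 h
  have p0 := k3 g0
  have p3 := k4 g2
  have q0 := norm_pos_iff.mpr p0
  have q3 := norm_pos_iff.mpr p3
  have qG := norm_pos_iff.mpr g1
  obtain ⟨q1, q2⟩ := pos_facts q0 q3 qG (norm_nonneg _) (norm_nonneg _) k1 k2
  have p1 := norm_pos_iff.mp q1
  have p2 := norm_pos_iff.mp q2
  have pa : (ev (prH i) prA z (adjZ !![a] * !![a])).det ≠ 0 := by
    rw [ev_mul, ev_adjZ _ _ hz, Matrix.det_mul, Matrix.det_conjTranspose, ev_single1]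
    exact mul_ne_zero (star_ne_zero.mpr ha) ha
  have pa' : (ev (prH i) prA z (!![a] * adjZ !![a])).det ≠ 0 := by
    rw [ev_mul, ev_adjZ _ _ hz, Matrix.det_mul, Matrix.det_conjTranspose, ev_single1]
    exact mul_ne_zero ha (star_ne_zero.mpr ha)
  refine (Nil3.addSphere a).all_lap (P := fun r M => (ev (prH i) prA z M).det ≠ 0) p0 ?_ ?_ ?_ ?_
  · have e := Nil3.s1 a
    rw [e]
    exact p1
  · have e := Nil3.s2 a
    refine Eq.mpr (congrArg (fun M : Matrix (Fin (Nil3.k + 1)) (Fin (Nil3.k + 1))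
      (MonoidAlgebra ℤ (Heis ℤ)) => (ev (prH i) prA z M).det ≠ 0) e) ?_
    rw [det_ev_blkSum]
    exact mul_ne_zero p2 pa
  · have e := Nil3.s3 a
    refine Eq.mpr (congrArg (fun M : Matrix (Fin (Nil3.l + 1)) (Fin (Nil3.l + 1))
      (MonoidAlgebra ℤ (Heis ℤ)) => (ev (prH i) prA z M).det ≠ 0) e) ?_
    rw [det_ev_blkSum]
    exact mul_ne_zero p3 pa'
  · intro A
    rw [Matrix.det_isEmpty]
    exact one_ne_zero

/-- The condition on the element `a`: over each level its determinant does not vanish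
outside a finite set. -/
def Good (a : MonoidAlgebra ℤ (Heis ℤ)) : Prop :=
  ∀ i, ∃ S : Set ℂ, S.Finite ∧ ∀ z : ℂ, ‖z‖ = 1 → z ∉ S → (e1 (prH i) prA z a).det ≠ 0

theorem nondeg_seven {a : MonoidAlgebra ℤ (Heis ℤ)} (ha : Good a) (i n : ℕ) :
    Nondeg (prH i) prA ((Nil3.addSphere a).sevenManifold.lapM n) := by
  obtain ⟨S, hS, h⟩ := ha i
  have h1 := (finite_zeros (regM ℂ (prH i tt))).union hS
  have h2 : ∃ z ∈ Metric.sphere (0 : ℂ) 1,
      z ∉ {z : ℂ | (1 - z • regM ℂ (prH i tt)).det = 0} ∪ S := by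
    by_contra hcon
    push Not at hcon
    exact sphere_infinite (h1.subset fun z hz => hcon z hz)
  obtain ⟨z, hz, hz2⟩ := h2
  rw [Set.mem_union, not_or] at hz2
  have hz1 : ‖z‖ = 1 := by simpa using hz
  exact ⟨z, hz1, det_all i hz1 a hz2.1 (h z hz1 hz2.2) n⟩

theorem mem_chainA (i : ℕ) (g : Heis ℤ) : g ∈ chainA i ↔ prH i g = 1 ∧ prA g = 1 := Iff.rfl

theorem acyclic_seven {a : MonoidAlgebra ℤ (Heis ℤ)} (ha : Good a) :
    (Nil3.addSphere a).sevenManifold.DetL2Acyclic :=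
  (Nil3.addSphere a).sevenManifold.limit' chainA chainA_anti chainA_inf (fun i => FQ (2 * i)) prH
    (fun _ => prA) (fun i _ g => mem_chainA i g) (fun i _ n => nondeg_seven ha i n)

theorem good_one : Good 1 := fun i => ⟨∅, Set.finite_empty, fun z _ _ => by
  rw [e1_one, Matrix.det_one]
  exact one_ne_zero⟩

theorem good_elt : Good (elt ℤ 10) := fun i => by
  refine ⟨_, finite_zeros ((-10 : ℂ) • regM ℂ (prH i tt) + (10 : ℂ) • regM ℂ (prH i (uu * tt))),
    fun z hz h => ?_⟩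
  have hz0 : z ≠ 0 := by
    rintro rfl
    simp at hz
  have e : e1 (prH i) prA z (elt ℤ 10)
      = 1 - z • ((-10 : ℂ) • regM ℂ (prH i tt) + (10 : ℂ) • regM ℂ (prH i (uu * tt))) := by
    unfold elt
    rw [e1_sub, e1_add, e1_deg0 i hz0 1 1 rfl, e1_deg1 i hz0 tt 10 rfl,
      e1_deg1 i hz0 (uu * tt) 10 rfl, map_one, regM_one]
    simp only [Int.cast_one, one_smul, Int.cast_ofNat, smul_add, neg_smul, smul_neg]
    abel
  rw [e]
  exact h

end Pool.Agent.TH630.Tor
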