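import Pool.Agent.TH630.Tor.Seven

/-!
Closed `7`-manifolds with the discrete Heisenberg group as fundamental group: the torsions of the
finite covers.
-/

open scoped Matrix Topology

noncomputable section

namespace Pool.Agent.TH630.Tor

open Pool.Agent.Helper993.FK Pool.Agent.Helper993.HeisDet Pool.Agent.TH370.J1087
  Pool.Agent.TH370.J1088 J1089

/-- logarithm of the determinant over the finite quotient -/
def fl (i : ℕ) (r : ℕ) (M : Matrix (Fin r) (Fin r) (MonoidAlgebra ℤ (Heis ℤ))) : ℝ :=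
  Real.log (fkDet (rMul ((M.map (MonoidAlgebra.mapDomainRingHom ℤ
    (QuotientGroup.mk' (chain i)))).map toQ)))

theorem log_lap (C : FreeCx (Heis ℤ)) (i n : ℕ) :
    Real.log (fkDet ((C.quot (chain i)).laplacian n)) = fl i _ (C.lapM n) := by
  rw [FreeCx.laplacian_eq]
  have h := C.quot_lapM (chain i) n
  exact congrArg (fun M : Matrix (Fin (C.rank n)) (Fin (C.rank n)) (MonoidAlgebra ℤ (Heis ℤ ⧸ chain i))
    => Real.log (fkDet (rMul (M.map toQ)))) h

theorem quot_torsion (C : FreeCx (Heis ℤ)) (i : ℕ) : (C.quot (chain i)).l2torsion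
    = -(1 / 2) * ∑ n ∈ Finset.range (C.dim + 1), (-1) ^ n * n * fl i _ (C.lapM n) := by
  have h : ∀ n ∈ Finset.range (C.dim + 1), (-1 : ℝ) ^ n * n * Real.log (fkDet
      ((C.quot (chain i)).laplacian n)) = (-1) ^ n * n * fl i _ (C.lapM n) := by
    intro n _
    rw [log_lap]
  exact congrArg (fun x : ℝ => -(1 / 2) * x) (Finset.sum_congr rfl h)

theorem fl_blkSum (i : ℕ) {r s : ℕ} (A : Matrix (Fin r) (Fin r) (MonoidAlgebra ℤ (Heis ℤ)))
    (B : Matrix (Fin s) (Fin s) (MonoidAlgebra ℤ (Heis ℤ))) :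
    fl i _ (blkSum A B) = fl i _ A + fl i _ B := by
  unfold fl
  rw [blkSum_map _ (map_zero _), log_fkDet_blkSum]

theorem fl_of_det (i : ℕ) (M : Matrix (Fin 1) (Fin 1) (MonoidAlgebra ℤ (Heis ℤ))) {c : ℝ}
    (hc : 0 < c) (h : ∀ z : ℂ, ‖z‖ = 1 →
      ‖(ev (QuotientGroup.mk' (chain i) : Heis ℤ →* FQ i) 1 z M).det‖ = c) :
    fl i _ M = Real.log c / Fintype.card (FQ i) := by
  have e : ∀ z : ℂ, ev (MonoidHom.id (FQ i)) 1 z
      (M.map (MonoidAlgebra.mapDomainRingHom ℤ (QuotientGroup.mk' (chain i))))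
      = ev (QuotientGroup.mk' (chain i) : Heis ℤ →* FQ i) 1 z M := by
    intro z
    rw [ev_map]
    rfl
  have hB : Nondeg (MonoidHom.id (FQ i)) 1
      (M.map (MonoidAlgebra.mapDomainRingHom ℤ (QuotientGroup.mk' (chain i)))) := by
    refine ⟨1, by simp, ?_⟩
    have h1 := h 1 (by simp)
    rw [← e] at h1
    exact norm_pos_iff.mp (by rw [← h1] at hc; exact hc)
  obtain ⟨h1, -, -⟩ := log_fkDet_square (MonoidHom.id (FQ i)) 1 (fun q hq _ => hq) _ hB
  unfold fl
  rw [h1, logDet_eq]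
  have h2 : Real.circleAverage (fun z => Real.log ‖(ev (MonoidHom.id (FQ i)) 1 z
      (M.map (MonoidAlgebra.mapDomainRingHom ℤ (QuotientGroup.mk' (chain i))))).det‖) 0 1
      = Real.circleAverage (fun _ => Real.log c) 0 1 := by
    apply Real.circleAverage_congr_sphere
    intro z hz
    have hz1 : ‖z‖ = 1 := by simpa using hz
    simp only
    rw [e, h z hz1]
  rw [h2, Real.circleAverage_const]
  ring

/-- the value at an element -/
theorem fl_gram (i : ℕ) (a : MonoidAlgebra ℤ (Heis ℤ)) {c : ℝ} (hc : 0 < c)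
    (h : ∀ z : ℂ, ‖z‖ = 1 →
      ‖(e1 (QuotientGroup.mk' (chain i) : Heis ℤ →* FQ i) 1 z a).det‖ = c) :
    fl i _ (adjZ !![a] * !![a]) = 2 * (Real.log c / Fintype.card (FQ i)) ∧
    fl i _ (!![a] * adjZ !![a]) = 2 * (Real.log c / Fintype.card (FQ i)) := by
  have h1 : ∀ z : ℂ, ‖z‖ = 1 →
      ‖(ev (QuotientGroup.mk' (chain i) : Heis ℤ →* FQ i) 1 z (adjZ !![a] * !![a])).det‖
        = c ^ 2 := by
    intro z hz
    rw [ev_mul, ev_adjZ _ _ hz, Matrix.det_mul, Matrix.det_conjTranspose, ev_single1, norm_mul,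
      norm_star, h z hz, sq]
  have h2 : ∀ z : ℂ, ‖z‖ = 1 →
      ‖(ev (QuotientGroup.mk' (chain i) : Heis ℤ →* FQ i) 1 z (!![a] * adjZ !![a])).det‖
        = c ^ 2 := by
    intro z hz
    rw [ev_mul, ev_adjZ _ _ hz, Matrix.det_mul, Matrix.det_conjTranspose, ev_single1, norm_mul,
      norm_star, h z hz, sq]
  rw [fl_of_det i _ (pow_pos hc 2) h1, fl_of_det i _ (pow_pos hc 2) h2, Real.log_pow]
  constructor <;> push_cast <;> ring

/-- the common part of the torsions -/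
def baseT (i : ℕ) : ℝ := -(1 / 2) * (5 * fl i _ (adjZ Nil3.b2 * Nil3.b2 + Nil3.b1 * adjZ Nil3.b1)
  - 3 * fl i _ (adjZ Nil3.b3 * Nil3.b3 + Nil3.b2 * adjZ Nil3.b2)
  + fl i _ (Nil3.b3 * adjZ Nil3.b3) - 7 * fl i _ (adjZ Nil3.b1 * Nil3.b1))

theorem torsion_seven (i : ℕ) (a : MonoidAlgebra ℤ (Heis ℤ)) {c : ℝ} (hc : 0 < c)
    (h : ∀ z : ℂ, ‖z‖ = 1 →
      ‖(e1 (QuotientGroup.mk' (chain i) : Heis ℤ →* FQ i) 1 z a).det‖ = c) :
    ((Nil3.addSphere a).sevenManifold.quot (chain i)).l2torsion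
      = baseT i + 2 * (Real.log c / Fintype.card (FQ i)) := by
  obtain ⟨g1, g2⟩ := fl_gram i a hc h
  have e1 : fl i _ (adjZ (Nil3.addSphere a).b2 * (Nil3.addSphere a).b2
      + (Nil3.addSphere a).b1 * adjZ (Nil3.addSphere a).b1)
      = fl i _ (adjZ Nil3.b2 * Nil3.b2 + Nil3.b1 * adjZ Nil3.b1) :=
    congrArg (fl i Nil3.m) (Nil3.s1 a)
  have e2 : fl i _ (adjZ (Nil3.addSphere a).b3 * (Nil3.addSphere a).b3
      + (Nil3.addSphere a).b2 * adjZ (Nil3.addSphere a).b2)
      = fl i _ (adjZ Nil3.b3 * Nil3.b3 + Nil3.b2 * adjZ Nil3.b2)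
        + 2 * (Real.log c / Fintype.card (FQ i)) := by
    rw [← g1, ← fl_blkSum]
    exact congrArg (fl i (Nil3.k + 1)) (Nil3.s2 a)
  have e3 : fl i _ ((Nil3.addSphere a).b3 * adjZ (Nil3.addSphere a).b3)
      = fl i _ (Nil3.b3 * adjZ Nil3.b3) + 2 * (Real.log c / Fintype.card (FQ i)) := by
    rw [← g2, ← fl_blkSum]
    exact congrArg (fl i (Nil3.l + 1)) (Nil3.s3 a)
  have e0 : fl i _ (adjZ (Nil3.addSphere a).b1 * (Nil3.addSphere a).b1)
      = fl i _ (adjZ Nil3.b1 * Nil3.b1) := rfl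
  rw [quot_torsion, (Nil3.addSphere a).sum_lap (fl i), e0, e1, e2, e3, baseT]
  ring

theorem torsion_one (i : ℕ) :
    ((Nil3.addSphere 1).sevenManifold.quot (chain i)).l2torsion = baseT i := by
  rw [torsion_seven i 1 one_pos (fun z _ => by rw [Tor.e1_one, Matrix.det_one, norm_one])]
  simp

theorem e1_elt (i : ℕ) {z : ℂ} (hz : z ≠ 0) :
    e1 (QuotientGroup.mk' (chain i) : Heis ℤ →* FQ i) 1 z (elt ℤ 10)
      = gmat (MonoidAlgebra.mapDomain (QuotientGroup.mk' (chain i)) (elt ℂ ((10 : ℕ) : ℂ))) := by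
  rw [gmat_eq]
  unfold elt
  rw [e1_sub, e1_add, e1_single _ _ hz, e1_single _ _ hz, e1_single _ _ hz]
  simp only [MonoidHom.one_apply, toAdd_one, zpow_zero, mul_one, Int.cast_one, one_smul, map_one,
    regM_one, Int.cast_ofNat, Nat.cast_ofNat]

theorem torsion_elt (i : ℕ) :
    ((Nil3.addSphere (elt ℤ 10)).sevenManifold.quot (chain i)).l2torsion
      = baseT i + 2 * (Real.log ‖Dseq i‖ / (Nat.card (Heis ℤ ⧸ chain i) : ℝ)) := by
  rw [Nat.card_eq_fintype_card]
  apply torsion_seven i (elt ℤ 10) (lt_of_lt_of_le one_pos (Dseq_norm_ge i))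
  intro z hz
  have hz0 : z ≠ 0 := by
    rintro rfl
    simp at hz
  rw [e1_elt i hz0, det_chain]

theorem exists_seven : ∃ a : MonoidAlgebra ℤ (Heis ℤ), Good a ∧ ∀ L : ℝ, ¬ Filter.Tendsto
    (fun i => ((Nil3.addSphere a).sevenManifold.quot (chain i)).l2torsion) Filter.atTop (𝓝 L) := by
  by_contra hcon
  push Not at hcon
  obtain ⟨L1, h1⟩ := hcon 1 good_one
  obtain ⟨L2, h2⟩ := hcon (elt ℤ 10) good_elt
  apply no_limit ((1 / 2) * (L2 - L1))
  refine ((h2.sub h1).const_mul (1 / 2)).congr fun i => ?_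
  rw [torsion_one, torsion_elt]
  ring

theorem sphere_surj (a : MonoidAlgebra ℤ (Heis ℤ)) : Function.Surjective (Nil3.addSphere a).φ :=
  φN_surj

theorem nc_union {H : Type} [Group H] (S : Set H) :
    Subgroup.normalClosure S = Subgroup.normalClosure (S ∪ {1}) := by
  apply le_antisymm
  · exact Subgroup.normalClosure_mono Set.subset_union_left
  · apply Subgroup.normalClosure_le_normal
    rintro w (hw | rfl)
    · exact Subgroup.subset_normalClosure hw
    · exact Subgroup.one_mem _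

theorem sphere_ker (a : MonoidAlgebra ℤ (Heis ℤ)) : (Nil3.addSphere a).φ.ker
    = Subgroup.normalClosure (Set.range (Nil3.addSphere a).rel) := by
  have h : Set.range (Nil3.addSphere a).rel = Set.range (torusRel fN) ∪ {1} := by
    ext w
    constructor
    · rintro ⟨j, rfl⟩
      change Fin.addCases (m := Nil3.k) (n := 1) (motive := fun _ => FreeGroup (Fin Nil3.m))
        Nil3.rel (fun _ => 1) j ∈ _
      refine Fin.addCases (m := Nil3.k) (n := 1) (fun j => ?_) (fun j => ?_) j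
      · rw [Fin.addCases_left]
        exact Or.inl ⟨j, rfl⟩
      · rw [Fin.addCases_right]
        exact Or.inr rfl
    · rintro (⟨j, rfl⟩ | rfl)
      · exact ⟨Fin.castAdd 1 j, Fin.addCases_left (m := Nil3.k) (n := 1)
          (motive := fun _ => FreeGroup (Fin Nil3.m)) (left := Nil3.rel) (right := fun _ => 1) j⟩
      · exact ⟨Fin.natAdd Nil3.k 0, Fin.addCases_right (m := Nil3.k) (n := 1)
          (motive := fun _ => FreeGroup (Fin Nil3.m)) (left := Nil3.rel) (right := fun _ => 1) 0⟩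
  rw [h]
  exact Eq.trans φN_ker (nc_union _)

end Pool.Agent.TH630.Tor
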