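import Pool.Agent.TH111.J1089
import Pool.Agent.TH630.Tor.TorusDef
import Pool.Agent.TH630.Tor.Blk

/-!
Adding a `2`-sphere and a `3`-cell to a `3`-dimensional complex; Laplacians of closed
`7`-manifolds.
-/

open scoped Matrix

noncomputable section

namespace Pool.Agent.TH630.Tor

open Pool.Agent.Helper993.FK J1089

theorem blkSum_add {R : Type} [AddZeroClass R] {r s r' s' : ℕ} (A A' : Matrix (Fin r) (Fin r') R)
    (B B' : Matrix (Fin s) (Fin s') R) :
    blkSum A B + blkSum A' B' = blkSum (A + A') (B + B') := by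
  unfold blkSum
  ext i j
  simp only [Matrix.add_apply, Matrix.submatrix_apply]
  rcases finSumFinEquiv.symm i with i | i <;> rcases finSumFinEquiv.symm j with j | j <;> simp

theorem blkSum_map {R R' : Type} [Zero R] [Zero R'] {r s r' s' : ℕ} (f : R → R') (hf : f 0 = 0)
    (A : Matrix (Fin r) (Fin r') R) (B : Matrix (Fin s) (Fin s') R) :
    (blkSum A B).map f = blkSum (A.map f) (B.map f) := by
  unfold blkSum
  ext i j
  simp only [Matrix.map_apply, Matrix.submatrix_apply]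
  rcases finSumFinEquiv.symm i with i | i <;> rcases finSumFinEquiv.symm j with j | j <;>
    simp [hf]

namespace ThreeCx

variable {G : Type} [Group G] (X : ThreeCx G) (a : MonoidAlgebra ℤ G)

/-- the presentation with one more, trivial, relator -/
def presS : Pres G where
  m := X.m
  k := X.k + 1
  rel := Fin.addCases X.rel (fun _ => 1)
  φ := X.φ
  φ_rel j := by
    refine Fin.addCases (fun j => ?_) (fun j => ?_) j
    · rw [Fin.addCases_left]; exact X.φ_rel j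
    · rw [Fin.addCases_right, map_one]

/-- the matrix `C_2 → C_1` of `presS` -/
def b2S : Matrix (Fin (X.k + 1)) (Fin X.m) (MonoidAlgebra ℤ G) := X.presS.b2

theorem b2S_castAdd (j : Fin X.k) (i : Fin X.m) : X.b2S (Fin.castAdd 1 j) i = X.b2 j i := by
  have h : X.b2S (Fin.castAdd 1 j) i = fox X.φ i
    ((Fin.addCases (m := X.k) (n := 1) (motive := fun _ => FreeGroup (Fin X.m)) X.rel
      (fun _ => 1) (Fin.castAdd 1 j))) := rfl
  rw [h, Fin.addCases_left]
  rfl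

theorem b2S_natAdd (j : Fin 1) (i : Fin X.m) : X.b2S (Fin.natAdd X.k j) i = 0 := by
  have h : X.b2S (Fin.natAdd X.k j) i = fox X.φ i
    ((Fin.addCases (m := X.k) (n := 1) (motive := fun _ => FreeGroup (Fin X.m)) X.rel
      (fun _ => 1) (Fin.natAdd X.k j))) := rfl
  rw [h, Fin.addCases_right, fox_one]

theorem blk_b2S {l : ℕ} (B : Matrix (Fin l) (Fin X.k) (MonoidAlgebra ℤ G))
    (B' : Matrix (Fin 1) (Fin 1) (MonoidAlgebra ℤ G)) (h : B * X.b2 = 0) :
    blkSum B B' * X.b2S = 0 := by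
  ext1 i j
  rw [Matrix.mul_apply, Fin.sum_univ_add]
  refine Fin.addCases (fun i => ?_) (fun i => ?_) i
  · have h2 := congrFun (congrFun h i) j
    rw [Matrix.mul_apply] at h2
    simp only [b2S_castAdd, b2S_natAdd, blkSum, Matrix.submatrix_apply,
      finSumFinEquiv_symm_apply_castAdd, finSumFinEquiv_symm_apply_natAdd,
      Matrix.fromBlocks_apply₁₁, Matrix.fromBlocks_apply₁₂, mul_zero, Finset.sum_const_zero,
      add_zero, h2]
    rfl
  · simp only [b2S_castAdd, b2S_natAdd, blkSum, Matrix.submatrix_apply,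
      finSumFinEquiv_symm_apply_castAdd, finSumFinEquiv_symm_apply_natAdd,
      Matrix.fromBlocks_apply₂₁, Matrix.zero_apply, zero_mul, mul_zero,
      Finset.sum_const_zero, add_zero]

/-- The complex `(X ∨ S²) ∪ e³`, where the additional `3`-cell is attached along `a` times the
generator of `π_2` given by the `2`-sphere. -/
def addSphere : ThreeCx G where
  toPres := X.presS
  l := X.l + 1
  b3 := blkSum X.b3 !![a]
  b3_mul_b2 := X.blk_b2S X.b3 !![a] X.b3_mul_b2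

theorem b2S_gram : adjZ X.b2S * X.b2S = adjZ X.b2 * X.b2 := by
  ext1 i j
  rw [Matrix.mul_apply, Fin.sum_univ_add]
  simp only [adjZ_apply, b2S_castAdd, b2S_natAdd, mul_zero, Finset.sum_const_zero, add_zero]
  rfl

theorem b2S_cogram : X.b2S * adjZ X.b2S = blkSum (X.b2 * adjZ X.b2) 0 := by
  ext1 i j
  rw [Matrix.mul_apply]
  refine Fin.addCases (fun i => ?_) (fun i => ?_) i
  · refine Fin.addCases (fun j => ?_) (fun j => ?_) j
    · simp only [adjZ_apply, b2S_castAdd, blkSum, Matrix.submatrix_apply,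
        finSumFinEquiv_symm_apply_castAdd, Matrix.fromBlocks_apply₁₁, Matrix.mul_apply]
    · simp only [adjZ_apply, b2S_castAdd, b2S_natAdd, blkSum, Matrix.submatrix_apply,
        finSumFinEquiv_symm_apply_castAdd, finSumFinEquiv_symm_apply_natAdd,
        Matrix.fromBlocks_apply₁₂, invZ_zero, mul_zero, Finset.sum_const_zero, Matrix.zero_apply]
  · refine Fin.addCases (fun j => ?_) (fun j => ?_) j
    · simp only [adjZ_apply, b2S_natAdd, blkSum, Matrix.submatrix_apply,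
        finSumFinEquiv_symm_apply_castAdd, finSumFinEquiv_symm_apply_natAdd,
        Matrix.fromBlocks_apply₂₁, zero_mul, Finset.sum_const_zero, Matrix.zero_apply]
    · simp only [adjZ_apply, b2S_natAdd, blkSum, Matrix.submatrix_apply,
        finSumFinEquiv_symm_apply_natAdd,
        Matrix.fromBlocks_apply₂₂, zero_mul, Finset.sum_const_zero, Matrix.zero_apply]

/-- Laplacians of the `7`-manifold of `X`. -/
theorem l0 : X.sevenManifold.lapM 0 = adjZ X.b1 * X.b1 := rfl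
theorem l1 : X.sevenManifold.lapM 1 = adjZ X.b2 * X.b2 + X.b1 * adjZ X.b1 := rfl
theorem l2 : X.sevenManifold.lapM 2 = adjZ X.b3 * X.b3 + X.b2 * adjZ X.b2 := rfl

theorem l3 : (X.sevenManifold.lapM 3 : Matrix (Fin X.l) (Fin X.l) (MonoidAlgebra ℤ G))
    = X.b3 * adjZ X.b3 := by
  change (adjZ (0 : Matrix (Fin X.l) (Fin X.l) (MonoidAlgebra ℤ G))
    * (0 : Matrix (Fin X.l) (Fin X.l) (MonoidAlgebra ℤ G)) + X.b3 * adjZ X.b3 :
    Matrix (Fin X.l) (Fin X.l) (MonoidAlgebra ℤ G)) = _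
  rw [Matrix.mul_zero, zero_add]

theorem l4 : (X.sevenManifold.lapM 4 : Matrix (Fin X.l) (Fin X.l) (MonoidAlgebra ℤ G))
    = X.b3 * adjZ X.b3 := by
  change (adjZ (adjZ X.b3) * adjZ X.b3 + (0 : Matrix (Fin X.l) (Fin X.l) (MonoidAlgebra ℤ G))
      * adjZ (0 : Matrix (Fin X.l) (Fin X.l) (MonoidAlgebra ℤ G)) :
    Matrix (Fin X.l) (Fin X.l) (MonoidAlgebra ℤ G)) = _
  rw [Matrix.zero_mul, add_zero, adjZ_adjZ]

theorem l5 : (X.sevenManifold.lapM 5 : Matrix (Fin X.k) (Fin X.k) (MonoidAlgebra ℤ G))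
    = adjZ X.b3 * X.b3 + X.b2 * adjZ X.b2 := by
  change (adjZ (adjZ X.b2) * adjZ X.b2 + adjZ X.b3 * adjZ (adjZ X.b3) :
    Matrix (Fin X.k) (Fin X.k) (MonoidAlgebra ℤ G)) = _
  rw [adjZ_adjZ, adjZ_adjZ, add_comm]

theorem l6 : (X.sevenManifold.lapM 6 : Matrix (Fin X.m) (Fin X.m) (MonoidAlgebra ℤ G))
    = adjZ X.b2 * X.b2 + X.b1 * adjZ X.b1 := by
  change (adjZ (adjZ X.b1) * adjZ X.b1 + adjZ X.b2 * adjZ (adjZ X.b2) :
    Matrix (Fin X.m) (Fin X.m) (MonoidAlgebra ℤ G)) = _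
  rw [adjZ_adjZ, adjZ_adjZ, add_comm]

theorem l7 : (X.sevenManifold.lapM 7 : Matrix (Fin 1) (Fin 1) (MonoidAlgebra ℤ G))
    = adjZ X.b1 * X.b1 := by
  change (adjZ (0 : Matrix (Fin 0) (Fin 1) (MonoidAlgebra ℤ G))
    * (0 : Matrix (Fin 0) (Fin 1) (MonoidAlgebra ℤ G)) + adjZ X.b1 * adjZ (adjZ X.b1) :
    Matrix (Fin 1) (Fin 1) (MonoidAlgebra ℤ G)) = _
  rw [Matrix.mul_zero, zero_add, adjZ_adjZ]

/-- A function of square matrices of all sizes, evaluated on the Laplacians. -/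
theorem all_lap {P : ∀ r : ℕ, Matrix (Fin r) (Fin r) (MonoidAlgebra ℤ G) → Prop}
    (h0 : P _ (adjZ X.b1 * X.b1)) (h1 : P _ (adjZ X.b2 * X.b2 + X.b1 * adjZ X.b1))
    (h2 : P _ (adjZ X.b3 * X.b3 + X.b2 * adjZ X.b2)) (h3 : P _ (X.b3 * adjZ X.b3))
    (hE : ∀ A : Matrix (Fin 0) (Fin 0) (MonoidAlgebra ℤ G), P 0 A) :
    ∀ n, P _ (X.sevenManifold.lapM n)
  | 0 => h0
  | 1 => h1
  | 2 => h2
  | 3 => by
    change P X.l _
    rw [X.l3]
    exact h3
  | 4 => by
    change P X.l _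
    rw [X.l4]
    exact h3
  | 5 => by
    change P X.k _
    rw [X.l5]
    exact h2
  | 6 => by
    change P X.m _
    rw [X.l6]
    exact h1
  | 7 => by
    change P 1 _
    rw [X.l7]
    exact h0
  | n + 8 => hE _

/-- The torsion sum. -/
theorem sum_lap (f : ∀ r : ℕ, Matrix (Fin r) (Fin r) (MonoidAlgebra ℤ G) → ℝ) :
    -(1 / 2 : ℝ) * ∑ n ∈ Finset.range (X.sevenManifold.dim + 1),
      (-1) ^ n * n * f _ (X.sevenManifold.lapM n)
      = -(1 / 2) * (5 * f _ (adjZ X.b2 * X.b2 + X.b1 * adjZ X.b1)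
        - 3 * f _ (adjZ X.b3 * X.b3 + X.b2 * adjZ X.b2) + f _ (X.b3 * adjZ X.b3)
        - 7 * f _ (adjZ X.b1 * X.b1)) := by
  have h1 : f _ (X.sevenManifold.lapM 1) = f _ (adjZ X.b2 * X.b2 + X.b1 * adjZ X.b1) := rfl
  have h2 : f _ (X.sevenManifold.lapM 2) = f _ (adjZ X.b3 * X.b3 + X.b2 * adjZ X.b2) := rfl
  have h3 : f _ (X.sevenManifold.lapM 3) = f _ (X.b3 * adjZ X.b3) := congrArg (f X.l) X.l3
  have h4 : f _ (X.sevenManifold.lapM 4) = f _ (X.b3 * adjZ X.b3) := congrArg (f X.l) X.l4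
  have h5 : f _ (X.sevenManifold.lapM 5) = f _ (adjZ X.b3 * X.b3 + X.b2 * adjZ X.b2) :=
    congrArg (f X.k) X.l5
  have h6 : f _ (X.sevenManifold.lapM 6) = f _ (adjZ X.b2 * X.b2 + X.b1 * adjZ X.b1) :=
    congrArg (f X.m) X.l6
  have h7 : f _ (X.sevenManifold.lapM 7) = f _ (adjZ X.b1 * X.b1) := congrArg (f 1) X.l7
  change -(1 / 2 : ℝ) * ∑ n ∈ Finset.range 8, _ = _
  rw [Finset.sum_range_succ, Finset.sum_range_succ, Finset.sum_range_succ, Finset.sum_range_succ,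
    Finset.sum_range_succ, Finset.sum_range_succ, Finset.sum_range_succ, Finset.sum_range_succ,
    Finset.sum_range_zero, h1, h2, h3, h4, h5, h6, h7]
  push_cast
  ring

/-- the four Laplacians of `addSphere` -/
theorem s1 : (adjZ (X.addSphere a).b2 * (X.addSphere a).b2
    + (X.addSphere a).b1 * adjZ (X.addSphere a).b1 :
      Matrix (Fin (X.addSphere a).m) (Fin (X.addSphere a).m) (MonoidAlgebra ℤ G))
    = HAdd.hAdd (α := Matrix (Fin X.m) (Fin X.m) (MonoidAlgebra ℤ G)) (adjZ X.b2 * X.b2)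
      (X.b1 * adjZ X.b1) := by
  change adjZ X.b2S * X.b2S + X.b1 * adjZ X.b1 = _
  rw [X.b2S_gram]

theorem s2 : (adjZ (X.addSphere a).b3 * (X.addSphere a).b3
    + (X.addSphere a).b2 * adjZ (X.addSphere a).b2 :
      Matrix (Fin (X.k + 1)) (Fin (X.k + 1)) (MonoidAlgebra ℤ G))
    = blkSum (adjZ X.b3 * X.b3 + X.b2 * adjZ X.b2) (adjZ !![a] * !![a]) := by
  change adjZ (blkSum X.b3 !![a]) * blkSum X.b3 !![a] + X.b2S * adjZ X.b2S = _
  rw [X.b2S_cogram, blkSum_adj, blkSum_mul, blkSum_add, add_zero]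

theorem s3 : ((X.addSphere a).b3 * adjZ (X.addSphere a).b3 :
      Matrix (Fin (X.l + 1)) (Fin (X.l + 1)) (MonoidAlgebra ℤ G))
    = blkSum (X.b3 * adjZ X.b3) (!![a] * adjZ !![a]) := by
  change blkSum X.b3 !![a] * adjZ (blkSum X.b3 !![a]) = _
  rw [blkSum_adj, blkSum_mul]

end ThreeCx

end Pool.Agent.TH630.Tor
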