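import Pool.Agent.TH630.Tor.DetC
import Pool.Agent.TH630.Tor.Five
import Pool.Agent.TH370.J1087

/-!
The `L²`-torsions of the quotients of the closed aspherical `3`-manifold do not converge.
-/

open scoped Matrix Topology

noncomputable section

namespace Pool.Agent.TH630.Tor

open Pool.Agent.Helper993.FK Pool.Agent.Helper993.HeisDet Pool.Agent.TH304.J893
  Pool.Agent.TH370.J1087

/-- The mapping torus of an automorphism of the surface group, with a homomorphism to `G`. -/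
def torusCx {g : ℕ} {G : Type} [Group G] (f : FreeGroup (Fin (2 * g)) ≃* FreeGroup (Fin (2 * g)))
    (hf : f (surfaceRel g) = surfaceRel g) (φ : FreeGroup (Fin (2 * g + 1)) →* G)
    (h : ∀ j, φ (torusRel f j) = 1) : ThreeCx G where
  toPres := torusPres f φ h
  l := 1
  b3 := torusB3 φ
  b3_mul_b2 := torus_b3_mul_b2 f φ h hf

/-- The automorphism `f8`. -/
def f8' : FreeGroup (Fin (2 * 4)) ≃* FreeGroup (Fin (2 * 4)) := f8

/-- The homomorphism: `x_0 ↦ t⁻¹`, `x_2 ↦ u⁻¹`, `s ↦ s`, the other generators go to the identity. -/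
def φ9 : FreeGroup (Fin (2 * 4 + 1)) →* HZ :=
  FreeGroup.lift (Fin.addCases (m := 2 * 4) (n := 1) (fun j => ψ8 (FreeGroup.of j))
    (fun _ => (1, Multiplicative.ofAdd 1)))

theorem φ9_emb : φ9.comp (emb 4) = ψ8 := by
  apply FreeGroup.ext_hom
  intro j
  change φ9 (FreeGroup.map (Fin.castAdd 1) (FreeGroup.of j)) = _
  rw [FreeGroup.map.of, φ9, FreeGroup.lift_apply_of]
  exact Fin.addCases_left (m := 2 * 4) (n := 1) (motive := fun _ => HZ) j

theorem φ9_emb_apply (w : FreeGroup (Fin (2 * 4))) : φ9 (emb 4 w) = ψ8 w :=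
  congrFun (congrArg DFunLike.coe φ9_emb) w

theorem φ9_s : φ9 (sGen 4) = (1, Multiplicative.ofAdd 1) := by
  rw [sGen, φ9, FreeGroup.lift_apply_of]
  rfl

theorem ψ8_snd (w : F8) : (ψ8 w).2 = 1 := by
  have : (MonoidHom.snd (Heis ℤ) (Multiplicative ℤ)).comp ψ8 = 1 := by
    apply hom_ext8
    intro i
    fin_cases i <;> rfl
  exact congrFun (congrArg DFunLike.coe this) w

theorem φ9_rel (j : Fin (2 * 4 + 1)) : φ9 (torusRel f8' j) = 1 := by
  unfold torusRel
  refine Fin.addCases (fun j => ?_) (fun j => ?_) j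
  · rw [Fin.addCases_left, map_mul, map_mul, map_mul, map_inv, map_inv, φ9_s, φ9_emb_apply,
      φ9_emb_apply]
    have h : ψ8 (f8' (FreeGroup.of j)) = ψ8 (FreeGroup.of j) := inv8_f8 _
    rw [h]
    have h2 := ψ8_snd (FreeGroup.of j)
    refine Prod.ext ?_ ?_
    · simp
    · simp
  · rw [Fin.addCases_right, φ9_emb_apply, surfaceRel_four]
    simp only [rel8, map_mul, map_inv, ψ8_0, ψ8_1, ψ8_2, ψ8_3, ψ8_cC, ψ8_cE]
    simp

theorem f8'_rel : f8' (surfaceRel 4) = surfaceRel 4 := by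
  rw [surfaceRel_four]
  exact fix8_f8

/-- The complex of the `3`-manifold. -/
def X3 : ThreeCx HZ := torusCx f8' f8'_rel φ9 φ9_rel

/-- the matrices -/
def A0 : Matrix (Fin (2 * 4 + 1)) (Fin 1) (MonoidAlgebra ℤ HZ) := X3.b1
def A1 : Matrix (Fin (2 * 4 + 1)) (Fin (2 * 4 + 1)) (MonoidAlgebra ℤ HZ) := X3.b2
def A2 : Matrix (Fin 1) (Fin (2 * 4 + 1)) (MonoidAlgebra ℤ HZ) := X3.b3

theorem A1_mul_A0 : A1 * A0 = 0 := X3.b2_mul_b1
theorem A2_mul_A1 : A2 * A1 = 0 := X3.b3_mul_b2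

theorem rowD_A0 : rowD (s := 2 * 4) (t := 1) A0 = Matrix.diagonal ![sm1] := by
  ext1 i j
  have h : rowD (s := 2 * 4) (t := 1) A0 i j
    = MonoidAlgebra.single (φ9 (FreeGroup.of (Fin.natAdd (2 * 4) i))) 1 - 1 := rfl
  rw [h]
  fin_cases i
  fin_cases j
  change MonoidAlgebra.single (φ9 (sGen 4)) 1 - 1 = sm1
  rw [φ9_s]
  rfl

theorem colR_A2 : colR (s := 2 * 4) (t := 1) A2 = Matrix.diagonal ![sm1] := by
  ext1 i j
  have h : colR (s := 2 * 4) (t := 1) A2 i j
    = (Fin.addCases (m := 2 * 4) (n := 1) (motive := fun _ => MonoidAlgebra ℤ HZ)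
      (fun j => -fox (φ9.comp (emb 4)) j (surfaceRel 4))
      (fun _ => MonoidAlgebra.single (φ9 (sGen 4)) 1 - 1) (Fin.natAdd (2 * 4) j)) := rfl
  rw [h, Fin.addCases_right, φ9_s]
  fin_cases i
  fin_cases j
  rfl

theorem f8'_of (j : Fin (2 * 4)) : f8' (FreeGroup.of j) = f8 (x8 j) := by
  generalize hf : f8 = f
  have h2 : f8' = f := hf
  rw [h2]

theorem Bm_apply' (j k : Fin (2 * 4)) : Bm j k
    = sg * fox ψ8 k (f8' (FreeGroup.of j)) - (if j = k then 1 else 0) := by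
  have h1 : Bm j k = sg * JacA f8 j k - (if (j : Fin 8) = k then 1 else 0) := rfl
  have h2 : JacA f8 j k = fox ψ8 k (f8 (x8 j)) := rfl
  rw [h1, h2, f8'_of]

theorem colL_rowU_A1 : colL (s := 2 * 4) (t := 1) (rowU (s := 2 * 4) (t := 1) A1) = Bm := by
  ext1 j k
  have h0 : colL (s := 2 * 4) (t := 1) (rowU (s := 2 * 4) (t := 1) A1) j k
      = (torusPres f8' φ9 φ9_rel).b2 (Fin.castAdd 1 j) (Fin.castAdd 1 k) := rfl
  have h := torus_b2_ul f8' φ9 φ9_rel j k
  rw [h0, h, φ9_s, φ9_emb]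
  exact (Bm_apply' j k).symm

/-- the determinants -/
def d0 (i : ℕ) (z : ℂ) : ℝ := ‖(ev (prF i) prZ z (adjZ A0 * A0)).det‖
def d1 (i : ℕ) (z : ℂ) : ℝ := ‖(ev (prF i) prZ z (adjZ A1 * A1 + A0 * adjZ A0)).det‖
def d2 (i : ℕ) (z : ℂ) : ℝ := ‖(ev (prF i) prZ z (adjZ A2 * A2 + A1 * adjZ A1)).det‖
def d3 (i : ℕ) (z : ℂ) : ℝ := ‖(ev (prF i) prZ z (A2 * adjZ A2)).det‖
def dG (i : ℕ) (z : ℂ) : ℝ := ‖(ev (prF i) prZ z Bm).det‖

/-- the exceptional points -/
def bad (i : ℕ) : Set ℂ :=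
  {1, -1} ∪ ((prodE i (-16)).roots.toFinset : Set ℂ)
    ∪ (fun z : ℂ => z⁻¹) '' ((prodE i 16).roots.toFinset : Set ℂ)

theorem bad_finite (i : ℕ) : (bad i).Finite := by
  unfold bad
  exact ((Set.toFinite _).union (Finset.finite_toSet _)).union ((Finset.finite_toSet _).image _)

theorem prodE_ne (i : ℕ) (M : ℂ) : prodE i M ≠ 0 := by
  unfold prodE
  exact Finset.prod_ne_zero_iff.mpr fun η _ => Finset.prod_ne_zero_iff.mpr fun ζ _ =>
    eP_ne_zero (by positivity) M η ζ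

theorem good {i : ℕ} {z : ℂ} (hz : ‖z‖ = 1) (h : z ∉ bad i) :
    z ≠ 0 ∧ z ≠ 1 ∧ 1 - z ^ 2 ≠ 0 ∧ (prodE i (-16)).eval z ≠ 0 ∧ (prodE i 16).eval z⁻¹ ≠ 0 := by
  have hz0 : z ≠ 0 := by
    rintro rfl
    simp at hz
  unfold bad at h
  rw [Set.mem_union, Set.mem_union, not_or, not_or] at h
  obtain ⟨⟨h1, h2⟩, h3⟩ := h
  have h1a : z ≠ 1 := fun e => h1 (by simp [e])
  have h1b : z ≠ -1 := fun e => h1 (by simp [e])
  refine ⟨hz0, h1a, ?_, ?_, ?_⟩
  · intro e
    have : (z - 1) * (z + 1) = 0 := by linear_combination -e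
    rcases mul_eq_zero.mp this with e' | e'
    · exact h1a (sub_eq_zero.mp e')
    · exact h1b (eq_neg_of_add_eq_zero_left e')
  · intro e
    apply h2
    simp only [Finset.mem_coe, Multiset.mem_toFinset]
    exact (Polynomial.mem_roots (prodE_ne i _)).mpr e
  · intro e
    apply h3
    refine ⟨z⁻¹, ?_, inv_inv z⟩
    simp only [Finset.mem_coe, Multiset.mem_toFinset]
    exact (Polynomial.mem_roots (prodE_ne i _)).mpr e

theorem dG_eq {i : ℕ} {z : ℂ} (hz : ‖z‖ = 1) (h : z ∉ bad i) :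
    dG i z = ‖z - 1‖ ^ (4 * Fintype.card (FQ i)) * ‖(prodE i (-16)).eval z‖
      * ‖(prodE i 16).eval z⁻¹‖ := by
  obtain ⟨h0, -, h2, -, -⟩ := good hz h
  unfold dG
  rw [det_Bm i h0, e1_factor i h0, e1_factor' i h0, det_pencil i _ h2, det_pencil' i hz h2]

theorem real_facts {a0 a1 a2 a3 g w : ℝ} (h0 : 0 < a0) (h3 : 0 < a3) (hg : 0 < g) (hw : 0 < w)
    (n1 : 0 ≤ a1) (n2 : 0 ≤ a2) (k1 : a3 * a0 * g ^ 2 * a3 * a0 = a2 * a0 * w ^ 2 * w ^ 2)
    (k2 : a1 * a3 = a0 * a2) : 0 < a1 ∧ 0 < a2 ∧ a2 * w ^ 4 = a3 ^ 2 * a0 * g ^ 2 := by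
  have k : a2 * w ^ 4 = a3 ^ 2 * a0 * g ^ 2 := by
    apply mul_right_cancel₀ h0.ne'
    linear_combination -k1
  have hp : 0 < a3 ^ 2 * a0 * g ^ 2 := by positivity
  have p2 : 0 < a2 := by
    rcases n2.eq_or_lt with e | e
    · rw [← e, zero_mul] at k
      linarith
    · exact e
  have p1 : 0 < a1 := by
    rcases n1.eq_or_lt with e | e
    · rw [← e, zero_mul] at k2
      have : 0 < a0 * a2 := by positivity
      linarith
    · exact e
  exact ⟨p1, p2, k⟩

theorem det_facts {i : ℕ} {z : ℂ} (hz : ‖z‖ = 1) (h : z ∉ bad i) :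
    0 < d0 i z ∧ 0 < d1 i z ∧ 0 < d2 i z ∧ 0 < d3 i z ∧ 0 < dG i z ∧
    d2 i z * (‖z - 1‖ ^ Fintype.card (FQ i)) ^ 4 = d3 i z ^ 2 * d0 i z * dG i z ^ 2 ∧
    d1 i z * d3 i z = d0 i z * d2 i z := by
  obtain ⟨h0, h1, h2, h3, h4⟩ := good hz h
  obtain ⟨k1, k2, k3, k4⟩ := three_blocks (s := 2 * 4) (t := 1) (prF i) prZ hz A2 A1 A0
    A2_mul_A1 A1_mul_A0
  have eG0 : (ev (prF i) prZ z (rowD (s := 2 * 4) (t := 1) A0)).det
      = (z - 1) ^ (Fintype.card (FQ i)) := by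
    rw [rowD_A0, det_ev_diagonal, Fin.prod_univ_one]
    exact det_sm1 i h0
  have eG2 : (ev (prF i) prZ z (colR (s := 2 * 4) (t := 1) A2)).det
      = (z - 1) ^ (Fintype.card (FQ i)) := by
    rw [colR_A2, det_ev_diagonal, Fin.prod_univ_one]
    exact det_sm1 i h0
  have hz1 : (z - 1) ^ (Fintype.card (FQ i)) ≠ 0 := pow_ne_zero _ (sub_ne_zero.mpr h1)
  have hz1' : 0 < ‖z - 1‖ := norm_pos_iff.mpr (sub_ne_zero.mpr h1)
  have p0 : 0 < d0 i z := norm_pos_iff.mpr (k3 (by rw [eG0]; exact hz1))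
  have p3 : 0 < d3 i z := norm_pos_iff.mpr (k4 (by rw [eG2]; exact hz1))
  have pG : 0 < dG i z := by
    rw [dG_eq hz h]
    have := norm_pos_iff.mpr h3
    have := norm_pos_iff.mpr h4
    positivity
  rw [eG0, eG2, colL_rowU_A1, norm_pow] at k1
  obtain ⟨p1, p2, k⟩ := real_facts (a0 := d0 i z) (a1 := d1 i z) (a2 := d2 i z) (a3 := d3 i z)
    (g := dG i z) (w := ‖z - 1‖ ^ Fintype.card (FQ i)) p0 p3 pG (by positivity)
    (norm_nonneg _) (norm_nonneg _) k1 k2
  exact ⟨p0, p1, p2, p3, pG, k, k2⟩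

theorem sphere_infinite : Set.Infinite (Metric.sphere (0 : ℂ) 1) := by
  intro h
  have h1 : Set.InjOn (fun n : ℕ => (Complex.exp ((n : ℝ) * Complex.I) : ℂ)) Set.univ := by
    intro a _ b _ hab
    simp only at hab
    rw [Complex.exp_eq_exp_iff_exists_int] at hab
    obtain ⟨n, hn⟩ := hab
    have h2 : (a : ℂ) - b = n * (2 * Real.pi) := by
      have h3 : ((a : ℂ) - b - n * (2 * Real.pi)) * Complex.I = 0 := by
        push_cast at hn
        linear_combination hn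
      rcases mul_eq_zero.mp h3 with h4 | h4
      · linear_combination h4
      · exact absurd h4 Complex.I_ne_zero
    have h4 : (a : ℝ) - b = n * (2 * Real.pi) := by exact_mod_cast h2
    by_cases hn0 : n = 0
    · rw [hn0] at h4
      simp only [Int.cast_zero, zero_mul] at h4
      exact_mod_cast (sub_eq_zero.mp h4)
    · exfalso
      apply irrational_pi
      refine ⟨((a : ℤ) - b : ℚ) / (2 * n), ?_⟩
      have hn0' : (n : ℝ) ≠ 0 := by exact_mod_cast hn0
      push_cast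
      rw [div_eq_iff (by positivity)]
      linear_combination h4
  have h2 : Set.MapsTo (fun n : ℕ => (Complex.exp ((n : ℝ) * Complex.I) : ℂ)) Set.univ
      (Metric.sphere (0 : ℂ) 1) := by
    intro n _
    rw [mem_sphere_zero_iff_norm]
    exact Complex.norm_exp_ofReal_mul_I n
  exact Set.infinite_univ (Set.Finite.of_injOn h2 h1 h)

theorem exists_good (i : ℕ) : ∃ z : ℂ, ‖z‖ = 1 ∧ z ∉ bad i := by
  by_contra hcon
  push Not at hcon
  have h1 : Metric.sphere (0 : ℂ) 1 ⊆ bad i := fun z hz => hcon z (by simpa using hz)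
  exact sphere_infinite ((bad_finite i).subset h1)

theorem nd0 (i : ℕ) : Nondeg (prF i) prZ (adjZ A0 * A0) := by
  obtain ⟨z, hz, h⟩ := exists_good i
  exact ⟨z, hz, norm_pos_iff.mp (det_facts hz h).1⟩

theorem nd1 (i : ℕ) : Nondeg (prF i) prZ (adjZ A1 * A1 + A0 * adjZ A0) := by
  obtain ⟨z, hz, h⟩ := exists_good i
  exact ⟨z, hz, norm_pos_iff.mp (det_facts hz h).2.1⟩

theorem nd2 (i : ℕ) : Nondeg (prF i) prZ (adjZ A2 * A2 + A1 * adjZ A1) := by
  obtain ⟨z, hz, h⟩ := exists_good i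
  exact ⟨z, hz, norm_pos_iff.mp (det_facts hz h).2.2.1⟩

theorem nd3 (i : ℕ) : Nondeg (prF i) prZ (A2 * adjZ A2) := by
  obtain ⟨z, hz, h⟩ := exists_good i
  exact ⟨z, hz, norm_pos_iff.mp (det_facts hz h).2.2.2.1⟩

theorem ndG (i : ℕ) : Nondeg (prF i) prZ Bm := by
  obtain ⟨z, hz, h⟩ := exists_good i
  exact ⟨z, hz, norm_pos_iff.mp (det_facts hz h).2.2.2.2.1⟩

theorem circ_inv (p : Polynomial ℂ) :
    CircleIntegrable (fun z : ℂ => Real.log ‖p.eval z⁻¹‖) 0 1 := by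
  have h1 := circ (p.map (starRingEnd ℂ))
  unfold CircleIntegrable at h1 ⊢
  refine h1.congr ?_
  intro θ _
  simp only
  set z := circleMap 0 1 θ with hz
  have hz1 : ‖z‖ = 1 := by simp [hz]
  have hs : starRingEnd ℂ z⁻¹ = z := by
    rw [map_inv₀, Complex.inv_def, Complex.normSq_eq_norm_sq, Complex.conj_conj,
      RCLike.norm_conj, hz1]
    simp
  have h2 : (p.map (starRingEnd ℂ)).eval z = starRingEnd ℂ (p.eval z⁻¹) := by
    rw [Polynomial.eval_map, ← Polynomial.eval₂_at_apply, hs]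
  rw [h2, RCLike.norm_conj]

/-- the averages -/
def avg (f : ℂ → ℝ) : ℝ := Real.circleAverage (fun z => Real.log (f z)) 0 1

theorem avg_dG (i : ℕ) : avg (dG i)
    = S (3 ^ ((i + 1) / 2)) (3 ^ (i / 2)) (3 ^ (i / 2)) (-16)
      + S (3 ^ ((i + 1) / 2)) (3 ^ (i / 2)) (3 ^ (i / 2)) 16 := by
  unfold avg
  have h1 : Real.circleAverage (fun z => Real.log (dG i z)) 0 1
      = Real.circleAverage (fun z => (4 * Fintype.card (FQ i) : ℝ) • Real.log ‖z - 1‖
      + (Real.log ‖(prodE i (-16)).eval z‖ + Real.log ‖(prodE i 16).eval z⁻¹‖)) 0 1 := by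
    apply circleAverage_congr_finite (bad i) (bad_finite i)
    intro z hz h
    obtain ⟨-, h1, -, h3, h4⟩ := good hz h
    have e1 : 0 < ‖z - 1‖ := norm_pos_iff.mpr (sub_ne_zero.mpr h1)
    have e3 := norm_pos_iff.mpr h3
    have e4 := norm_pos_iff.mpr h4
    rw [dG_eq hz h, Real.log_mul (by positivity) (by positivity),
      Real.log_mul (by positivity) (by positivity), Real.log_pow, smul_eq_mul]
    push_cast
    ring
  have c1 : CircleIntegrable (fun z : ℂ => (4 * Fintype.card (FQ i) : ℝ) • Real.log ‖z - 1‖) 0 1 :=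
    (circleIntegrable_log_norm_sub_const 1).const_smul
  have c2 : CircleIntegrable (fun z : ℂ => Real.log ‖(prodE i (-16)).eval z‖) 0 1 := circ _
  have c3 : CircleIntegrable (fun z : ℂ => Real.log ‖(prodE i 16).eval z⁻¹‖) 0 1 := circ_inv _
  have c23 : CircleIntegrable (fun z : ℂ => Real.log ‖(prodE i (-16)).eval z‖
    + Real.log ‖(prodE i 16).eval z⁻¹‖) 0 1 := c2.add c3
  have h2 : Real.circleAverage (fun z : ℂ => Real.log ‖(prodE i 16).eval z⁻¹‖) 0 1
      = Real.circleAverage (fun z : ℂ => Real.log ‖(prodE i 16).eval z‖) 0 1 :=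
    Real.circleAverage_zero_one_congr_inv (f := fun z : ℂ => Real.log ‖(prodE i 16).eval z‖)
  rw [h1, Real.circleAverage_fun_add c1 c23, Real.circleAverage_fun_add c2 c3,
    Real.circleAverage_fun_smul, circleAverage_log_sub_one, h2, S_eq (by positivity),
    S_eq (by positivity), smul_zero, zero_add]
  rfl

theorem log_facts {a0 a2 a3 g w : ℝ} (h0 : 0 < a0) (h2 : 0 < a2) (h3 : 0 < a3) (hg : 0 < g)
    (hw : 0 < w) (k : a2 * w ^ 4 = a3 ^ 2 * a0 * g ^ 2) :
    Real.log a2 = -4 * Real.log w + (2 * Real.log a3 + (Real.log a0 + 2 * Real.log g)) := by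
  have k' := congrArg Real.log k
  rw [Real.log_mul (by positivity) (by positivity), Real.log_mul (by positivity) (by positivity),
    Real.log_mul (by positivity) (by positivity), Real.log_pow, Real.log_pow, Real.log_pow] at k'
  push_cast at k'
  linear_combination k'

theorem avg_d2 (i : ℕ) : avg (d2 i) = 2 * avg (d3 i) + avg (d0 i) + 2 * avg (dG i) := by
  unfold avg
  have h1 : Real.circleAverage (fun z => Real.log (d2 i z)) 0 1
      = Real.circleAverage (fun z => (-(4 * Fintype.card (FQ i)) : ℝ) • Real.log ‖z - 1‖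
      + ((2 : ℝ) • Real.log (d3 i z) + (Real.log (d0 i z) + (2 : ℝ) • Real.log (dG i z)))) 0 1 := by
    apply circleAverage_congr_finite (bad i) (bad_finite i)
    intro z hz h
    obtain ⟨p0, p1, p2, p3, pG, k, -⟩ := det_facts hz h
    have e1 : 0 < ‖z - 1‖ := norm_pos_iff.mpr (sub_ne_zero.mpr (good hz h).2.1)
    rw [log_facts p0 p2 p3 pG (pow_pos e1 _) k, Real.log_pow]
    simp only [smul_eq_mul]
    ring
  have c1 : CircleIntegrable (fun z : ℂ => (-(4 * Fintype.card (FQ i)) : ℝ) • Real.log ‖z - 1‖) 0 1 :=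
    (circleIntegrable_log_norm_sub_const 1).const_smul
  have c3' : CircleIntegrable (fun z : ℂ => Real.log (d3 i z)) 0 1 :=
    circleIntegrable_logDet _ _ (nd3 i)
  have c3 : CircleIntegrable (fun z : ℂ => (2 : ℝ) • Real.log (d3 i z)) 0 1 := c3'.const_smul
  have c0 : CircleIntegrable (fun z : ℂ => Real.log (d0 i z)) 0 1 :=
    circleIntegrable_logDet _ _ (nd0 i)
  have cG' : CircleIntegrable (fun z : ℂ => Real.log (dG i z)) 0 1 :=
    circleIntegrable_logDet (prF i) prZ (ndG i)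
  have cG : CircleIntegrable (fun z : ℂ => (2 : ℝ) • Real.log (dG i z)) 0 1 := cG'.const_smul
  have c0G : CircleIntegrable (fun z : ℂ => Real.log (d0 i z) + (2 : ℝ) • Real.log (dG i z)) 0 1 :=
    c0.add cG
  have c30G : CircleIntegrable (fun z : ℂ => (2 : ℝ) • Real.log (d3 i z)
    + (Real.log (d0 i z) + (2 : ℝ) • Real.log (dG i z))) 0 1 := c3.add c0G
  rw [h1, Real.circleAverage_fun_add c1 c30G, Real.circleAverage_fun_add c3 c0G,
    Real.circleAverage_fun_add c0 cG, Real.circleAverage_fun_smul, Real.circleAverage_fun_smul,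
    Real.circleAverage_fun_smul, circleAverage_log_sub_one]
  simp only [smul_eq_mul]
  ring

theorem avg_d1 (i : ℕ) : avg (d1 i) + avg (d3 i) = avg (d0 i) + avg (d2 i) := by
  unfold avg
  have c0 : CircleIntegrable (fun z : ℂ => Real.log (d0 i z)) 0 1 :=
    circleIntegrable_logDet _ _ (nd0 i)
  have c1 : CircleIntegrable (fun z : ℂ => Real.log (d1 i z)) 0 1 :=
    circleIntegrable_logDet _ _ (nd1 i)
  have c2 : CircleIntegrable (fun z : ℂ => Real.log (d2 i z)) 0 1 :=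
    circleIntegrable_logDet _ _ (nd2 i)
  have c3 : CircleIntegrable (fun z : ℂ => Real.log (d3 i z)) 0 1 :=
    circleIntegrable_logDet _ _ (nd3 i)
  rw [← Real.circleAverage_fun_add c1 c3, ← Real.circleAverage_fun_add c0 c2]
  apply circleAverage_congr_finite (bad i) (bad_finite i)
  intro z hz h
  obtain ⟨p0, p1, p2, p3, pG, -, k⟩ := det_facts hz h
  rw [← Real.log_mul p1.ne' p3.ne', ← Real.log_mul p0.ne' p2.ne', k]

end Pool.Agent.TH630.Tor
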